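import Mathlib

/-!
# Definitions: the soluble graph; arcs and good pairings
-/

set_option autoImplicit false

namespace Pool.Agent.ALT32

/-- The soluble graph of a group with trivial soluble radical: the vertices are the nontrivial
elements, and two distinct elements are adjacent if they generate a soluble subgroup. -/
def solubleGraph (G : Type*) [Group G] : SimpleGraph {x : G // x ≠ 1} where
  Adj x y := x ≠ y ∧ Group.IsSolvable (Subgroup.closure {x.1, y.1})
  symm := ⟨fun x y h => ⟨h.1.symm, by rw [Set.pair_comm]; exact h.2⟩⟩
  loopless := ⟨fun x h => h.1 rfl⟩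

/-- `v - u` is a nonzero square. -/
def Arc {p : ℕ} (u v : ZMod p) : Prop := v ≠ u ∧ IsSquare (v - u)

/-- The pairing `{u, v}, {w, t}` is good. -/
def Good {β : Type*} (T : β → β → Prop) (u v w t : β) : Prop :=
  T u v ∧ T w t ∧ ((T v t ∧ T w u) ∨ (T t v ∧ T u w))

end Pool.Agent.ALT32
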