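import Pool.Agent.ALT32.Solv
import Pool.Agent.ALT32.Defs

/-!
# A good pairing gives a path of length two from the `p`-cycle
-/

set_option autoImplicit false

namespace Pool.Agent.ALT32

open Equiv Equiv.Perm

theorem ap_inv {α : Type*} (a : Perm α) (s : α) : a (a⁻¹ s) = s := Equiv.apply_symm_apply a s

theorem inv_ap {α : Type*} (a : Perm α) (s : α) : a⁻¹ (a s) = s := Equiv.symm_apply_apply a s

/-! ### Restrictions of an involution -/

/-- The permutations which move points only by `μ`. -/
def Restr {α : Type*} (μ : α → α) (hμ : ∀ s, μ (μ s) = s) : Subgroup (Perm α) where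
  carrier := {π | ∀ s, π s = s ∨ π s = μ s}
  mul_mem' := by
    intro a b ha hb s
    rw [Perm.mul_apply]
    rcases hb s with h | h
    · rw [h]; exact ha s
    · rw [h]
      rcases ha (μ s) with h' | h'
      · right; exact h'
      · left; rw [h', hμ]
  one_mem' := fun s => Or.inl rfl
  inv_mem' := by
    intro a ha s
    rcases ha (a⁻¹ s) with h | h
    · left
      rw [ap_inv] at h
      exact h.symm
    · right
      rw [ap_inv] at h
      rw [h, hμ]
      rw [← h]

theorem restr_map {α : Type*} {μ : α → α} (hμ : ∀ s, μ (μ s) = s) {π : Perm α}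
    (hπ : π ∈ Restr μ hμ) (s : α) : π (μ s) = μ (π s) := by
  have h1 : ∀ s, π s = s ∨ π s = μ s := hπ
  by_cases hs : μ s = s
  · have h2 : π s = s := by
      rcases h1 s with h | h
      · exact h
      · rw [h, hs]
    rw [hs, h2, hs]
  · rcases h1 s with h | h
    · rcases h1 (μ s) with h' | h'
      · rw [h', h]
      · rw [hμ] at h'
        exact absurd (π.injective (h'.trans h.symm)) hs
    · rcases h1 (μ s) with h' | h'
      · exact absurd (π.injective (h'.trans h.symm)) hs
      · rw [h', h]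

theorem restr_solvable {α : Type*} {μ : α → α} (hμ : ∀ s, μ (μ s) = s) :
    Group.IsSolvable (Restr μ hμ) :=
  Group.isSolvable_of_comm fun a b => by
    apply Subtype.ext
    ext s
    show (a : Perm α) ((b : Perm α) s) = (b : Perm α) ((a : Perm α) s)
    rcases a.2 s with h | h <;> rcases b.2 s with h' | h'
    · rw [h, h', h]
    · rw [h, h', restr_map hμ a.2, h]
    · rw [h, h', restr_map hμ b.2, h', h]
    · rw [h, h', restr_map hμ a.2, restr_map hμ b.2, h, h']

theorem solv_restr {α : Type*} {μ : α → α} (hμ : ∀ s, μ (μ s) = s) {z m : Perm α}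
    (hz : ∀ s, z (μ s) = μ (z s)) (hm : ∀ s, m s = s ∨ m s = μ s) :
    Group.IsSolvable (Subgroup.closure {z, m}) := by
  apply solv_pair_comm
  refine solv_closure (Restr μ hμ) (restr_solvable hμ) hm ?_ ?_
  · intro h hh s
    show z (h (z⁻¹ s)) = s ∨ z (h (z⁻¹ s)) = μ s
    rcases hh (z⁻¹ s) with h1 | h1
    · left; rw [h1, ap_inv]
    · right; rw [h1, hz, ap_inv]
  · intro h hh s
    show z⁻¹ (h (z s)) = s ∨ z⁻¹ (h (z s)) = μ s
    rcases hh (z s) with h1 | h1
    · left; rw [h1, inv_ap]
    · right; rw [h1, ← hz, inv_ap]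

/-- Images of solvable two-generator groups. -/
theorem solv_map {G H : Type*} [Group G] [Group H] (f : G →* H) {a b : G}
    (h : Group.IsSolvable (Subgroup.closure {a, b})) :
    Group.IsSolvable (Subgroup.closure {f a, f b}) := by
  have e : Subgroup.closure {f a, f b} = (Subgroup.closure {a, b}).map f := by
    rw [MonoidHom.map_closure, Set.image_pair]
  rw [e]
  have := h
  exact Group.isSolvable_of_surjective (f := f.subgroupMap (Subgroup.closure {a, b}))
    (f.subgroupMap_surjective _)

/-! ### Squares modulo `p` -/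

section
variable {p : ℕ} [Fact p.Prime]

theorem sq_mul_iff (hp2 : p ≠ 2) {a b : ZMod p} (ha : a ≠ 0) (hb : b ≠ 0) :
    IsSquare (a * b) ↔ (IsSquare a ↔ IsSquare b) := by
  have hch : ringChar (ZMod p) ≠ 2 := by rw [ZMod.ringChar_zmod_n]; exact hp2
  rw [← quadraticChar_one_iff_isSquare ha, ← quadraticChar_one_iff_isSquare hb,
    ← quadraticChar_one_iff_isSquare (mul_ne_zero ha hb), map_mul]
  rcases quadraticChar_dichotomy ha with h1 | h1 <;>
    rcases quadraticChar_dichotomy hb with h2 | h2 <;> rw [h1, h2] <;> norm_num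

theorem neg_sq_iff (hp4 : p % 4 = 3) {a : ZMod p} (ha : a ≠ 0) :
    IsSquare (-a) ↔ ¬ IsSquare a := by
  have hp2 : p ≠ 2 := by rintro rfl; norm_num at hp4
  have h1 : ¬ IsSquare (-1 : ZMod p) := by
    rw [ZMod.exists_sq_eq_neg_one_iff]; simp [hp4]
  have e : -a = -1 * a := by ring
  rw [e, sq_mul_iff hp2 (by simp) ha]
  tauto

/-- The affine permutation `s ↦ c + r (s - c)`. -/
def aff (r : ZMod p) (hr : r ≠ 0) (c : ZMod p) : Perm (ZMod p) where
  toFun s := c + r * (s - c)
  invFun s := c + r⁻¹ * (s - c)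
  left_inv s := by field_simp; ring
  right_inv s := by field_simp; ring

theorem aff_apply (r : ZMod p) (hr : r ≠ 0) (c s : ZMod p) : aff r hr c s = c + r * (s - c) := rfl

theorem addRight_zpow (k : ℤ) (s : ZMod p) :
    ((Equiv.addRight (1 : ZMod p)) ^ k) s = s + (k : ZMod p) := by
  have : ∀ k : ℕ, ∀ s : ZMod p, ((Equiv.addRight (1 : ZMod p)) ^ k) s = s + (k : ZMod p) := by
    intro k
    induction k with
    | zero => intro s; simp
    | succ k ih =>
      intro s
      rw [pow_succ, Perm.mul_apply, ih]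
      simp
      ring
  obtain ⟨m, rfl | rfl⟩ := k.eq_nat_or_neg
  · simpa using this m s
  · rw [zpow_neg, zpow_natCast, Perm.inv_eq_iff_eq, this]
    simp

/-- The translation and the square of the homothety generate a solvable group. -/
theorem solv_trans_aff (r : ZMod p) (hr : r ≠ 0) (c : ZMod p) :
    Group.IsSolvable (Subgroup.closure {Equiv.addRight (1 : ZMod p), aff r hr c}) := by
  refine solv_normalize (k := (r.val : ℤ)) (l := ((r⁻¹).val : ℤ)) ?_ ?_
  · ext s
    rw [addRight_zpow, Perm.mul_apply, Perm.mul_apply, aff_apply]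
    have h := ap_inv (aff r hr c) s
    rw [aff_apply] at h
    rw [Equiv.coe_addRight]
    push_cast
    rw [ZMod.natCast_zmod_val]
    linear_combination h
  · ext s
    rw [addRight_zpow, Perm.mul_apply, Perm.mul_apply, Equiv.coe_addRight, aff_apply]
    rw [Perm.inv_eq_iff_eq, aff_apply]
    push_cast
    rw [ZMod.natCast_zmod_val]
    field_simp
    ring

/-- The key computation. -/
theorem good_solv (hp4 : p % 4 = 3) (hp7 : 7 ≤ p) {u v w t : ZMod p} (huv : u ≠ v) (hwt : w ≠ t)
    (huw : u ≠ w) (hut : u ≠ t) (hvw : v ≠ w) (hvt : v ≠ t) (hg : Good Arc u v w t) :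
    ∃ y : Perm (ZMod p), y * y ≠ 1 ∧
      Group.IsSolvable (Subgroup.closure {Equiv.addRight (1 : ZMod p), y * y}) ∧
      Group.IsSolvable (Subgroup.closure {y * y, swap u v * swap w t}) := by
  have hp2 : p ≠ 2 := by omega
  have h2 : (2 : ZMod p) ≠ 0 := by
    intro h
    have : ((2 : ℕ) : ZMod p) = 0 := by exact_mod_cast h
    rw [ZMod.natCast_eq_zero_iff] at this
    have := Nat.le_of_dvd (by norm_num) this
    omega
  have h3 : (3 : ZMod p) ≠ 0 := by
    intro h
    have : ((3 : ℕ) : ZMod p) = 0 := by exact_mod_cast h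
    rw [ZMod.natCast_eq_zero_iff] at this
    have := Nat.le_of_dvd (by norm_num) this
    omega
  have h4 : (4 : ZMod p) ≠ 0 := by
    have : (4 : ZMod p) = 2 * 2 := by norm_num
    rw [this]; exact mul_ne_zero h2 h2
  obtain ⟨⟨_, hA1⟩, ⟨_, hA2⟩, hA3⟩ := hg
  have hwu : w - u ≠ 0 := sub_ne_zero.2 huw.symm
  have htv : t - v ≠ 0 := sub_ne_zero.2 hvt.symm
  -- the ratio is a nonsquare
  obtain ⟨ρ, hρ⟩ : ∃ ρ : ZMod p, ρ * (w - u) = t - v := ⟨(t - v) / (w - u), by field_simp⟩
  have hρ0 : ρ ≠ 0 := by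
    rintro rfl
    rw [zero_mul] at hρ
    exact htv hρ.symm
  have hρns : ¬ IsSquare ρ := by
    have h1 := sq_mul_iff hp2 hρ0 hwu
    rw [hρ] at h1
    have h5 := neg_sq_iff hp4 hwu
    have h6 := neg_sq_iff hp4 htv
    rw [neg_sub] at h5 h6
    rcases hA3 with ⟨⟨_, h7⟩, ⟨_, h8⟩⟩ | ⟨⟨_, h7⟩, ⟨_, h8⟩⟩ <;> tauto
  have hρ1 : 1 - ρ ≠ 0 := by
    intro h
    apply hρns
    have : ρ = 1 := by linear_combination -h
    rw [this]; exact IsSquare.one
  obtain ⟨c, hc⟩ : ∃ c : ZMod p, v - c = ρ * (u - c) := ⟨(v - ρ * u) / (1 - ρ), by field_simp; ring⟩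
  have hc2 : t - c = ρ * (w - c) := by linear_combination hc - hρ
  have hu0 : u - c ≠ 0 := by
    intro h
    rw [h, mul_zero] at hc
    apply huv
    linear_combination h - hc
  have hw0 : w - c ≠ 0 := by
    intro h
    rw [h, mul_zero] at hc2
    apply hwt
    linear_combination h - hc2
  have hcls : IsSquare ((w - c) * (u - c)) := by
    have h1 : (1 - ρ) ^ 2 * ((w - c) * (u - c)) = (v - u) * (t - w) := by
      have e1 : v - u = -(1 - ρ) * (u - c) := by linear_combination hc
      have e2 : t - w = -(1 - ρ) * (w - c) := by linear_combination hc2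
      rw [e1, e2]; ring
    have h5 : IsSquare ((v - u) * (t - w)) := hA1.mul hA2
    rw [← h1] at h5
    have h6 := sq_mul_iff hp2 (pow_ne_zero 2 hρ1) (mul_ne_zero hw0 hu0)
    have h7 : IsSquare ((1 - ρ) ^ 2) := IsSquare.sq _
    tauto
  -- the involution
  obtain ⟨μ, hμdef⟩ : ∃ μ : ZMod p → ZMod p, μ = fun s => by
      classical exact if IsSquare ((s - c) * (u - c)) then c + ρ * (s - c)
        else c + ρ⁻¹ * (s - c) := ⟨_, rfl⟩
  have hμ1 : ∀ s, IsSquare ((s - c) * (u - c)) → μ s = c + ρ * (s - c) := by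
    intro s hs; rw [hμdef]; simp [hs]
  have hμ2 : ∀ s, ¬ IsSquare ((s - c) * (u - c)) → μ s = c + ρ⁻¹ * (s - c) := by
    intro s hs; rw [hμdef]; simp [hs]
  have hρinv : ¬ IsSquare ρ⁻¹ := by
    intro h
    apply hρns
    have := h.inv
    rwa [inv_inv] at this
  have hμμ : ∀ s, μ (μ s) = s := by
    intro s
    by_cases hs0 : s - c = 0
    · have h1 : μ s = c := by
        rw [hμ1 s (by rw [hs0, zero_mul]; exact IsSquare.zero), hs0]; ring
      rw [h1, hμ1 c (by rw [sub_self, zero_mul]; exact IsSquare.zero)]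
      linear_combination -hs0
    · by_cases hs : IsSquare ((s - c) * (u - c))
      · rw [hμ1 s hs, hμ2]
        · field_simp; ring
        · have e : (c + ρ * (s - c) - c) * (u - c) = ρ * ((s - c) * (u - c)) := by ring
          rw [e, sq_mul_iff hp2 hρ0 (mul_ne_zero hs0 hu0)]
          tauto
      · rw [hμ2 s hs, hμ1]
        · field_simp; ring
        · have e : (c + ρ⁻¹ * (s - c) - c) * (u - c) = ρ⁻¹ * ((s - c) * (u - c)) := by ring
          rw [e, sq_mul_iff hp2 (inv_ne_zero hρ0) (mul_ne_zero hs0 hu0)]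
          tauto
  -- the homothety
  have hyy : ∀ s, (aff 2 h2 c * aff 2 h2 c) s = c + 4 * (s - c) := by
    intro s
    rw [Perm.mul_apply, aff_apply, aff_apply]; ring
  have hyaff : aff 2 h2 c * aff 2 h2 c = aff 4 h4 c := by
    ext s; rw [hyy, aff_apply]
  refine ⟨aff 2 h2 c, ?_, ?_, ?_⟩
  · intro h
    have h1 := hyy (c + 1)
    rw [h] at h1
    simp only [Perm.one_apply] at h1
    apply h3
    linear_combination -h1
  · rw [hyaff]
    exact solv_trans_aff 4 h4 c
  · refine solv_restr hμμ ?_ ?_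
    · intro s
      rw [hyy, hyy]
      by_cases hs0 : s - c = 0
      · have hs : IsSquare ((s - c) * (u - c)) := by rw [hs0, zero_mul]; exact IsSquare.zero
        have hs' : IsSquare ((c + 4 * (s - c) - c) * (u - c)) := by
          rw [hs0]; simp
        rw [hμ1 s hs, hμ1 _ hs', hs0]; ring
      · have e : (c + 4 * (s - c) - c) * (u - c) = 4 * ((s - c) * (u - c)) := by ring
        have hsq4 : IsSquare (4 : ZMod p) := ⟨2, by norm_num⟩
        have hiff := sq_mul_iff hp2 h4 (mul_ne_zero hs0 hu0)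
        rw [← e] at hiff
        by_cases hs : IsSquare ((s - c) * (u - c))
        · rw [hμ1 s hs, hμ1 _ (by tauto)]; ring
        · rw [hμ2 s hs, hμ2 _ (by tauto)]; ring
    · intro s
      have hμu : μ u = v := by
        rw [hμ1 u (IsSquare.mul_self _)]; linear_combination -hc
      have hμv : μ v = u := by rw [← hμu, hμμ]
      have hμw : μ w = t := by
        rw [hμ1 w hcls]; linear_combination -hc2
      have hμt : μ t = w := by rw [← hμw, hμμ]
      rw [Perm.mul_apply]
      by_cases h1 : s = w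
      · right
        subst h1
        rw [swap_apply_left, swap_apply_of_ne_of_ne hut.symm hvt.symm, hμw]
      · by_cases h5 : s = t
        · right
          subst h5
          rw [swap_apply_right, swap_apply_of_ne_of_ne huw.symm hvw.symm, hμt]
        · rw [swap_apply_of_ne_of_ne h1 h5]
          by_cases h6 : s = u
          · right; subst h6; rw [swap_apply_left, hμu]
          · by_cases h7 : s = v
            · right; subst h7; rw [swap_apply_right, hμv]
            · left; exact swap_apply_of_ne_of_ne h6 h7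

end

/-- A good pairing gives a path of length two from the `p`-cycle. -/
theorem path_of_good {n p : ℕ} (hp : p.Prime) (hp4 : p % 4 = 3) (hp7 : 7 ≤ p) (x : Perm (Fin n))
    (e : ZMod p → Fin n) (he : Function.Injective e) (hx : ∀ i, x (e i) = e (i + 1))
    (hxf : ∀ s, s ∉ Set.range e → x s = s) (u v w t : ZMod p) (huv : u ≠ v) (hwt : w ≠ t)
    (huw : u ≠ w) (hut : u ≠ t) (hvw : v ≠ w) (hvt : v ≠ t) (hg : Good Arc u v w t) :
    ∃ z : Perm (Fin n), sign z = 1 ∧ z ≠ 1 ∧ Group.IsSolvable (Subgroup.closure {x, z}) ∧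
      Group.IsSolvable (Subgroup.closure {z, swap (e u) (e v) * swap (e w) (e t)}) := by
  have := Fact.mk hp
  obtain ⟨y, hy1, hy2, hy3⟩ := good_solv hp4 hp7 huv hwt huw hut hvw hvt hg
  let ι : ZMod p ↪ Fin n := ⟨e, he⟩
  have hΦ : ∀ (σ : Perm (ZMod p)) (i : ZMod p), viaEmbeddingHom ι σ (e i) = e (σ i) := by
    intro σ i
    exact viaEmbedding_apply σ ι i
  have hΦ' : ∀ (σ : Perm (ZMod p)) (s : Fin n), s ∉ Set.range e → viaEmbeddingHom ι σ s = s := by
    intro σ s hs
    exact viaEmbedding_apply_of_notMem σ ι s hs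
  have hX : viaEmbeddingHom ι (Equiv.addRight (1 : ZMod p)) = x := by
    ext s
    by_cases hs : s ∈ Set.range e
    · obtain ⟨i, rfl⟩ := hs
      rw [hΦ, hx]; rfl
    · rw [hΦ' _ _ hs, hxf s hs]
  have hS : ∀ a b : ZMod p, viaEmbeddingHom ι (swap a b) = swap (e a) (e b) := by
    intro a b
    ext s
    by_cases hs : s ∈ Set.range e
    · obtain ⟨i, rfl⟩ := hs
      rw [hΦ]
      by_cases h1 : i = a
      · subst h1; rw [swap_apply_left, swap_apply_left]
      · by_cases h2 : i = b
        · subst h2; rw [swap_apply_right, swap_apply_right]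
        · rw [swap_apply_of_ne_of_ne h1 h2, swap_apply_of_ne_of_ne (he.ne h1) (he.ne h2)]
    · rw [hΦ' _ _ hs, swap_apply_of_ne_of_ne]
      · rintro rfl; exact hs ⟨a, rfl⟩
      · rintro rfl; exact hs ⟨b, rfl⟩
  refine ⟨viaEmbeddingHom ι (y * y), ?_, ?_, ?_, ?_⟩
  · rw [map_mul, map_mul]
    exact Int.units_mul_self _
  · intro h
    apply hy1
    have : Function.Injective (viaEmbeddingHom ι : Perm (ZMod p) →* Perm (Fin n)) :=
      viaEmbeddingHom_injective ι
    exact this (h.trans (map_one _).symm)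
  · have := solv_map (viaEmbeddingHom ι : Perm (ZMod p) →* Perm (Fin n)) hy2
    rwa [hX] at this
  · have := solv_map (viaEmbeddingHom ι : Perm (ZMod p) →* Perm (Fin n)) hy3
    rwa [map_mul (viaEmbeddingHom ι) (swap u v), hS, hS] at this

end Pool.Agent.ALT32
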