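import Mathlib

/-!
# The 3-cycles through two fixed points generate the alternating group

Let `s = (u v)`.  The set of the `τ` with `τ ∈ H` or `s τ ∈ H` is closed under the left
multiplication by `(u i)`, hence it contains everything; apply this to `H ⊓ Alt`.
-/

set_option autoImplicit false

namespace Pool.Agent.ALT32

open Equiv Equiv.Perm

theorem autGen_swap {α : Type*} [DecidableEq α] {u v i : α} (_huv : u ≠ v) (hiu : i ≠ u)
    (hiv : i ≠ v) : swap u v * swap v i = swap u i * swap u v := by
  have h := swap_mul_swap_mul_swap (x := i) (y := v) (z := u) hiv hiu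
  rw [← h, swap_comm u v, mul_assoc, swap_mul_self, mul_one, swap_comm v i]

theorem autGen_star {α : Type*} [DecidableEq α] {u x y : α} (hyu : y ≠ u) (hxy : x ≠ y) :
    swap x y = swap u x * (swap u y * swap u x) := by
  have h := swap_mul_swap_mul_swap (x := y) (y := u) (z := x) hyu hxy.symm
  rw [← h, swap_comm u y, mul_assoc]

theorem aut_gen {n : ℕ} (hn : 5 ≤ n) (u v : Fin n) (huv : u ≠ v) (H : Subgroup (Perm (Fin n)))
    (hH : ∀ i, i ≠ u → i ≠ v → swap u v * swap v i ∈ H) : alternatingGroup (Fin n) ≤ H := by
  classical
  set H' : Subgroup (Perm (Fin n)) := H ⊓ alternatingGroup (Fin n) with hH'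
  have hH2 : ∀ i, i ≠ u → i ≠ v → swap u v * swap v i ∈ H' := by
    intro i hiu hiv
    refine Subgroup.mem_inf.2 ⟨hH i hiu hiv, ?_⟩
    rw [mem_alternatingGroup, map_mul, sign_swap huv, sign_swap hiv.symm]
    rfl
  have hs : swap u v * swap u v = 1 := swap_mul_self u v
  have star : ∀ i, i ≠ u → ∀ τ : Perm (Fin n), (τ ∈ H' ∨ swap u v * τ ∈ H') →
      (swap u i * τ ∈ H' ∨ swap u v * (swap u i * τ) ∈ H') := by
    intro i hiu τ hτ
    by_cases hiv : i = v
    · subst hiv
      rcases hτ with h | h
      · right
        rwa [← mul_assoc, hs, one_mul]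
      · exact Or.inl h
    · have ht := hH2 i hiu hiv
      rw [autGen_swap huv hiu hiv] at ht
      rcases hτ with h | h
      · right
        have h2 := H'.mul_mem (H'.inv_mem ht) h
        rwa [mul_inv_rev, swap_inv, swap_inv, mul_assoc] at h2
      · left
        have h2 := H'.mul_mem ht h
        rwa [mul_assoc, ← mul_assoc (swap u v), hs, one_mul] at h2
  have all : ∀ τ : Perm (Fin n), τ ∈ H' ∨ swap u v * τ ∈ H' := by
    intro τ
    induction τ using swap_induction_on with
    | one => exact Or.inl H'.one_mem
    | swap_mul f x y hxy ih =>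
      by_cases hxu : x = u
      · subst hxu
        exact star y hxy.symm f ih
      · by_cases hyu : y = u
        · subst hyu
          rw [swap_comm]
          exact star x hxu f ih
        · rw [autGen_star hyu hxy, mul_assoc, mul_assoc]
          exact star x hxu _ (star y hyu _ (star x hxu f ih))
  intro σ hσ
  rcases all σ with h | h
  · exact h.1
  · exfalso
    have h2 := (Subgroup.mem_inf.1 h).2
    rw [mem_alternatingGroup, map_mul, sign_swap huv, mem_alternatingGroup.1 hσ] at h2
    exact absurd h2 (by decide)

end Pool.Agent.ALT32
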