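import Pool.Agent.ALT32.AutGeomS92

/-!
# Automorphisms of the alternating group that preserve 3-cycles are conjugations
-/

set_option autoImplicit false

namespace Pool.Agent.ALT32

open Equiv Equiv.Perm

theorem aut_geom {n : ℕ} (hn : 5 ≤ n) (φ : alternatingGroup (Fin n) ≃* alternatingGroup (Fin n))
    (h3 : ∀ c : alternatingGroup (Fin n), (c : Perm (Fin n)).IsThreeCycle →
      ((φ c : alternatingGroup (Fin n)) : Perm (Fin n)).IsThreeCycle) :
    ∃ σ : Perm (Fin n), ∀ a : alternatingGroup (Fin n),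
      ((φ a : alternatingGroup (Fin n)) : Perm (Fin n)) = σ * a * σ⁻¹ :=
  aut_geomS92 hn φ h3

end Pool.Agent.ALT32
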