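import Mathlib
import Pool.Agent.ALT32.AutGen

/-!
# Automorphisms of the alternating group that preserve 3-cycles are conjugations

`t i = (u v i)`.  The 3-cycles `c i = φ (t i)` have pairwise products of order 2, hence there are
`x`, `y` with `c i = (x y z_i)` for all `i`; `σ : u ↦ x, v ↦ y, i ↦ z_i`.
-/

set_option autoImplicit false

namespace Pool.Agent.ALT32

open Equiv Equiv.Perm

/-- A 3-cycle through the moved point `a`. -/
theorem geo_cycle {α : Type*} [Fintype α] [DecidableEq α] {c : Perm α} (hc : c.IsThreeCycle)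
    {a : α} (ha : c a ≠ a) : c (c a) ≠ a ∧ c (c a) ≠ c a ∧ c (c (c a)) = a ∧
      ∀ z, z ≠ a → z ≠ c a → z ≠ c (c a) → c z = z := by
  have h3 : c (c (c a)) = a := by
    have h := hc.orderOf
    have h1 : c ^ 3 = 1 := by rw [← h, pow_orderOf_eq_one]
    have h2 := DFunLike.congr_fun h1 a
    simpa [pow_succ] using h2
  have h1 : c (c a) ≠ a := by
    intro h
    rw [h] at h3
    exact ha h3
  have h2 : c (c a) ≠ c a := fun h => ha (c.injective h)
  refine ⟨h1, h2, h3, ?_⟩
  intro z hza hzb hze
  by_contra hz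
  have hsub : ({a, c a, c (c a), z} : Finset α) ⊆ c.support := by
    intro w hw
    rw [mem_support]
    simp only [Finset.mem_insert, Finset.mem_singleton] at hw
    rcases hw with rfl | rfl | rfl | rfl
    · exact ha
    · exact h2
    · rw [h3]
      exact h1.symm
    · exact hz
  have hcard := Finset.card_le_card hsub
  rw [hc.card_support, Finset.card_insert_of_notMem, Finset.card_insert_of_notMem,
    Finset.card_insert_of_notMem, Finset.card_singleton] at hcard
  · omega
  · simpa using hze.symm
  · simp only [Finset.mem_insert, Finset.mem_singleton, not_or]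
    exact ⟨h2.symm, hzb.symm⟩
  · simp only [Finset.mem_insert, Finset.mem_singleton, not_or]
    exact ⟨ha.symm, h1.symm, hza.symm⟩

/-- Two 3-cycles the product of which has order 2 have a common arc. -/
theorem geo_arc {α : Type*} [Fintype α] [DecidableEq α] {c d : Perm α} (hc : c.IsThreeCycle)
    (hd : d.IsThreeCycle) (h1 : c * d * (c * d) = 1) (h2 : c * d ≠ 1) :
    ∃ x, c x ≠ x ∧ d x = c x ∧ d (d x) ≠ c (c x) := by
  have hs : ∀ z, c (d (c (d z))) = z := fun z => DFunLike.congr_fun h1 z
  by_cases hz : ∃ z, c z ≠ z ∧ d z = z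
  · obtain ⟨z, hz1, hz2⟩ := hz
    obtain ⟨k1, k2, k3, k4⟩ := geo_cycle hc hz1
    have e := hs z
    rw [hz2] at e
    have e2 : d (c z) = c (c z) := c.injective (e.trans k3.symm)
    refine ⟨c z, k2, e2, ?_⟩
    rw [e2, k3]
    intro h
    have h5 : d (c (c z)) = d z := by rw [h, hz2]
    exact k1 (d.injective h5)
  · exfalso
    push Not at hz
    obtain ⟨a, ha⟩ : ∃ a, c a ≠ a := by
      by_contra h
      push Not at h
      exact hc.ne_one (Equiv.ext h)
    obtain ⟨k1, k2, k3, k4⟩ := geo_cycle hc ha
    have hda := hz a ha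
    obtain ⟨l1, l2, l3, l4⟩ := geo_cycle hd hda
    have hdb : d (c a) ≠ c a := hz _ k2
    have hde : d (c (c a)) ≠ c (c a) := hz _ (by rw [k3]; exact k1.symm)
    -- points moved by `d`: `a`, `d a`, `d (d a)`; so `{c a, c (c a)} = {d a, d (d a)}`
    have hb : c a = d a ∨ c a = d (d a) := by
      by_contra h
      push Not at h
      exact hdb (l4 _ ha h.1 h.2)
    have he : c (c a) = d a ∨ c (c a) = d (d a) := by
      by_contra h
      push Not at h
      exact hde (l4 _ k1 h.1 h.2)
    rcases hb with hb | hb <;> rcases he with he | he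
    · exact k2 (he.trans hb.symm)
    · -- `d = c`
      have e := hs a
      rw [← hb, he, l3] at e
      exact ha e
    · -- `d = c⁻¹`
      apply h2
      ext1 z
      rw [Perm.mul_apply, Perm.one_apply]
      by_cases z1 : z = a
      · rw [z1, ← he, k3]
      · by_cases z2 : z = c a
        · rw [z2, hb, l3, ← hb]
        · by_cases z3 : z = c (c a)
          · rw [z3, he, ← hb, ← he]
          · rw [l4 z z1 (he ▸ z3) (hb ▸ z2), k4 z z1 z2 z3]
    · exact k2 (he.trans hb.symm)

/-- Two 3-cycles with the same values at `x` and `y = c x` are equal. -/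
theorem geo_eq {α : Type*} [Fintype α] [DecidableEq α] {c d : Perm α} (hc : c.IsThreeCycle)
    (hd : d.IsThreeCycle) {x : α} (hx : c x ≠ x) (h1 : d x = c x) (h2 : d (d x) = c (c x)) :
    c = d := by
  obtain ⟨k1, k2, k3, k4⟩ := geo_cycle hc hx
  obtain ⟨l1, l2, l3, l4⟩ := geo_cycle hd (a := x) (by rw [h1]; exact hx)
  ext1 z
  by_cases z1 : z = x
  · rw [z1, h1]
  · by_cases z2 : z = c x
    · rw [z2, ← h2, h1]
    · by_cases z3 : z = c (c x)
      · rw [z3, k3, ← h2, l3]
      · rw [k4 z z1 z2 z3, l4 z z1 (h1 ▸ z2) (h2 ▸ z3)]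

/-- The 3-cycle `(u v i)`. -/
theorem geo_t {α : Type*} [DecidableEq α] {u v i : α} (huv : u ≠ v) (hiu : i ≠ u) (hiv : i ≠ v) :
    (swap u v * swap v i) u = v ∧ (swap u v * swap v i) v = i ∧ (swap u v * swap v i) i = u ∧
      ∀ z, z ≠ u → z ≠ v → z ≠ i → (swap u v * swap v i) z = z := by
  refine ⟨?_, ?_, ?_, ?_⟩
  · rw [Perm.mul_apply, swap_apply_of_ne_of_ne huv hiu.symm, swap_apply_left]
  · rw [Perm.mul_apply, swap_apply_left, swap_apply_of_ne_of_ne hiu hiv]
  · rw [Perm.mul_apply, swap_apply_right, swap_apply_right]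
  · intro z h1 h2 h3
    rw [Perm.mul_apply, swap_apply_of_ne_of_ne h2 h3, swap_apply_of_ne_of_ne h1 h2]

theorem aut_geomS92 {n : ℕ} (hn : 5 ≤ n) (φ : alternatingGroup (Fin n) ≃* alternatingGroup (Fin n))
    (h3 : ∀ c : alternatingGroup (Fin n), (c : Perm (Fin n)).IsThreeCycle →
      ((φ c : alternatingGroup (Fin n)) : Perm (Fin n)).IsThreeCycle) :
    ∃ σ : Perm (Fin n), ∀ a : alternatingGroup (Fin n),
      ((φ a : alternatingGroup (Fin n)) : Perm (Fin n)) = σ * a * σ⁻¹ := by
  classical
  set u : Fin n := ⟨0, by omega⟩ with hu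
  set v : Fin n := ⟨1, by omega⟩ with hv
  set i0 : Fin n := ⟨2, by omega⟩ with hi0
  set i1 : Fin n := ⟨3, by omega⟩ with hi1
  have huv : u ≠ v := by simp [hu, hv, Fin.ext_iff]
  have hi0u : i0 ≠ u := by simp [hu, hi0, Fin.ext_iff]
  have hi0v : i0 ≠ v := by simp [hv, hi0, Fin.ext_iff]
  have hi1u : i1 ≠ u := by simp [hu, hi1, Fin.ext_iff]
  have hi1v : i1 ≠ v := by simp [hv, hi1, Fin.ext_iff]
  have hi01 : i0 ≠ i1 := by simp [hi0, hi1, Fin.ext_iff]
  have hmem : ∀ i : Fin n, (swap u v * swap v i) ∈ alternatingGroup (Fin n) ∨ i = v := by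
    intro i
    by_cases hiv : i = v
    · exact Or.inr hiv
    · left
      rw [mem_alternatingGroup, map_mul, sign_swap huv, sign_swap (Ne.symm hiv)]
      rfl
  -- the elements `t i`
  have ht : ∀ i : Fin n, ∃ t : alternatingGroup (Fin n), i ≠ v →
      (t : Perm (Fin n)) = swap u v * swap v i := by
    intro i
    rcases hmem i with h | h
    · exact ⟨⟨_, h⟩, fun _ => rfl⟩
    · exact ⟨1, fun h' => absurd h h'⟩
  choose t ht using ht
  set c : Fin n → Perm (Fin n) := fun i => ((φ (t i) : alternatingGroup (Fin n)) : Perm (Fin n))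
    with hcdef
  have htc : ∀ i, i ≠ u → i ≠ v → (t i : Perm (Fin n)).IsThreeCycle := by
    intro i hiu hiv
    rw [ht i hiv, swap_comm u v]
    exact isThreeCycle_swap_mul_swap_same huv.symm (Ne.symm hiv) (Ne.symm hiu)
  have hcc : ∀ i, i ≠ u → i ≠ v → (c i).IsThreeCycle := fun i hiu hiv => h3 _ (htc i hiu hiv)
  have hprod : ∀ i j, i ≠ u → i ≠ v → j ≠ u → j ≠ v → i ≠ j →
      t i * t j * (t i * t j) = 1 ∧ t i * t j ≠ 1 := by
    intro i j hiu hiv hju hjv hij
    obtain ⟨p1, p2, p3, p4⟩ := geo_t huv hiu hiv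
    obtain ⟨q1, q2, q3, q4⟩ := geo_t huv hju hjv
    have r1 : (t i * t j : Perm (Fin n)) u = i := by
      rw [ht i hiv, ht j hjv, Perm.mul_apply, q1, p2]
    have r2 : (t i * t j : Perm (Fin n)) v = j := by
      rw [ht i hiv, ht j hjv, Perm.mul_apply, q2, p4 j hju hjv (Ne.symm hij)]
    have r3 : (t i * t j : Perm (Fin n)) i = u := by
      rw [ht i hiv, ht j hjv, Perm.mul_apply, q4 i hiu hiv hij, p3]
    have r4 : (t i * t j : Perm (Fin n)) j = v := by
      rw [ht i hiv, ht j hjv, Perm.mul_apply, q3, p1]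
    have r5 : ∀ z, z ≠ u → z ≠ v → z ≠ i → z ≠ j → (t i * t j : Perm (Fin n)) z = z := by
      intro z z1 z2 z3 z4
      rw [ht i hiv, ht j hjv, Perm.mul_apply, q4 z z1 z2 z4, p4 z z1 z2 z3]
    constructor
    · apply Subtype.ext
      show (t i * t j : Perm (Fin n)) * (t i * t j : Perm (Fin n)) = 1
      ext1 z
      rw [Perm.mul_apply, Perm.one_apply]
      by_cases z1 : z = u
      · rw [z1, r1, r3]
      · by_cases z2 : z = v
        · rw [z2, r2, r4]
        · by_cases z3 : z = i
          · rw [z3, r3, r1]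
          · by_cases z4 : z = j
            · rw [z4, r4, r2]
            · rw [r5 z z1 z2 z3 z4, r5 z z1 z2 z3 z4]
    · intro h
      have h' : (t i * t j : Perm (Fin n)) = 1 := congrArg Subtype.val h
      rw [h', Perm.one_apply] at r1
      exact hiu r1.symm
  have hcprod : ∀ i j, i ≠ u → i ≠ v → j ≠ u → j ≠ v → i ≠ j →
      c i * c j * (c i * c j) = 1 ∧ c i * c j ≠ 1 := by
    intro i j hiu hiv hju hjv hij
    obtain ⟨e1, e2⟩ := hprod i j hiu hiv hju hjv hij
    constructor
    · have h := congrArg (fun a => ((φ a : alternatingGroup (Fin n)) : Perm (Fin n))) e1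
      simpa [hcdef] using h
    · intro h
      apply e2
      apply φ.injective
      apply Subtype.ext
      simpa [hcdef] using h
  have hinj : ∀ i j, i ≠ v → j ≠ v → c i = c j → i = j := by
    intro i j hiv hjv h
    have h1 : t i = t j := φ.injective (Subtype.ext h)
    have h2 : swap u v * swap v i = swap u v * swap v j := by rw [← ht i hiv, ← ht j hjv, h1]
    have h4 := DFunLike.congr_fun (mul_left_cancel h2) v
    rwa [swap_apply_left, swap_apply_left] at h4
  -- the common arc
  obtain ⟨x, hx1, hx2, hx3⟩ := geo_arc (hcc i0 hi0u hi0v) (hcc i1 hi1u hi1v)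
    (hcprod i0 i1 hi0u hi0v hi1u hi1v hi01).1 (hcprod i0 i1 hi0u hi0v hi1u hi1v hi01).2
  set y := c i0 x with hy
  have hall : ∀ i, i ≠ u → i ≠ v → c i x = y := by
    intro i hiu hiv
    by_cases e0 : i = i0
    · rw [e0]
    · by_cases e1 : i = i1
      · rw [e1, hx2]
      · obtain ⟨k1, k2, k3, k4⟩ := geo_cycle (hcc i0 hi0u hi0v) hx1
        rw [← hy] at k1 k2 k3 k4
        obtain ⟨l1, l2, l3, l4⟩ := geo_cycle (hcc i1 hi1u hi1v) (a := x) (by rw [hx2]; exact hx1)
        rw [hx2] at l1 l2 l3 l4 hx3
        obtain ⟨w, w1, w2, -⟩ := geo_arc (hcc i0 hi0u hi0v) (hcc i hiu hiv)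
          (hcprod i0 i hi0u hi0v hiu hiv (Ne.symm e0)).1 (hcprod i0 i hi0u hi0v hiu hiv (Ne.symm e0)).2
        obtain ⟨w', w1', w2', -⟩ := geo_arc (hcc i1 hi1u hi1v) (hcc i hiu hiv)
          (hcprod i1 i hi1u hi1v hiu hiv (Ne.symm e1)).1 (hcprod i1 i hi1u hi1v hiu hiv (Ne.symm e1)).2
        have hw : w = x ∨ w = y ∨ w = c i0 y := by
          by_contra h
          push Not at h
          exact w1 (k4 w h.1 h.2.1 h.2.2)
        have hw' : w' = x ∨ w' = y ∨ w' = c i1 y := by
          by_contra h
          push Not at h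
          exact w1' (l4 w' h.1 h.2.1 h.2.2)
        rcases hw with hw | hw | hw
        · rw [hw] at w2
          exact w2
        · rw [hw] at w2
          rcases hw' with hw' | hw' | hw'
          · rw [hw', hx2] at w2'
            exact w2'
          · rw [hw'] at w2'
            exact absurd (w2'.symm.trans w2) hx3
          · -- `c i y = c i0 y`, `c i (c i1 y) = x`
            rw [hw', l3] at w2'
            obtain ⟨m1, m2, m3, m4⟩ := geo_cycle (hcc i hiu hiv) (a := y) (by rw [w2]; exact k2)
            exfalso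
            have h5 : c i1 y = c i (c i y) := by
              by_contra h
              have h6 := m4 (c i1 y) l2 (by rw [w2]; exact hx3) h
              rw [w2'] at h6
              exact l1 h6.symm
            rw [h5, m3] at w2'
            exact hx1 w2'
        · rw [hw, k3] at w2
          rcases hw' with hw' | hw' | hw'
          · rw [hw', hx2] at w2'
            exact w2'
          · rw [hw'] at w2'
            obtain ⟨m1, m2, m3, m4⟩ := geo_cycle (hcc i hiu hiv) (a := y) (by rw [w2']; exact l2)
            exfalso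
            have h5 : c i0 y = c i (c i y) := by
              by_contra h
              have h6 := m4 (c i0 y) k2 (by rw [w2']; exact hx3.symm) h
              rw [w2] at h6
              exact k1 h6.symm
            rw [h5, m3] at w2
            exact hx1 w2
          · rw [hw', l3] at w2'
            exact absurd ((c i).injective (w2'.trans w2.symm)) hx3
  -- the permutation
  have hyx : y ≠ x := hx1
  have hcyc : ∀ i, i ≠ u → i ≠ v → c i y ≠ x ∧ c i y ≠ y ∧ c i (c i y) = x ∧
      ∀ z, z ≠ x → z ≠ y → z ≠ c i y → c i z = z := by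
    intro i hiu hiv
    have h := geo_cycle (hcc i hiu hiv) (a := x) (by rw [hall i hiu hiv]; exact hyx)
    rwa [hall i hiu hiv] at h
  set s : Fin n → Fin n := fun i => if i = u then x else if i = v then y else c i y with hsdef
  have su : s u = x := by simp [hsdef]
  have sv : s v = y := by simp [hsdef, huv.symm]
  have si : ∀ i, i ≠ u → i ≠ v → s i = c i y := by
    intro i hiu hiv
    simp [hsdef, hiu, hiv]
  have sinj : Function.Injective s := by
    intro i j hij
    by_cases iu : i = u
    · by_cases ju : j = u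
      · rw [iu, ju]
      · exfalso
        rw [iu, su] at hij
        by_cases jv : j = v
        · rw [jv, sv] at hij
          exact hyx hij.symm
        · rw [si j ju jv] at hij
          exact (hcyc j ju jv).1 hij.symm
    · by_cases iv : i = v
      · by_cases jv : j = v
        · rw [iv, jv]
        · exfalso
          rw [iv, sv] at hij
          by_cases ju : j = u
          · rw [ju, su] at hij
            exact hyx hij
          · rw [si j ju jv] at hij
            exact (hcyc j ju jv).2.1 hij.symm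
      · rw [si i iu iv] at hij
        by_cases ju : j = u
        · rw [ju, su] at hij
          exact absurd hij (hcyc i iu iv).1
        · by_cases jv : j = v
          · rw [jv, sv] at hij
            exact absurd hij (hcyc i iu iv).2.1
          · rw [si j ju jv] at hij
            apply hinj i j iv jv
            apply geo_eq (hcc i iu iv) (hcc j ju jv) (x := x)
            · rw [hall i iu iv]
              exact hyx
            · rw [hall i iu iv, hall j ju jv]
            · rw [hall i iu iv, hall j ju jv, hij]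
  let σ : Perm (Fin n) := Equiv.ofBijective s (Finite.injective_iff_bijective.1 sinj)
  have hσ : ∀ z, σ z = s z := fun z => rfl
  have hconj : ∀ i, i ≠ u → i ≠ v → c i = σ * (t i : Perm (Fin n)) * σ⁻¹ := by
    intro i hiu hiv
    rw [eq_mul_inv_iff_mul_eq]
    obtain ⟨p1, p2, p3, p4⟩ := geo_t huv hiu hiv
    obtain ⟨g1, g2, g3, g4⟩ := hcyc i hiu hiv
    ext1 z
    rw [Perm.mul_apply, Perm.mul_apply, ht i hiv, hσ, hσ]
    by_cases z1 : z = u
    · rw [z1, p1, su, sv, hall i hiu hiv]
    · by_cases z2 : z = v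
      · rw [z2, p2, sv, si i hiu hiv]
      · by_cases z3 : z = i
        · rw [z3, p3, su, si i hiu hiv, g3]
        · rw [p4 z z1 z2 z3]
          apply g4
          · intro h
            exact z1 (sinj (h.trans su.symm))
          · intro h
            exact z2 (sinj (h.trans sv.symm))
          · intro h
            exact z3 (sinj (h.trans (si i hiu hiv).symm))
  refine ⟨σ, ?_⟩
  let f1 : alternatingGroup (Fin n) →* Perm (Fin n) :=
    (alternatingGroup (Fin n)).subtype.comp φ.toMonoidHom
  let f2 : alternatingGroup (Fin n) →* Perm (Fin n) :=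
    (MulAut.conj σ).toMonoidHom.comp (alternatingGroup (Fin n)).subtype
  have hle := aut_gen hn u v huv ((f1.eqLocus f2).map (alternatingGroup (Fin n)).subtype) (by
    intro i hiu hiv
    refine ⟨t i, ?_, ht i hiv⟩
    show f1 (t i) = f2 (t i)
    exact hconj i hiu hiv)
  intro a
  obtain ⟨b, hb, hba⟩ := hle a.2
  have hab : b = a := Subtype.ext hba
  rw [hab] at hb
  exact hb

end Pool.Agent.ALT32
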