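import Mathlib

/-!
# ALT32/AutSix: the square of an automorphism of `A_6` preserves the 3-cycles

The elements of order 3 of `A_6` are the 40 3-cycles (one class) and 40 elements of type `3^2`. An
automorphism `φ` maps the 3-cycles into one of the two sets; if into the second one, then onto it,
and the second set is mapped into the first one.
-/

set_option autoImplicit false

namespace Pool.Agent.ALT32

open Equiv Equiv.Perm

theorem six_conj_type {n : ℕ} {a b : alternatingGroup (Fin n)} (h : IsConj a b) :
    (a : Perm (Fin n)).cycleType = (b : Perm (Fin n)).cycleType := by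
  have h1 : IsConj (a : Perm (Fin n)) (b : Perm (Fin n)) :=
    (alternatingGroup (Fin n)).subtype.map_isConj h
  exact Equiv.Perm.isConj_iff_cycleType_eq.1 h1

theorem six_conj_map {n : ℕ} (φ : alternatingGroup (Fin n) ≃* alternatingGroup (Fin n))
    {a b : alternatingGroup (Fin n)} (h : IsConj a b) : IsConj (φ a) (φ b) :=
  φ.toMonoidHom.map_isConj h

theorem six_order_three {σ : Perm (Fin 6)} (h : orderOf σ = 3) :
    σ.cycleType = {3} ∨ σ.cycleType = {3, 3} := by
  obtain ⟨k, hk⟩ := Equiv.Perm.cycleType_prime_order (σ := σ) (by rw [h]; exact Nat.prime_three)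
  rw [h] at hk
  have h1 : σ.cycleType.sum ≤ 6 := by
    rw [Equiv.Perm.sum_cycleType]
    exact (Finset.card_le_univ _).trans (by simp)
  rw [hk, Multiset.sum_replicate, smul_eq_mul] at h1
  have h2 : k = 0 ∨ k = 1 := by omega
  rcases h2 with rfl | rfl
  · exact Or.inl hk
  · exact Or.inr hk

theorem six_order_of_type {σ : Perm (Fin 6)} (h : σ.cycleType = {3} ∨ σ.cycleType = {3, 3}) :
    orderOf σ = 3 := by
  rcases h with h | h
  · rw [← Equiv.Perm.lcm_cycleType, h]; rfl
  · rw [← Equiv.Perm.lcm_cycleType, h]; rfl

theorem six_card_one : (Finset.univ.filter fun g : Perm (Fin 6) => g.cycleType = {3}).card = 40 := by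
  rw [Equiv.Perm.card_of_cycleType]
  decide

theorem six_card_two :
    (Finset.univ.filter fun g : Perm (Fin 6) => g.cycleType = {3, 3}).card = 40 := by
  rw [Equiv.Perm.card_of_cycleType]
  decide

theorem aut_six (φ : alternatingGroup (Fin 6) ≃* alternatingGroup (Fin 6))
    (c : alternatingGroup (Fin 6)) (hc : (c : Perm (Fin 6)).IsThreeCycle) :
    ((φ (φ c) : alternatingGroup (Fin 6)) : Perm (Fin 6)).IsThreeCycle := by
  have hord : ∀ a : alternatingGroup (Fin 6), orderOf (a : Perm (Fin 6)) = 3 →
      orderOf ((φ a : alternatingGroup (Fin 6)) : Perm (Fin 6)) = 3 := by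
    intro a ha
    rw [Subgroup.orderOf_coe] at ha ⊢
    rw [MulEquiv.orderOf_eq]
    exact ha
  have hc' : (c : Perm (Fin 6)).cycleType = {3} := hc
  have h1 := six_order_three (hord c (six_order_of_type (Or.inl hc')))
  rcases h1 with h1 | h1
  · have h2 : IsConj c (φ c) := alternatingGroup.isThreeCycle_isConj (by simp) hc h1
    have h3 := six_conj_type (six_conj_map φ h2)
    show ((φ (φ c) : alternatingGroup (Fin 6)) : Perm (Fin 6)).cycleType = {3}
    rw [← h3]
    exact h1
  · have hT : ∀ a : alternatingGroup (Fin 6), (a : Perm (Fin 6)).cycleType = {3} →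
        ((φ a : alternatingGroup (Fin 6)) : Perm (Fin 6)).cycleType = {3, 3} := by
      intro a ha
      have h2 : IsConj c a := alternatingGroup.isThreeCycle_isConj (by simp) hc ha
      rw [← six_conj_type (six_conj_map φ h2)]
      exact h1
    have hmem : ∀ g : Perm (Fin 6), g.cycleType = {3} → g ∈ alternatingGroup (Fin 6) := by
      intro g hg
      have h2 : g.IsThreeCycle := hg
      exact Equiv.Perm.mem_alternatingGroup.2 h2.sign
    have hsur := Finset.surj_on_of_inj_on_of_card_le
      (s := Finset.univ.filter fun g : Perm (Fin 6) => g.cycleType = {3})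
      (t := Finset.univ.filter fun g : Perm (Fin 6) => g.cycleType = {3, 3})
      (fun g hg => ((φ ⟨g, hmem g (Finset.mem_filter.1 hg).2⟩ : alternatingGroup (Fin 6)) :
        Perm (Fin 6)))
      (fun g hg => Finset.mem_filter.2 ⟨Finset.mem_univ _, hT _ (Finset.mem_filter.1 hg).2⟩)
      (fun g g' hg hg' h => by
        have h2 := φ.injective (Subtype.ext h)
        exact congrArg Subtype.val h2)
      (by rw [six_card_one, six_card_two])
    have h4 := six_order_three (hord (φ c) (six_order_of_type (Or.inr h1)))
    rcases h4 with h4 | h4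
    · exact h4
    · exfalso
      obtain ⟨g, hg, h5⟩ := hsur _ (Finset.mem_filter.2 ⟨Finset.mem_univ _, h4⟩)
      have h6 := congrArg Subtype.val (φ.injective (Subtype.ext h5))
      have h7 : ((φ c : alternatingGroup (Fin 6)) : Perm (Fin 6)).cycleType = {3} := by
        rw [h6]
        exact (Finset.mem_filter.1 hg).2
      rw [h1] at h7
      exact absurd h7 (by decide)

end Pool.Agent.ALT32
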