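import Mathlib

/-!
# Automorphisms of `A_n`, `n ≠ 6`, map 3-cycles to 3-cycles

For a 3-cycle `c` and every `s` the commutator `c s c⁻¹ s⁻¹` is a product of two 3-cycles, so its
30th power is 1. An element `x` of order 3 which is not a 3-cycle has two cycles of length 3 and
either a fixed point (`n ≥ 7`) or a third cycle; in both cases some even `s` gives a commutator of
order 4.
-/

set_option autoImplicit false

namespace Pool.Agent.ALT32

open Equiv Equiv.Perm

/-- An even permutation moving at most five points. -/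
theorem autThree_small {α : Type*} [Fintype α] [DecidableEq α] (z : Perm α) (hz : sign z = 1)
    (hs : z.support.card ≤ 5) : z ^ 30 = 1 := by
  rw [← orderOf_dvd_iff_pow_eq_one, ← lcm_cycleType, Multiset.lcm_dvd]
  intro b hb
  have h2 := two_le_of_mem_cycleType hb
  obtain ⟨t, ht⟩ := Multiset.exists_cons_of_mem hb
  have hsum : b + t.sum ≤ 5 := by
    have h := sum_cycleType z
    rw [ht, Multiset.sum_cons] at h
    omega
  have hne : b ≠ 4 := by
    rintro rfl
    have ht0 : t = 0 := by
      rw [Multiset.eq_zero_iff_forall_notMem]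
      intro a ha
      have h3 : 2 ≤ a := two_le_of_mem_cycleType (by rw [ht]; exact Multiset.mem_cons_of_mem ha)
      have h4 := Multiset.single_le_sum (fun _ _ => Nat.zero_le _) a ha
      omega
    rw [sign_of_cycleType, ht, ht0] at hz
    exact absurd hz (by decide)
  have h5 : b = 2 ∨ b = 3 ∨ b = 5 := by omega
  rcases h5 with rfl | rfl | rfl <;> decide

theorem autThree_comm {α : Type*} [Fintype α] [DecidableEq α] {c : Perm α} (hc : c.IsThreeCycle)
    (s : Perm α) : (c * s * c⁻¹ * s⁻¹) ^ 30 = 1 := by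
  obtain ⟨d, hd⟩ : ∃ d, d = s * c⁻¹ * s⁻¹ := ⟨_, rfl⟩
  have hcd : c * s * c⁻¹ * s⁻¹ = c * d := by rw [hd]; group
  have hc3 : c ^ 3 = 1 := by
    rw [← hc.orderOf]
    exact pow_orderOf_eq_one c
  have hd3 : d ^ 3 = 1 := by
    rw [hd, conj_pow, inv_pow, hc3]
    group
  have hdc : d.support.card = 3 := by
    rw [hd, card_support_conj, support_inv, hc.card_support]
  rw [hcd]
  by_cases hdis : Disjoint c.support d.support
  · have h1 : Commute c d := (disjoint_iff_disjoint_support.2 hdis).commute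
    rw [h1.mul_pow, show 30 = 3 * 10 from rfl, pow_mul, pow_mul, hc3, hd3, one_pow, one_mul]
  · apply autThree_small
    · have hsd : sign d = 1 := by
        rw [hd, map_mul, map_mul, map_inv, map_inv, hc.sign]
        simp
      rw [map_mul, hc.sign, hsd, one_mul]
    · have h1 := Finset.card_le_card (support_mul_le c d)
      rw [Finset.sup_eq_union] at h1
      have h2 := Finset.card_union_add_card_inter c.support d.support
      have h3 : 0 < (c.support ∩ d.support).card := by
        rw [Finset.card_pos, ← Finset.not_disjoint_iff_nonempty_inter]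
        exact hdis
      rw [hc.card_support, hdc] at h2
      omega

/-- `x` and `y` correspond to each other under `f` -/
def AutThreeP {α β : Type*} (f : α → β) (x : Perm β) (y : Perm α) : Prop := ∀ i, x (f i) = f (y i)

theorem AutThreeP.mul {α β : Type*} {f : α → β} {x x' : Perm β} {y y' : Perm α}
    (h : AutThreeP f x y) (h' : AutThreeP f x' y') : AutThreeP f (x * x') (y * y') := by
  intro i
  rw [Perm.mul_apply, Perm.mul_apply, h' i, h (y' i)]

theorem AutThreeP.inv {α β : Type*} {f : α → β} {x : Perm β} {y : Perm α}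
    (h : AutThreeP f x y) : AutThreeP f x⁻¹ y⁻¹ := by
  intro i
  rw [Perm.inv_eq_iff_eq, h]
  exact congrArg f (y.apply_symm_apply i).symm

theorem AutThreeP.pow {α β : Type*} {f : α → β} {x : Perm β} {y : Perm α}
    (h : AutThreeP f x y) (k : ℕ) : AutThreeP f (x ^ k) (y ^ k) := by
  induction k with
  | zero => intro i; rfl
  | succ k ih =>
    rw [pow_succ, pow_succ]
    exact ih.mul h

theorem autThree_transport {m n : ℕ} (f : Fin m ↪ Fin n) {x : Perm (Fin n)} {y t : Perm (Fin m)}
    (h : AutThreeP f x y) (ht : sign t = 1) (h4 : (y * t * y⁻¹ * t⁻¹) ^ 4 = 1)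
    (h2 : (y * t * y⁻¹ * t⁻¹) ^ 2 ≠ 1) :
    ∃ s : Perm (Fin n), sign s = 1 ∧ (x * s * x⁻¹ * s⁻¹) ^ 30 ≠ 1 := by
  have hs : AutThreeP f (t.viaFintypeEmbedding f) t := fun i =>
    Equiv.Perm.viaFintypeEmbedding_apply_image _ _ _
  refine ⟨t.viaFintypeEmbedding f, by rw [Equiv.Perm.viaFintypeEmbedding_sign, ht], ?_⟩
  intro h30
  apply h2
  have h5 := (((h.mul hs).mul h.inv).mul hs.inv).pow 30
  rw [h30] at h5
  have h6 : (y * t * y⁻¹ * t⁻¹) ^ 30 = 1 := by
    ext1 i
    exact (f.injective (h5 i)).symm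
  rw [show 30 = 4 * 7 + 2 from rfl, pow_add, pow_mul, h4, one_pow, one_mul] at h6
  exact h6

/-- two 3-cycles and a fixed point -/
def autThree_x7 : Perm (Fin 7) where
  toFun := ![1, 2, 0, 4, 5, 3, 6]
  invFun := ![2, 0, 1, 5, 3, 4, 6]
  left_inv := by decide
  right_inv := by decide

/-- three 3-cycles -/
def autThree_x9 : Perm (Fin 9) where
  toFun := ![1, 2, 0, 4, 5, 3, 7, 8, 6]
  invFun := ![2, 0, 1, 5, 3, 4, 8, 6, 7]
  left_inv := by decide
  right_inv := by decide

theorem autThree_get {n m : ℕ} (l : List (Fin n)) (hl : l.Nodup) (hm : l.length = m)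
    {x : Perm (Fin n)} {y : Perm (Fin m)}
    (h : ∀ i : Fin m, x (l.get (i.cast hm.symm)) = l.get ((y i).cast hm.symm)) :
    ∃ f : Fin m ↪ Fin n, AutThreeP f x y := by
  subst hm
  exact ⟨⟨l.get, List.nodup_iff_injective_get.1 hl⟩, h⟩

theorem autThree_nine {α : Type*} {x : Perm α} (hx : ∀ i, x (x (x i)) = i) {a b : α}
    (h1 : b ≠ a) (h2 : b ≠ x a) (h3 : b ≠ x (x a)) :
    (a ≠ b ∧ a ≠ x b ∧ a ≠ x (x b)) ∧ (x a ≠ b ∧ x a ≠ x b ∧ x a ≠ x (x b)) ∧
      (x (x a) ≠ b ∧ x (x a) ≠ x b ∧ x (x a) ≠ x (x b)) := by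
  refine ⟨⟨h1.symm, ?_, ?_⟩, ⟨h2.symm, ?_, ?_⟩, ⟨h3.symm, ?_, ?_⟩⟩
  · intro h; apply h3; rw [h, hx]
  · intro h; apply h2; rw [h, hx]
  · intro h; exact h1 (x.injective h).symm
  · intro h; apply h3; rw [x.injective h, hx]
  · intro h; exact h2 (x.injective h).symm
  · intro h; exact h1 (x.injective (x.injective h)).symm

theorem autThree_orb {α : Type*} {x : Perm α} (hx : ∀ i, x (x (x i)) = i) {a : α}
    (h : x a ≠ a) : a ≠ x a ∧ a ≠ x (x a) ∧ x a ≠ x (x a) := by
  refine ⟨h.symm, ?_, ?_⟩
  · intro h1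
    apply h
    conv_lhs => rw [h1]
    exact hx a
  · intro h1
    exact h (x.injective h1).symm

theorem autThree_exists {n : ℕ} (hn6 : n ≠ 6) (x : Perm (Fin n)) (hx3 : x ^ 3 = 1)
    (hx1 : x ≠ 1) (hx : ¬ x.IsThreeCycle) :
    ∃ s : Perm (Fin n), sign s = 1 ∧ (x * s * x⁻¹ * s⁻¹) ^ 30 ≠ 1 := by
  classical
  have hxx : ∀ i, x (x (x i)) = i := by
    intro i
    have h := congrArg (fun g : Perm (Fin n) => g i) hx3
    simpa [pow_succ] using h
  obtain ⟨a, ha⟩ : ∃ a, x a ≠ a := by
    by_contra hcon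
    push Not at hcon
    exact hx1 (Equiv.ext hcon)
  obtain ⟨o1, o2, o3⟩ := autThree_orb hxx ha
  obtain ⟨b, hb, hb1, hb2, hb3⟩ : ∃ b, x b ≠ b ∧ b ≠ a ∧ b ≠ x a ∧ b ≠ x (x a) := by
    by_contra hcon
    push Not at hcon
    apply hx
    rw [← card_support_eq_three_iff]
    have hsup : x.support = {a, x a, x (x a)} := by
      ext b
      rw [mem_support, Finset.mem_insert, Finset.mem_insert, Finset.mem_singleton]
      constructor
      · intro h
        by_cases h1 : b = a
        · exact Or.inl h1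
        · by_cases h2 : b = x a
          · exact Or.inr (Or.inl h2)
          · exact Or.inr (Or.inr (hcon b h h1 h2))
      · rintro (rfl | rfl | rfl)
        · exact ha
        · exact fun h => ha (x.injective h)
        · exact fun h => ha (x.injective (x.injective h))
    rw [hsup, Finset.card_eq_three]
    exact ⟨a, x a, x (x a), o1, o2, o3, rfl⟩
  obtain ⟨p1, p2, p3⟩ := autThree_orb hxx hb
  obtain ⟨⟨q1, q2, q3⟩, ⟨q4, q5, q6⟩, ⟨q7, q8, q9⟩⟩ := autThree_nine hxx hb1 hb2 hb3
  have hnd6 : [a, x a, x (x a), b, x b, x (x b)].Nodup := by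
    simp [o1, o2, o3, p1, p2, p3, q1, q2, q3, q4, q5, q6, q7, q8, q9]
  have h6 : 6 ≤ n := by
    have := hnd6.length_le_card
    simpa using this
  obtain ⟨e, he⟩ : ∃ e : Fin n, e ∉ [a, x a, x (x a), b, x b, x (x b)] := by
    by_contra hcon
    push Not at hcon
    have h7 : (Finset.univ : Finset (Fin n)) ⊆ [a, x a, x (x a), b, x b, x (x b)].toFinset :=
      fun i _ => List.mem_toFinset.2 (hcon i)
    have h8 := (Finset.card_le_card h7).trans (List.toFinset_card_le _)
    rw [Finset.card_univ, Fintype.card_fin] at h8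
    simp at h8
    omega
  simp only [List.mem_cons, List.not_mem_nil, or_false, not_or] at he
  obtain ⟨e1, e2, e3, e4, e5, e6⟩ := he
  by_cases hxe : x e = e
  · -- a fixed point
    obtain ⟨f, hf⟩ := autThree_get (m := 7) (x := x) (y := autThree_x7)
      [a, x a, x (x a), b, x b, x (x b), e]
      (by simp [o1, o2, o3, p1, p2, p3, q1, q2, q3, q4, q5, q6, q7, q8, q9, Ne.symm e1, Ne.symm e2,
        Ne.symm e3, Ne.symm e4, Ne.symm e5, Ne.symm e6]) rfl
      (by
        intro i
        fin_cases i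
        · rfl
        · rfl
        · exact hxx a
        · rfl
        · rfl
        · exact hxx b
        · exact hxe)
    refine autThree_transport f hf (t := swap 0 3 * swap 1 6) ?_ ?_ ?_
    · rw [map_mul, sign_swap (by decide), sign_swap (by decide)]
      rfl
    · decide +kernel
    · decide +kernel
  · -- a third cycle
    obtain ⟨r1, r2, r3⟩ := autThree_orb hxx hxe
    obtain ⟨⟨u1, u2, u3⟩, ⟨u4, u5, u6⟩, ⟨u7, u8, u9⟩⟩ := autThree_nine hxx e1 e2 e3
    obtain ⟨⟨v1, v2, v3⟩, ⟨v4, v5, v6⟩, ⟨v7, v8, v9⟩⟩ := autThree_nine hxx e4 e5 e6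
    obtain ⟨f, hf⟩ := autThree_get (m := 9) (x := x) (y := autThree_x9)
      [a, x a, x (x a), b, x b, x (x b), e, x e, x (x e)]
      (by simp [o1, o2, o3, p1, p2, p3, q1, q2, q3, q4, q5, q6, q7, q8, q9, r1, r2, r3,
        u1, u2, u3, u4, u5, u6, u7, u8, u9, v1, v2, v3, v4, v5, v6, v7, v8, v9]) rfl
      (by
        intro i
        fin_cases i
        · rfl
        · rfl
        · exact hxx a
        · rfl
        · rfl
        · exact hxx b
        · rfl
        · rfl
        · exact hxx e)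
    refine autThree_transport f hf (t := swap 0 1 * swap 1 3 * swap 3 6 * swap 6 4) ?_ ?_ ?_
    · rw [map_mul, map_mul, map_mul, sign_swap (by decide), sign_swap (by decide),
        sign_swap (by decide), sign_swap (by decide)]
      rfl
    · decide +kernel
    · decide +kernel

theorem aut_three {n : ℕ} (hn : 5 ≤ n) (hn6 : n ≠ 6)
    (φ : alternatingGroup (Fin n) ≃* alternatingGroup (Fin n)) (c : alternatingGroup (Fin n))
    (hc : (c : Perm (Fin n)).IsThreeCycle) :
    ((φ c : alternatingGroup (Fin n)) : Perm (Fin n)).IsThreeCycle := by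
  by_contra hcon
  have hc3 : c ^ 3 = 1 := by
    apply Subtype.ext
    show (c : Perm (Fin n)) ^ 3 = 1
    rw [← hc.orderOf]
    exact pow_orderOf_eq_one _
  have hc1 : c ≠ 1 := by
    intro h
    have h1 := hc.card_support
    rw [h] at h1
    simp at h1
  obtain ⟨s, hs, h30⟩ := autThree_exists hn6 ((φ c : alternatingGroup (Fin n)) : Perm (Fin n))
    (by
      have h := congrArg φ hc3
      rw [map_pow, map_one] at h
      exact congrArg Subtype.val h)
    (by
      intro h
      apply hc1
      apply φ.injective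
      rw [map_one]
      exact Subtype.ext h) hcon
  apply h30
  obtain ⟨t, ht⟩ := φ.surjective ⟨s, mem_alternatingGroup.2 hs⟩
  have h1 : (c * t * c⁻¹ * t⁻¹) ^ 30 = 1 := by
    apply Subtype.ext
    exact autThree_comm hc (t : Perm (Fin n))
  have h2 := congrArg φ h1
  rw [map_pow, map_mul, map_mul, map_mul, map_inv, map_inv, ht, map_one] at h2
  exact congrArg Subtype.val h2

end Pool.Agent.ALT32
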