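import Mathlib

set_option autoImplicit false

/-!
# Permutations acting on every cycle of `y` as a rotation or a reflection (MP_bb27f7_al)
-/

namespace Pool.Agent.ALT32

open Equiv Equiv.Perm

variable {α : Type*}

theorem dih_ais (e : Perm α) (s : α) : e (e⁻¹ s) = s := e.apply_symm_apply s

theorem dih_ias (e : Perm α) (s : α) : e⁻¹ (e s) = s := e.symm_apply_apply s

theorem dih_zadd (y : Perm α) (i j : ℤ) (s : α) : (y ^ i) ((y ^ j) s) = (y ^ (i + j)) s := by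
  rw [zpow_add, Perm.mul_apply]

/-- `π` turns the powers of `y` at `s` into the `ε`-th powers -/
def DihP (y : Perm α) (π : Perm α) (s : α) (ε : ℤ) : Prop :=
  ∀ k : ℤ, π ((y ^ k) s) = (y ^ (ε * k)) (π s)

theorem dihP_move {y π : Perm α} {s : α} {ε : ℤ} (h : DihP y π s ε) (j : ℤ) :
    DihP y π ((y ^ j) s) ε := by
  intro k
  rw [dih_zadd, h (k + j), h j, dih_zadd]
  congr 2
  ring

theorem dihP_same {y π : Perm α} {s s' : α} {ε : ℤ} (h : DihP y π s ε) (hs : y.SameCycle s s') :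
    DihP y π s' ε := by
  obtain ⟨j, rfl⟩ := hs
  exact dihP_move h j

theorem dihP_mul {y π ρ : Perm α} {s : α} {ε ε' : ℤ} (h : DihP y ρ s ε)
    (h' : DihP y π (ρ s) ε') : DihP y (π * ρ) s (ε' * ε) := by
  intro k
  rw [Perm.mul_apply, Perm.mul_apply, h k, h' (ε * k), mul_assoc]

theorem dihP_inv {y π : Perm α} {s : α} {ε : ℤ} (hε : ε * ε = 1) (h : DihP y π (π⁻¹ s) ε) :
    DihP y π⁻¹ s ε := by
  intro k
  have h1 := h (ε * k)
  rw [← mul_assoc, hε, one_mul, dih_ais] at h1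
  rw [← h1, dih_ias]

theorem dihP_or {y π : Perm α} {s : α} :
    ((∀ k : ℤ, π ((y ^ k) s) = (y ^ k) (π s)) ∨ (∀ k : ℤ, π ((y ^ k) s) = (y ^ (-k)) (π s))) ↔
      ∃ ε : ℤ, ε * ε = 1 ∧ DihP y π s ε := by
  constructor
  · rintro (h | h)
    · exact ⟨1, by norm_num, fun k => by rw [one_mul]; exact h k⟩
    · exact ⟨-1, by norm_num, fun k => by rw [neg_one_mul]; exact h k⟩
  · rintro ⟨ε, hε, h⟩
    rcases mul_self_eq_one_iff.1 hε with rfl | rfl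
    · left
      intro k
      have := h k
      rwa [one_mul] at this
    · right
      intro k
      have := h k
      rwa [neg_one_mul] at this

/-- The permutations which map every cycle of `y` to itself and act on it as a rotation or as a
reflection. -/
def Dih (y : Perm α) : Subgroup (Perm α) where
  carrier := {π | ∀ s, y.SameCycle s (π s) ∧
    ((∀ k : ℤ, π ((y ^ k) s) = (y ^ k) (π s)) ∨ (∀ k : ℤ, π ((y ^ k) s) = (y ^ (-k)) (π s)))}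
  mul_mem' := by
    intro π ρ hπ hρ s
    refine ⟨(hρ s).1.trans (hπ (ρ s)).1, ?_⟩
    obtain ⟨ε, hε, h⟩ := dihP_or.1 (hρ s).2
    obtain ⟨ε', hε', h'⟩ := dihP_or.1 (hπ (ρ s)).2
    exact dihP_or.2 ⟨ε' * ε, by linear_combination ε' * ε' * hε + hε', dihP_mul h h'⟩
  one_mem' := by
    intro s
    exact ⟨SameCycle.refl _ _, Or.inl fun k => rfl⟩
  inv_mem' := by
    intro π hπ s
    have h1 := hπ (π⁻¹ s)
    rw [dih_ais] at h1
    refine ⟨h1.1.symm, ?_⟩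
    obtain ⟨ε, hε, h⟩ := dihP_or.1 (hπ (π⁻¹ s)).2
    exact dihP_or.2 ⟨ε, hε, dihP_inv hε h⟩

theorem mem_dih {y π : Perm α} : π ∈ Dih y ↔ ∀ s, y.SameCycle s (π s) ∧
    ∃ ε : ℤ, ε * ε = 1 ∧ DihP y π s ε :=
  forall_congr' fun _ => and_congr Iff.rfl dihP_or

/-- rotations on every cycle -/
def DihRot (y : Perm α) : Subgroup (Perm α) where
  carrier := {π | ∀ s, y.SameCycle s (π s) ∧ DihP y π s 1}
  mul_mem' := by
    intro π ρ hπ hρ s
    exact ⟨(hρ s).1.trans (hπ (ρ s)).1, dihP_mul (hρ s).2 (hπ (ρ s)).2⟩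
  one_mem' := by
    intro s
    exact ⟨SameCycle.refl _ _, fun k => by rw [one_mul]; rfl⟩
  inv_mem' := by
    intro π hπ s
    have h1 := hπ (π⁻¹ s)
    have h2 := h1.1
    rw [dih_ais] at h2
    exact ⟨h2.symm, dihP_inv (by norm_num) h1.2⟩

theorem dihRot_comm {y π ρ : Perm α} (hπ : π ∈ DihRot y) (hρ : ρ ∈ DihRot y) : π * ρ = ρ * π := by
  ext s
  rw [Perm.mul_apply, Perm.mul_apply]
  obtain ⟨i, hi⟩ := (hπ s).1
  obtain ⟨j, hj⟩ := (hρ s).1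
  have h1 := (hπ s).2 j
  have h2 := (hρ s).2 i
  rw [← hj, ← hi, h1, h2, ← hi, ← hj, dih_zadd, dih_zadd]
  congr 2
  ring

theorem dih_commutator {y π ρ : Perm α} (hπ : π ∈ Dih y) (hρ : ρ ∈ Dih y) :
    π * ρ * π⁻¹ * ρ⁻¹ ∈ DihRot y := by
  have hπ' := (Dih y).inv_mem hπ
  have hρ' := (Dih y).inv_mem hρ
  intro s
  have c1 : y.SameCycle s (ρ⁻¹ s) := (hρ' s).1
  have c2 : y.SameCycle s (π⁻¹ (ρ⁻¹ s)) := c1.trans (hπ' _).1
  have c3 : y.SameCycle s (ρ (π⁻¹ (ρ⁻¹ s))) := c2.trans (hρ _).1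
  have c4 : y.SameCycle s (π (ρ (π⁻¹ (ρ⁻¹ s)))) := c3.trans (hπ _).1
  refine ⟨c4, ?_⟩
  obtain ⟨ε, hε, h⟩ := (mem_dih.1 hπ s).2
  obtain ⟨δ, hδ, k⟩ := (mem_dih.1 hρ s).2
  have k1 : DihP y ρ⁻¹ s δ := dihP_inv hδ (dihP_same k c1)
  have h2 : DihP y π⁻¹ (ρ⁻¹ s) ε := dihP_inv hε (dihP_same h c2)
  have k3 : DihP y ρ (π⁻¹ (ρ⁻¹ s)) δ := dihP_same k c2
  have h4 : DihP y π (ρ (π⁻¹ (ρ⁻¹ s))) ε := dihP_same h c3
  have e1 : DihP y (π⁻¹ * ρ⁻¹) s (ε * δ) := dihP_mul k1 h2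
  have e2 : DihP y (ρ * (π⁻¹ * ρ⁻¹)) s (δ * (ε * δ)) := dihP_mul e1 k3
  have e3 : DihP y (π * (ρ * (π⁻¹ * ρ⁻¹))) s (ε * (δ * (ε * δ))) := dihP_mul e2 h4
  have e4 : ε * (δ * (ε * δ)) = 1 := by linear_combination δ * δ * hε + hδ
  rw [e4] at e3
  have e5 : π * ρ * π⁻¹ * ρ⁻¹ = π * (ρ * (π⁻¹ * ρ⁻¹)) := by group
  rw [e5]
  exact e3

theorem dih_solvable (y : Perm α) : Group.IsSolvable (Dih y) := by
  have h1 : derivedSeries (Dih y) 1 ≤ (DihRot y).subgroupOf (Dih y) := by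
    rw [derivedSeries_succ, derivedSeries_zero, Subgroup.commutator_le]
    intro a _ b _
    rw [Subgroup.mem_subgroupOf]
    exact dih_commutator a.2 b.2
  have h2 : derivedSeries (Dih y) 2 = ⊥ := by
    rw [derivedSeries_succ, eq_bot_iff, Subgroup.commutator_le]
    intro a ha b hb
    have ha' := h1 ha
    have hb' := h1 hb
    rw [Subgroup.mem_subgroupOf] at ha' hb'
    rw [Subgroup.mem_bot, commutatorElement_eq_one_iff_mul_comm]
    exact Subtype.ext (dihRot_comm ha' hb')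
  exact ⟨⟨2, h2⟩⟩

theorem dih_conj {x y : Perm α} (hxy : Commute x y) {h : Perm α} (hh : h ∈ Dih y) :
    x * h * x⁻¹ ∈ Dih y := by
  have hc : ∀ (k : ℤ) (s : α), x ((y ^ k) s) = (y ^ k) (x s) := by
    intro k s
    rw [← Perm.mul_apply, ← Perm.mul_apply, (hxy.zpow_right k).eq]
  have hc' : ∀ (k : ℤ) (s : α), x⁻¹ ((y ^ k) s) = (y ^ k) (x⁻¹ s) := by
    intro k s
    rw [Perm.inv_eq_iff_eq, hc, dih_ais]
  rw [mem_dih] at hh ⊢
  intro s
  obtain ⟨⟨i, hi⟩, ε, hε, hP⟩ := hh (x⁻¹ s)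
  refine ⟨⟨i, ?_⟩, ε, hε, ?_⟩
  · rw [Perm.mul_apply, Perm.mul_apply, ← hi, hc, dih_ais]
  · intro k
    rw [Perm.mul_apply, Perm.mul_apply, Perm.mul_apply, Perm.mul_apply, hc', hP k, hc]

end Pool.Agent.ALT32
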