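import Mathlib
import Pool.Agent.ALT32.Dih

set_option autoImplicit false

/-!
# The reflection of one cycle (MP_bb27f7_al)
-/

namespace Pool.Agent.ALT32

open Equiv Equiv.Perm

variable {α : Type*}

open Classical in
/-- reflection of the cycle of `a` -/
noncomputable def reflF (y : Perm α) (a s : α) : α :=
  if h : y.SameCycle a s then (y ^ (-(Classical.choose h))) a else s

theorem reflF_zpow (y : Perm α) (a : α) (k : ℤ) : reflF y a ((y ^ k) a) = (y ^ (-k)) a := by
  have h : y.SameCycle a ((y ^ k) a) := ⟨k, rfl⟩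
  unfold reflF
  rw [dif_pos h]
  have h1 := Classical.choose_spec h
  generalize Classical.choose h = j at h1
  have h2 : (y ^ (-(k + j))) ((y ^ j) a) = (y ^ (-(k + j))) ((y ^ k) a) := by rw [h1]
  rw [dih_zadd, dih_zadd] at h2
  have e1 : -(k + j) + j = -k := by ring
  have e2 : -(k + j) + k = -j := by ring
  rw [e1, e2] at h2
  exact h2.symm

theorem reflF_out (y : Perm α) (a s : α) (h : ¬ y.SameCycle a s) : reflF y a s = s := by
  unfold reflF
  rw [dif_neg h]

theorem reflF_invol (y : Perm α) (a : α) : Function.Involutive (reflF y a) := by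
  intro s
  by_cases h : y.SameCycle a s
  · obtain ⟨k, rfl⟩ := h
    rw [reflF_zpow, reflF_zpow, neg_neg]
  · rw [reflF_out y a s h, reflF_out y a s h]

/-- The reflection of the cycle of `y` through `a`, if this cycle has at least 3 elements. -/
theorem refl_exists [Fintype α] [DecidableEq α] (y : Perm α) (a : α) (ha : y (y a) ≠ a) :
    ∃ t : Perm α, t * t = 1 ∧ t ≠ 1 ∧ t ∈ Dih y ∧ (∀ s, ¬ y.SameCycle a s → t s = s) ∧
      (∀ s, y.SameCycle a s → t (y s) = y⁻¹ (t s)) := by
  obtain ⟨t, ht⟩ : ∃ t : Perm α, ∀ s, t s = reflF y a s :=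
    ⟨Function.Involutive.toPerm (reflF y a) (reflF_invol y a), fun s => rfl⟩
  have hk : ∀ k : ℤ, t ((y ^ k) a) = (y ^ (-k)) a := fun k => by
    rw [ht, reflF_zpow]
  refine ⟨t, ?_, ?_, ?_, ?_, ?_⟩
  · ext s
    rw [Perm.mul_apply, ht, ht, reflF_invol y a s]
    rfl
  · intro h
    have h1 := hk 1
    rw [h, zpow_one, zpow_neg, zpow_one, Perm.one_apply] at h1
    apply ha
    rw [h1, dih_ais]
  · rw [mem_dih]
    intro s
    by_cases h : y.SameCycle a s
    · obtain ⟨k, rfl⟩ := h
      constructor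
      · rw [hk]
        exact ⟨-k - k, by rw [dih_zadd]; congr 2; ring⟩
      · refine ⟨-1, by norm_num, fun j => ?_⟩
        rw [dih_zadd, hk, hk, dih_zadd]
        congr 2
        ring
    · rw [ht, reflF_out y a s h]
      refine ⟨SameCycle.refl _ _, 1, by norm_num, fun j => ?_⟩
      have h' : ¬ y.SameCycle a ((y ^ j) s) := fun h2 => h (sameCycle_zpow_right.1 h2)
      rw [ht, ht, reflF_out y a s h, reflF_out y a _ h', one_mul]
  · intro s hs
    rw [ht, reflF_out y a s hs]
  · rintro s ⟨k, rfl⟩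
    have h1 : y ((y ^ k) a) = (y ^ (1 + k)) a := by
      rw [zpow_add, zpow_one, Perm.mul_apply]
    have h2 : y⁻¹ ((y ^ (-k)) a) = (y ^ (-1 + -k)) a := by
      rw [zpow_add, zpow_neg_one, Perm.mul_apply]
    rw [h1, hk, hk, h2]
    congr 2
    ring

end Pool.Agent.ALT32
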