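import Pool.Agent.ALT32.Solv
import Pool.Agent.ALT32.Refl

/-!
# Even permutations are joined to an even involution, or are exceptional prime cycles
-/

set_option autoImplicit false

namespace Pool.Agent.ALT32

open Equiv Equiv.Perm

/-- An element of `Dih y` generates with a permutation commuting with `y` a solvable group. -/
theorem solv_dih {α : Type*} {x y t : Perm α} (hxy : Commute x y) (ht : t ∈ Dih y) :
    Group.IsSolvable (Subgroup.closure {x, t}) := by
  rw [Set.pair_comm]
  refine solv_closure (Dih y) (dih_solvable y) ht (fun h hh => dih_conj hxy hh) (fun h hh => ?_)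
  have := dih_conj (x := x⁻¹) (y := y) hxy.inv_left hh
  simpa using this

/-- A permutation inverting `x` generates with `x` a solvable group. -/
theorem solv_inv {G : Type*} [Group G] {x t : G} (h : t * x * t⁻¹ = x⁻¹) :
    Group.IsSolvable (Subgroup.closure {x, t}) := by
  have h2 : ∀ k : ℤ, t * x ^ k * t⁻¹ = x ^ (-k) := by
    intro k
    rw [← conj_zpow, h, inv_zpow, zpow_neg]
  have h3 : ∀ k : ℤ, t⁻¹ * x ^ k * t = x ^ (-k) := by
    intro k
    have := h2 (-k)
    rw [neg_neg] at this
    rw [← this]
    group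
  refine solv_closure (Subgroup.zpowers x) (solv_zpowers x) (Subgroup.mem_zpowers x) ?_ ?_
  · rintro _ ⟨k, rfl⟩
    exact ⟨-k, (h2 k).symm⟩
  · rintro _ ⟨k, rfl⟩
    exact ⟨-k, (h3 k).symm⟩

/-- Two nontrivial cycles. -/
theorem two_cycles {n : ℕ} {x y : Perm (Fin n)} (hxy : Commute x y) {a b : Fin n}
    (ha : y (y a) ≠ a) (hb : y (y b) ≠ b) (hab : ¬ y.SameCycle a b) :
    ∃ t : Perm (Fin n), sign t = 1 ∧ t ≠ 1 ∧ t * t = 1 ∧
      Group.IsSolvable (Subgroup.closure {x, t}) := by
  obtain ⟨t, t1, t2, t3, t4, -⟩ := refl_exists y a ha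
  obtain ⟨u, u1, u2, u3, u4, -⟩ := refl_exists y b hb
  by_cases h1 : sign t = 1
  · exact ⟨t, h1, t2, t1, solv_dih hxy t3⟩
  by_cases h2 : sign u = 1
  · exact ⟨u, h2, u2, u1, solv_dih hxy u3⟩
  have hd : Disjoint t u := by
    intro s
    by_cases hs : y.SameCycle a s
    · exact Or.inr (u4 s (fun h => hab (hs.trans h.symm)))
    · exact Or.inl (t4 s hs)
  have hc : Commute t u := hd.commute
  refine ⟨t * u, ?_, ?_, ?_, solv_dih hxy ((Dih y).mul_mem t3 u3)⟩
  · rw [map_mul]
    rcases Int.units_eq_one_or (sign t) with h | h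
    · exact absurd h h1
    rcases Int.units_eq_one_or (sign u) with h' | h'
    · exact absurd h' h2
    rw [h, h']
    decide
  · intro h
    apply t2
    have h3 : t = u := by
      have : t * u * u = u := by rw [h, one_mul]
      rwa [mul_assoc, u1, mul_one] at this
    ext s
    have := hd s
    rw [← h3] at this
    rcases this with h | h <;> simp [h]
  · calc t * u * (t * u) = t * (u * t) * u := by group
      _ = t * (t * u) * u := by rw [hc.eq]
      _ = (t * t) * (u * u) := by group
      _ = 1 := by rw [t1, u1, one_mul]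

/-- Permutations of odd order have no 2-cycles. -/
theorem odd_no_two {n : ℕ} {y : Perm (Fin n)} {m : ℕ} (hm : y ^ (2 * m + 1) = 1) {a : Fin n}
    (ha : y a ≠ a) : y (y a) ≠ a := by
  intro h
  apply ha
  have h2 : (y ^ 2) a = a := by rw [pow_two]; exact h
  have h3 : (y ^ (2 * m)) a = a := by
    rw [pow_mul]
    exact Perm.pow_apply_eq_self_of_apply_eq_self h2 m
  have h4 : (y ^ (2 * m + 1)) a = y a := by
    rw [pow_succ', Perm.mul_apply, h3]
  rw [← h4, hm]
  rfl

/-- The classification used for the alternating groups. -/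
theorem classify {n : ℕ} (_hn : 5 ≤ n) (x : Perm (Fin n)) (hx : x ≠ 1) (hs : sign x = 1) :
    (∃ t : Perm (Fin n), sign t = 1 ∧ t ≠ 1 ∧ t * t = 1 ∧
      Group.IsSolvable (Subgroup.closure {x, t})) ∨
    ∃ p : ℕ, p.Prime ∧ p % 4 = 3 ∧ (n = p ∨ n = p + 1) ∧ ∃ e : ZMod p → Fin n,
      Function.Injective e ∧ ∀ i, x (e i) = e (i + 1) := by
  classical
  rcases Nat.even_or_odd' (orderOf x) with ⟨m, hm | hm⟩
  · -- even order
    left
    have hpos : 0 < orderOf x := orderOf_pos x
    have hm0 : 0 < m := by omega
    refine ⟨x ^ m, by rw [map_pow, hs, one_pow], ?_, ?_, ?_⟩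
    · intro h
      have := Nat.le_of_dvd hm0 (orderOf_dvd_of_pow_eq_one h)
      omega
    · rw [← pow_add, ← two_mul, ← hm, pow_orderOf_eq_one]
    · refine solv_closure (Subgroup.zpowers x) (solv_zpowers x) (Subgroup.mem_zpowers x) ?_ ?_
      · rintro _ ⟨k, rfl⟩
        exact ⟨k, by simp only []; rw [← zpow_natCast]; group⟩
      · rintro _ ⟨k, rfl⟩
        exact ⟨k, by simp only []; rw [← zpow_natCast]; group⟩
  by_cases hL : (∃ t : Perm (Fin n), sign t = 1 ∧ t ≠ 1 ∧ t * t = 1 ∧
      Group.IsSolvable (Subgroup.closure {x, t}))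
  · exact Or.inl hL
  right
  -- `x` is one cycle
  have hxo : x ^ (2 * m + 1) = 1 := by rw [← hm, pow_orderOf_eq_one]
  obtain ⟨a, ha⟩ : ∃ a, x a ≠ a := by
    by_contra hcon
    push Not at hcon
    exact hx (by ext s; simp [hcon s])
  have key : ∀ (k : ℕ) (b c : Fin n), (x ^ k) b ≠ b → (x ^ k) c ≠ c → (x ^ k).SameCycle b c := by
    intro k b c hb hc
    by_contra hcon
    have hyo : (x ^ k) ^ (2 * m + 1) = 1 := by rw [← pow_mul, mul_comm, pow_mul, hxo, one_pow]
    exact hL (two_cycles ((Commute.refl x).pow_right k) (odd_no_two hyo hb) (odd_no_two hyo hc)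
      hcon)
  have hcyc : x.IsCycle := by
    refine ⟨a, ha, fun b hb => ?_⟩
    have := key 1 a b (by simpa using ha) (by simpa using hb)
    simpa using this
  have hone : ∀ k : ℕ, (x ^ k) a = a → orderOf x ∣ k := by
    intro k hk
    exact orderOf_dvd_of_pow_eq_one (hcyc.pow_eq_one_iff.2 ⟨a, ha, hk⟩)
  -- prime order
  have hne1 : orderOf x ≠ 1 := fun h => hx (orderOf_eq_one_iff.1 h)
  have hprime : (orderOf x).Prime := by
    by_contra hnp
    have hq := Nat.minFac_prime hne1
    set q := (orderOf x).minFac with hqdef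
    have hqd : q ∣ orderOf x := Nat.minFac_dvd _
    have hqlt : q < orderOf x := by
      rcases lt_or_eq_of_le (Nat.le_of_dvd (orderOf_pos x) hqd) with h | h
      · exact h
      · exact absurd (h ▸ hq) hnp
    have h1 : (x ^ q) a ≠ a := fun h => absurd (Nat.le_of_dvd hq.pos (hone q h)) (by omega)
    have h2 : (x ^ q) (x a) ≠ x a := by
      intro h
      apply h1
      apply x.injective
      rw [← h, ← Perm.mul_apply, ← Perm.mul_apply, ← pow_succ, ← pow_succ']
    obtain ⟨k, hk⟩ := (key q a (x a) h1 h2).exists_nat_pow_eq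
    rw [← pow_mul] at hk
    have hk0 : q * k ≠ 0 := by
      intro h
      rw [h] at hk
      exact ha hk.symm
    have h3 : (x ^ (q * k - 1)) a = a := by
      apply x.injective
      rw [← hk, ← Perm.mul_apply, ← pow_succ']
      congr 2
      omega
    have h4 : q ∣ q * k - 1 := hqd.trans (hone _ h3)
    have h5 : q ∣ q * k - (q * k - 1) := Nat.dvd_sub (dvd_mul_right q k) h4
    have h6 : q * k - (q * k - 1) = 1 := by omega
    rw [h6] at h5
    have := Nat.le_of_dvd one_pos h5
    have := hq.two_le
    omega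
  obtain ⟨p, hp⟩ : ∃ p, p = orderOf x := ⟨_, rfl⟩
  rw [← hp] at hprime hone hm
  have : Fact p.Prime := ⟨hprime⟩
  have hp2 : 2 ≤ p := hprime.two_le
  have hmod : ∀ k : ℕ, x ^ (k % p) = x ^ k := by
    intro k
    rw [hp, pow_mod_orderOf]
  set e : ZMod p → Fin n := fun i => (x ^ i.val) a with he
  have hxe : ∀ i, x (e i) = e (i + 1) := by
    intro i
    simp only [he]
    rw [← Perm.mul_apply, ← pow_succ', ZMod.val_add, ZMod.val_one, hmod]
  have hinj : Function.Injective e := by
    have aux : ∀ i j : ZMod p, i.val ≤ j.val → e i = e j → i = j := by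
      intro i j hij h
      simp only [he] at h
      have h2 : (x ^ (j.val - i.val)) a = a := by
        have h3 : (x ^ j.val) = x ^ i.val * x ^ (j.val - i.val) := by
          rw [← pow_add]; congr 1; omega
        rw [h3, Perm.mul_apply] at h
        exact ((x ^ i.val).injective h).symm
      have h4 := hone _ h2
      have h5 := ZMod.val_lt j
      have h6 : j.val - i.val = 0 := Nat.eq_zero_of_dvd_of_lt h4 (by omega)
      exact ZMod.val_injective p (by omega)
    intro i j h
    rcases le_total i.val j.val with hij | hij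
    · exact aux i j hij h
    · exact (aux j i hij h.symm).symm
  have hfix : ∀ s, s ∉ Set.range e → x s = s := by
    intro s hs'
    by_contra hcon
    obtain ⟨k, hk⟩ := hcyc.exists_pow_eq ha hcon
    apply hs'
    refine ⟨(k : ZMod p), ?_⟩
    simp only [he]
    rw [ZMod.val_natCast, hmod]
    exact hk
  have hcard : p ≤ n := by
    have := Fintype.card_le_of_injective e hinj
    simpa [ZMod.card] using this
  refine ⟨p, hprime, ?_, ?_, e, hinj, hxe⟩
  · -- `p % 4 = 3`
    by_contra hp4
    apply hL
    obtain ⟨i, hi⟩ : IsSquare (-1 : ZMod p) := ZMod.exists_sq_eq_neg_one_iff.2 hp4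
    have hi0 : i ≠ 0 := by
      rintro rfl
      simp at hi
    set r : Perm (Fin n) := (Equiv.mulLeft₀ i hi0).viaEmbedding ⟨e, hinj⟩ with hr
    have r1 : ∀ s, r (e s) = e (i * s) := by
      intro s
      have := Equiv.Perm.viaEmbedding_apply (Equiv.mulLeft₀ i hi0) ⟨e, hinj⟩ s
      simpa using this
    have r2 : ∀ s, s ∉ Set.range e → r s = s := by
      intro s hs'
      exact Equiv.Perm.viaEmbedding_apply_of_notMem _ _ _ (by simpa using hs')
    have t1 : ∀ s, (r * r) (e s) = e (-s) := by
      intro s
      rw [Perm.mul_apply, r1, r1, ← mul_assoc, ← hi]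
      congr 1
      ring
    have t2 : ∀ s, s ∉ Set.range e → (r * r) s = s := by
      intro s hs'
      rw [Perm.mul_apply, r2 s hs', r2 s hs']
    have hxi : ∀ s, x⁻¹ (e s) = e (s - 1) := by
      intro s
      rw [Perm.inv_eq_iff_eq, hxe, sub_add_cancel]
    refine ⟨r * r, ?_, ?_, ?_, ?_⟩
    · rw [map_mul]
      exact Int.units_mul_self _
    · intro h
      have h1 := t1 1
      rw [h, Perm.one_apply] at h1
      have h2 := hinj h1
      have h3 : (2 : ZMod p) = 0 := by linear_combination h2
      have h4 : ((2 : ℕ) : ZMod p) = 0 := by exact_mod_cast h3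
      rw [ZMod.natCast_eq_zero_iff] at h4
      have := Nat.le_of_dvd (by norm_num) h4
      omega
    · ext s
      by_cases hs' : s ∈ Set.range e
      · obtain ⟨j, rfl⟩ := hs'
        rw [Perm.mul_apply, t1, t1, neg_neg, Perm.one_apply]
      · rw [Perm.mul_apply, t2 s hs', t2 s hs', Perm.one_apply]
    · apply solv_inv
      rw [mul_inv_eq_iff_eq_mul]
      ext s
      by_cases hs' : s ∈ Set.range e
      · obtain ⟨j, rfl⟩ := hs'
        have h1 : (r * r) (x (e j)) = x⁻¹ ((r * r) (e j)) := by
          rw [hxe, t1, t1, hxi]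
          congr 1
          ring
        exact congrArg Fin.val h1
      · have h1 := hfix s hs'
        have h2 : x⁻¹ s = s := by rw [Perm.inv_eq_iff_eq, h1]
        have h3 : (r * r) (x s) = x⁻¹ ((r * r) s) := by rw [h1, t2 s hs', h2]
        exact congrArg Fin.val h3
  · -- `n ≤ p + 1`
    by_contra hcon
    push Not at hcon
    have hn2 : p + 2 ≤ n := by omega
    apply hL
    -- two fixed points
    have hcard2 : (Finset.univ.image e)ᶜ.card = n - p := by
      rw [Finset.card_compl, Finset.card_image_of_injective _ hinj, Finset.card_univ, ZMod.card,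
        Fintype.card_fin]
    obtain ⟨u, hu, v, hv, huv⟩ := Finset.one_lt_card.1 (by rw [hcard2]; omega :
      1 < (Finset.univ.image e)ᶜ.card)
    have hu' : u ∉ Set.range e := by simpa using hu
    have hv' : v ∉ Set.range e := by simpa using hv
    obtain ⟨t, t1, t2, t3, t4, t5⟩ := refl_exists x a (odd_no_two hxo ha)
    have hnc : ∀ s, s ∉ Set.range e → ¬ x.SameCycle a s := by
      intro s hs' h
      have := hfix s hs'
      exact ha (h.apply_eq_self_iff.2 this)
    have t6 : t * x = x⁻¹ * t := by
      ext s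
      by_cases hs' : s ∈ Set.range e
      · rw [Perm.mul_apply, Perm.mul_apply, t5 s]
        obtain ⟨j, rfl⟩ := hs'
        exact ⟨(j.val : ℤ), by simp only [he, zpow_natCast]⟩
      · have h1 := hfix s hs'
        have h2 : x⁻¹ s = s := by rw [Perm.inv_eq_iff_eq, h1]
        rw [Perm.mul_apply, Perm.mul_apply, h1, t4 s (hnc s hs'), h2]
    by_cases ht : sign t = 1
    · exact ⟨t, ht, t2, t1, solv_dih (Commute.refl x) t3⟩
    have hfu : t u = u := t4 u (hnc u hu')
    have hfv : t v = v := t4 v (hnc v hv')
    have hsw : ∀ g : Perm (Fin n), g u = u → g v = v → g * swap u v = swap u v * g := by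
      intro g h1 h2
      rw [Equiv.mul_swap_eq_swap_mul, h1, h2]
    refine ⟨t * swap u v, ?_, ?_, ?_, ?_⟩
    · rw [map_mul, sign_swap huv]
      rcases Int.units_eq_one_or (sign t) with h | h
      · exact absurd h ht
      rw [h]
      decide
    · intro h
      have h1 : (t * swap u v) u = u := by rw [h]; rfl
      rw [Perm.mul_apply, swap_apply_left, hfv] at h1
      exact huv h1.symm
    · calc t * swap u v * (t * swap u v) = t * (swap u v * t) * swap u v := by group
        _ = t * (t * swap u v) * swap u v := by rw [hsw t hfu hfv]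
        _ = (t * t) * (swap u v * swap u v) := by group
        _ = 1 := by rw [t1, swap_mul_self, one_mul]
    · apply solv_inv
      rw [mul_inv_eq_iff_eq_mul]
      calc t * swap u v * x = t * (swap u v * x) := by group
        _ = t * (x * swap u v) := by rw [hsw x (hfix u hu') (hfix v hv')]
        _ = (t * x) * swap u v := by group
        _ = (x⁻¹ * t) * swap u v := by rw [t6]
        _ = x⁻¹ * (t * swap u v) := by group

end Pool.Agent.ALT32
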