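import Mathlib

/-!
# Groups between the alternating group and its automorphism group (helper file for MP_bb27f7_al)

Let every automorphism of `A_n` be the conjugation by a permutation. If `N` is a normal subgroup of
`G` with trivial centralizer and `N` is isomorphic to `A_n`, then `G = N` or `G` is isomorphic to
`S_n`: the permutation `σ g` which induces the conjugation by `g` is unique, as the centralizer of
`A_n` in `S_n` is trivial, so `g ↦ σ g` is an injective homomorphism, equal to the given isomorphism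
on `N`. If all `σ g` are even, `G = N`; otherwise the homomorphism is surjective.
-/

set_option autoImplicit false

namespace Pool.Agent.ALT32

open Equiv Equiv.Perm

/-- The centralizer of the alternating group is trivial. -/
theorem alt_centralizer {n : ℕ} (hn : 5 ≤ n) (τ : Perm (Fin n))
    (h : ∀ a : alternatingGroup (Fin n), τ * (a : Perm (Fin n)) = a * τ) : τ = 1 := by
  classical
  by_contra hτ
  obtain ⟨x, hx⟩ : ∃ x, τ x ≠ x := by
    by_contra hcon
    push Not at hcon
    exact hτ (Equiv.ext hcon)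
  obtain ⟨z, hz⟩ : ∃ z, z ∉ ({x, τ x} : Finset (Fin n)) := by
    by_contra hcon
    push Not at hcon
    have h1 : (Finset.univ : Finset (Fin n)).card ≤ ({x, τ x} : Finset (Fin n)).card :=
      Finset.card_le_card fun z _ => hcon z
    have h2 : ({x, τ x} : Finset (Fin n)).card ≤ 2 := Finset.card_le_two
    rw [Finset.card_univ, Fintype.card_fin] at h1
    omega
  obtain ⟨w, hw⟩ : ∃ w, w ∉ ({x, τ x, z} : Finset (Fin n)) := by
    by_contra hcon
    push Not at hcon
    have h1 : (Finset.univ : Finset (Fin n)).card ≤ ({x, τ x, z} : Finset (Fin n)).card :=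
      Finset.card_le_card fun z _ => hcon z
    have h2 : ({x, τ x, z} : Finset (Fin n)).card ≤ 3 := Finset.card_le_three
    rw [Finset.card_univ, Fintype.card_fin] at h1
    omega
  simp only [Finset.mem_insert, Finset.mem_singleton, not_or] at hz hw
  have hc : swap x z * swap x w ∈ alternatingGroup (Fin n) := by
    rw [mem_alternatingGroup, Perm.sign_mul, Perm.sign_swap (Ne.symm hz.1),
      Perm.sign_swap (Ne.symm hw.1)]
    norm_num
  have e := h ⟨swap x z * swap x w, hc⟩
  have e1 := congrArg (fun g : Perm (Fin n) => g x) e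
  simp only [Perm.mul_apply, swap_apply_left] at e1
  rw [swap_apply_of_ne_of_ne hw.1 hw.2.2, swap_apply_of_ne_of_ne hx (Ne.symm hw.2.1),
    swap_apply_of_ne_of_ne hx (Ne.symm hz.2)] at e1
  exact hw.1 (τ.injective e1)

theorem embed {n : ℕ} (hn : 5 ≤ n)
    (hφ : ∀ φ : alternatingGroup (Fin n) ≃* alternatingGroup (Fin n),
      ∃ σ : Perm (Fin n), ∀ a : alternatingGroup (Fin n),
        ((φ a : alternatingGroup (Fin n)) : Perm (Fin n)) = σ * a * σ⁻¹)
    {G : Type*} [Group G] (N : Subgroup G) [N.Normal] (f : N ≃* alternatingGroup (Fin n))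
    (hC : Subgroup.centralizer (N : Set G) = ⊥) : N = ⊤ ∨ Nonempty (G ≃* Perm (Fin n)) := by
  classical
  -- conjugation
  have hex : ∀ g : G, ∃ σ : Perm (Fin n), ∀ x : N,
      ((f (MulAut.conjNormal g x) : alternatingGroup (Fin n)) : Perm (Fin n)) = σ * f x * σ⁻¹ := by
    intro g
    obtain ⟨σ, hσ⟩ := hφ ((f.symm.trans (MulAut.conjNormal g)).trans f)
    refine ⟨σ, fun x => ?_⟩
    have := hσ (f x)
    simpa using this
  choose σ hσ using hex
  have huniq : ∀ (g : G) (τ : Perm (Fin n)), (∀ x : N,
      ((f (MulAut.conjNormal g x) : alternatingGroup (Fin n)) : Perm (Fin n)) = τ * f x * τ⁻¹) →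
      τ = σ g := by
    intro g τ hτ
    have h1 : (σ g)⁻¹ * τ = 1 := by
      apply alt_centralizer hn
      intro a
      have e1 := hτ (f.symm a)
      rw [hσ g, f.apply_symm_apply] at e1
      have e2 : (σ g)⁻¹ * (σ g * (a : Perm (Fin n)) * (σ g)⁻¹) * τ =
          (σ g)⁻¹ * (τ * (a : Perm (Fin n)) * τ⁻¹) * τ := by rw [e1]
      simp only [mul_assoc, inv_mul_cancel_left, inv_mul_cancel, mul_one] at e2
      rw [mul_assoc]
      exact e2.symm
    rw [inv_mul_eq_one] at h1
    exact h1.symm
  let ρ : G →* Perm (Fin n) := MonoidHom.mk' σ (by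
    intro g h
    symm
    apply huniq
    intro x
    rw [map_mul, MulAut.mul_apply, hσ g, hσ h, mul_inv_rev]
    simp only [mul_assoc])
  have hρ : ∀ g, ρ g = σ g := fun g => rfl
  have hinj : Function.Injective ρ := by
    rw [injective_iff_map_eq_one]
    intro g hg
    rw [hρ] at hg
    have h1 : g ∈ Subgroup.centralizer (N : Set G) := by
      rw [Subgroup.mem_centralizer_iff]
      intro x hx
      have e1 := hσ g ⟨x, hx⟩
      rw [hg, one_mul, inv_one, mul_one] at e1
      have e2 : MulAut.conjNormal g (⟨x, hx⟩ : N) = ⟨x, hx⟩ := f.injective (Subtype.ext e1)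
      have e3 := congrArg Subtype.val e2
      rw [MulAut.conjNormal_apply] at e3
      have e4 : g * x * g⁻¹ = x := e3
      rw [mul_inv_eq_iff_eq_mul] at e4
      exact e4.symm
    rw [hC, Subgroup.mem_bot] at h1
    exact h1
  have hN : ∀ x : N, ρ x = f x := by
    intro x
    rw [hρ]
    symm
    apply huniq
    intro y
    have e1 : MulAut.conjNormal (x : G) y = x * y * x⁻¹ := by
      apply Subtype.ext
      rw [MulAut.conjNormal_apply]
      rfl
    rw [e1, map_mul, map_mul, map_inv]
    rfl
  have heven : ∀ τ : Perm (Fin n), sign τ = 1 → ∃ x : N, ρ x = τ := by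
    intro τ hτ
    refine ⟨f.symm ⟨τ, mem_alternatingGroup.2 hτ⟩, ?_⟩
    rw [hN, f.apply_symm_apply]
  by_cases hall : ∀ g, sign (ρ g) = 1
  · left
    rw [eq_top_iff]
    intro g _
    obtain ⟨x, hx⟩ := heven (ρ g) (hall g)
    rw [← hinj hx]
    exact x.2
  · right
    push Not at hall
    obtain ⟨g0, hg0⟩ := hall
    have hg0' : sign (ρ g0) = -1 := (Int.units_eq_one_or (sign (ρ g0))).resolve_left hg0
    refine ⟨MulEquiv.ofBijective ρ ⟨hinj, ?_⟩⟩
    intro τ
    rcases Int.units_eq_one_or (sign τ) with h | h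
    · obtain ⟨x, hx⟩ := heven τ h
      exact ⟨x, hx⟩
    · obtain ⟨x, hx⟩ := heven (τ * (ρ g0)⁻¹) (by rw [map_mul, map_inv, h, hg0']; norm_num)
      refine ⟨x * g0, ?_⟩
      rw [map_mul, hx, inv_mul_cancel_right]

end Pool.Agent.ALT32
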