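import Pool.Agent.ALT32.Defs

/-!
# Good pairings of four points of a tournament, and the Paley tournament
-/

set_option autoImplicit false

namespace Pool.Agent.ALT32

/-- Among four points of a tournament there is a good pairing. -/
theorem good_exists {β : Type*} (T : β → β → Prop) (hT : ∀ u v, u ≠ v → T u v ∨ T v u)
    (a b c d : β) (hab : a ≠ b) (hac : a ≠ c) (had : a ≠ d) (hbc : b ≠ c) (hbd : b ≠ d)
    (hcd : c ≠ d) :
    (Good T a b c d ∨ Good T a b d c ∨ Good T b a c d ∨ Good T b a d c) ∨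
    (Good T a c b d ∨ Good T a c d b ∨ Good T c a b d ∨ Good T c a d b) ∨
    (Good T a d b c ∨ Good T a d c b ∨ Good T d a b c ∨ Good T d a c b) := by
  unfold Good
  rcases hT a b hab with h1 | h1 <;> rcases hT a c hac with h2 | h2 <;>
    rcases hT a d had with h3 | h3 <;> rcases hT b c hbc with h4 | h4 <;>
    rcases hT b d hbd with h5 | h5 <;> rcases hT c d hcd with h6 | h6 <;>
    simp only [h1, h2, h3, h4, h5, h6, true_and, and_true, true_or, or_true]

theorem paley_total {p : ℕ} (hp : p.Prime) (hp4 : p % 4 = 3) (u v : ZMod p) (h : u ≠ v) :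
    Arc u v ∨ Arc v u := by
  haveI := Fact.mk hp
  have hx : v - u ≠ 0 := sub_ne_zero.2 h.symm
  rcases ZMod.pow_div_two_eq_neg_one_or_one p hx with h1 | h1
  · left
    exact ⟨h.symm, (ZMod.euler_criterion p hx).2 h1⟩
  · right
    have hx' : u - v ≠ 0 := sub_ne_zero.2 h
    refine ⟨h, (ZMod.euler_criterion p hx').2 ?_⟩
    have h2 : u - v = -(v - u) := by ring
    have h3 : Odd (p / 2) := ⟨p / 4, by omega⟩
    rw [h2, h3.neg_pow, h1, neg_neg]

theorem paley_anti {p : ℕ} (hp : p.Prime) (hp4 : p % 4 = 3) (u v : ZMod p) (h : Arc u v) :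
    ¬ Arc v u := by
  haveI := Fact.mk hp
  intro h'
  have hx : v - u ≠ 0 := sub_ne_zero.2 h.1
  have h1 : (u - v) / (v - u) = -1 := by
    rw [div_eq_iff hx]
    ring
  have h2 : IsSquare ((u - v) / (v - u)) := h'.2.div h.2
  rw [h1] at h2
  exact (ZMod.exists_sq_eq_neg_one_iff (p := p)).1 h2 hp4

theorem paley_mul {p : ℕ} (hp : p.Prime) (x u v : ZMod p) (hx : x ≠ 0) (hxs : IsSquare x)
    (h : Arc u v) : Arc (x * u) (x * v) := by
  haveI := Fact.mk hp
  refine ⟨fun h0 => h.1 (mul_left_cancel₀ hx h0), ?_⟩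
  rw [← mul_sub]
  exact hxs.mul h.2

/-- A cyclic triangle of nonzero squares. -/
theorem paley_triangle {p : ℕ} (hp : p.Prime) (hp4 : p % 4 = 3) (hp7 : 7 ≤ p) :
    ∃ b c d : ZMod p, Arc 0 b ∧ Arc 0 c ∧ Arc 0 d ∧ Arc b c ∧ Arc c d ∧ Arc d b := by
  classical
  haveI := Fact.mk hp
  have hone : Arc (0 : ZMod p) 1 := ⟨one_ne_zero, by rw [sub_zero]; exact IsSquare.one⟩
  have h4 : Arc (0 : ZMod p) 4 := by
    refine ⟨?_, by rw [sub_zero]; exact ⟨2, by norm_num⟩⟩
    intro h
    have h1 : ((4 : ℕ) : ZMod p) = 0 := by exact_mod_cast h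
    rw [ZMod.natCast_eq_zero_iff] at h1
    have := Nat.le_of_dvd (by norm_num) h1
    omega
  have h41 : (4 : ZMod p) ≠ 1 := by
    intro h
    have h1 : ((3 : ℕ) : ZMod p) = 0 := by
      push_cast
      linear_combination h
    rw [ZMod.natCast_eq_zero_iff] at h1
    have := Nat.le_of_dvd (by norm_num) h1
    omega
  -- a nonzero square with an arc to 1
  obtain ⟨r, hr0, hr1⟩ : ∃ r : ZMod p, Arc 0 r ∧ Arc r 1 := by
    rcases paley_total hp hp4 4 1 h41 with h | h
    · exact ⟨4, h4, h⟩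
    · have hinv : IsSquare ((4 : ZMod p)⁻¹) := by
        have h2 := h4.2
        rw [sub_zero] at h2
        exact h2.inv
      have hinv0 : (4 : ZMod p)⁻¹ ≠ 0 := inv_ne_zero h4.1
      have h5 := paley_mul hp (4 : ZMod p)⁻¹ 0 1 hinv0 hinv hone
      have h6 := paley_mul hp (4 : ZMod p)⁻¹ 1 4 hinv0 hinv h
      rw [mul_zero, mul_one] at h5
      rw [mul_one, inv_mul_cancel₀ h4.1] at h6
      exact ⟨_, h5, h6⟩
  by_contra hno
  let O : ZMod p → Finset (ZMod p) := fun x => Finset.univ.filter fun s => Arc 0 s ∧ Arc x s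
  have hr : r ≠ 0 := hr0.1
  have hrs : IsSquare r := by
    have := hr0.2
    rwa [sub_zero] at this
  have hcard : (O r).card ≤ (O 1).card := by
    refine Finset.card_le_card_of_injOn (fun s => r⁻¹ * s) ?_ ?_
    · intro s hs
      simp only [O, Finset.coe_filter, Finset.mem_univ, true_and, Set.mem_setOf_eq] at hs ⊢
      have h1 := paley_mul hp r⁻¹ 0 s (inv_ne_zero hr) hrs.inv hs.1
      have h2 := paley_mul hp r⁻¹ r s (inv_ne_zero hr) hrs.inv hs.2
      rw [mul_zero] at h1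
      rw [inv_mul_cancel₀ hr] at h2
      exact ⟨h1, h2⟩
    · intro s _ s' _ h
      exact mul_left_cancel₀ (inv_ne_zero hr) h
  have hsub : insert (1 : ZMod p) (O 1) ⊆ O r := by
    intro s hs
    rw [Finset.mem_insert] at hs
    simp only [O, Finset.mem_filter, Finset.mem_univ, true_and] at hs ⊢
    rcases hs with rfl | ⟨h1, h2⟩
    · exact ⟨hone, hr1⟩
    · refine ⟨h1, ?_⟩
      have hrs' : r ≠ s := by
        rintro rfl
        exact paley_anti hp hp4 _ _ h2 hr1
      rcases paley_total hp hp4 r s hrs' with h | h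
      · exact h
      · exact absurd ⟨1, s, r, hone, h1, hr0, h2, h, hr1⟩ hno
  have h1 : (1 : ZMod p) ∉ O 1 := by
    simp only [O, Finset.mem_filter, Finset.mem_univ, true_and, not_and]
    intro _ h
    exact h.1 rfl
  have h2 := Finset.card_le_card hsub
  rw [Finset.card_insert_of_notMem h1] at h2
  omega

theorem paley_shift {p : ℕ} (s u v : ZMod p) (h : Arc u v) : Arc (u + s) (v + s) := by
  refine ⟨fun h0 => h.1 (add_right_cancel h0), ?_⟩
  rw [add_sub_add_right_eq_sub]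
  exact h.2

/-- Four points all of whose pairings are good, avoiding a given point. -/
theorem four_points {p : ℕ} (hp : p.Prime) (hp4 : p % 4 = 3) (hp7 : 7 ≤ p) (o : ZMod p) :
    ∃ a b c d : ZMod p, a ≠ o ∧ b ≠ o ∧ c ≠ o ∧ d ≠ o ∧ a ≠ b ∧ a ≠ c ∧ a ≠ d ∧ b ≠ c ∧ b ≠ d ∧
      c ≠ d ∧ Good Arc a b c d ∧ Good Arc a c d b ∧ Good Arc a d b c := by
  classical
  haveI := Fact.mk hp
  obtain ⟨b, c, d, hb, hc, hd, hbc, hcd, hdb⟩ := paley_triangle hp hp4 hp7
  obtain ⟨s, hs⟩ : ∃ s : ZMod p, s ∉ ({o - 0, o - b, o - c, o - d} : Finset (ZMod p)) := by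
    by_contra h
    push Not at h
    have h1 : (Finset.univ : Finset (ZMod p)) ⊆ {o - 0, o - b, o - c, o - d} := fun s _ => h s
    have h2 := (Finset.card_le_card h1).trans Finset.card_le_four
    rw [Finset.card_univ, ZMod.card] at h2
    omega
  simp only [Finset.mem_insert, Finset.mem_singleton, not_or] at hs
  obtain ⟨h0, h1, h2, h3⟩ := hs
  have e0 := paley_shift s 0 b hb
  have e1 := paley_shift s 0 c hc
  have e2 := paley_shift s 0 d hd
  have e3 := paley_shift s b c hbc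
  have e4 := paley_shift s c d hcd
  have e5 := paley_shift s d b hdb
  refine ⟨0 + s, b + s, c + s, d + s, ?_, ?_, ?_, ?_, e0.1.symm, e1.1.symm, e2.1.symm, e3.1.symm,
    e5.1, e4.1.symm, ⟨e0, e4, Or.inr ⟨e5, e1⟩⟩, ⟨e1, e5, Or.inr ⟨e3, e2⟩⟩,
    ⟨e2, e3, Or.inr ⟨e4, e0⟩⟩⟩
  · intro h
    exact h0 (by rw [← h]; ring)
  · intro h
    exact h1 (by rw [← h]; ring)
  · intro h
    exact h2 (by rw [← h]; ring)
  · intro h
    exact h3 (by rw [← h]; ring)

end Pool.Agent.ALT32
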