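import Pool.Agent.ALT32.Class
import Pool.Agent.ALT32.Paley
import Pool.Agent.ALT32.Aff

/-!
# The diameter of the soluble graph of the alternating group is at most four
-/

set_option autoImplicit false

namespace Pool.Agent.ALT32

open Equiv Equiv.Perm

/-- `x` and `y` generate a solvable group. -/
def RS {G : Type*} [Group G] (x y : G) : Prop := Group.IsSolvable (Subgroup.closure {x, y})

theorem RS.symm {G : Type*} [Group G] {x y : G} (h : RS x y) : RS y x := solv_pair_comm h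

/-! ### The graph -/

theorem edist_le_one {G : Type*} [Group G] {x y : {x : G // x ≠ 1}} (h : RS x.1 y.1) :
    (solubleGraph G).edist x y ≤ 1 := by
  by_cases hxy : x = y
  · rw [hxy, SimpleGraph.edist_self]; exact zero_le
  · have : (solubleGraph G).Adj x y := ⟨hxy, h⟩
    exact (SimpleGraph.edist_eq_one_iff_adj.2 this).le

theorem edist_le_three {G : Type*} [Group G] {x y : {x : G // x ≠ 1}} {a b : G} (ha : a ≠ 1)
    (hb : b ≠ 1) (h1 : RS x.1 a) (h2 : RS a b) (h3 : RS b y.1) :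
    (solubleGraph G).edist x y ≤ 3 := by
  have e1 := edist_le_one (x := x) (y := ⟨a, ha⟩) h1
  have e2 := edist_le_one (x := ⟨a, ha⟩) (y := ⟨b, hb⟩) h2
  have e3 := edist_le_one (x := ⟨b, hb⟩) (y := y) h3
  calc (solubleGraph G).edist x y
      ≤ (solubleGraph G).edist x ⟨a, ha⟩ + (solubleGraph G).edist ⟨a, ha⟩ y :=
        SimpleGraph.edist_triangle
    _ ≤ 1 + ((solubleGraph G).edist ⟨a, ha⟩ ⟨b, hb⟩ + (solubleGraph G).edist ⟨b, hb⟩ y) :=
        add_le_add e1 SimpleGraph.edist_triangle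
    _ ≤ 1 + (1 + 1) := add_le_add le_rfl (add_le_add e2 e3)
    _ = 3 := by norm_num

theorem edist_le_four {G : Type*} [Group G] {x y : {x : G // x ≠ 1}} {a b c : G} (ha : a ≠ 1)
    (hb : b ≠ 1) (hc : c ≠ 1) (h1 : RS x.1 a) (h2 : RS a b) (h3 : RS b c) (h4 : RS c y.1) :
    (solubleGraph G).edist x y ≤ 4 := by
  have e1 := edist_le_one (x := x) (y := ⟨a, ha⟩) h1
  have e2 := edist_le_three (x := ⟨a, ha⟩) (y := y) hb hc h2 h3 h4
  calc (solubleGraph G).edist x y
      ≤ (solubleGraph G).edist x ⟨a, ha⟩ + (solubleGraph G).edist ⟨a, ha⟩ y :=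
        SimpleGraph.edist_triangle
    _ ≤ 1 + 3 := add_le_add e1 e2
    _ = 4 := by norm_num

/-- Solvability in the alternating group. -/
theorem alt_rs {n : ℕ} {x y : alternatingGroup (Fin n)} (h : RS (x : Perm (Fin n)) y) : RS x y := by
  have := h
  have e : (Subgroup.closure {x, y}).map (alternatingGroup (Fin n)).subtype =
      Subgroup.closure {(x : Perm (Fin n)), (y : Perm (Fin n))} := by
    rw [MonoidHom.map_closure, Set.image_pair]; rfl
  have h' : Group.IsSolvable ((Subgroup.closure {x, y}).map (alternatingGroup (Fin n)).subtype) := by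
    rw [e]; exact h
  exact Group.isSolvable_of_isSolvable_injective
    (f := ((Subgroup.closure {x, y}).equivMapOfInjective (alternatingGroup (Fin n)).subtype
      (Subgroup.subtype_injective _)).toMonoidHom) (MulEquiv.injective _)

theorem alt_ne {n : ℕ} {a : Perm (Fin n)} (ha : sign a = 1) (ha1 : a ≠ 1) :
    (⟨a, mem_alternatingGroup.2 ha⟩ : alternatingGroup (Fin n)) ≠ 1 := by
  intro h
  apply ha1
  exact congrArg Subtype.val h

/-! ### Elements next to an even involution, and exceptional elements -/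

/-- `x` is next to an even involution. -/
def Inv {n : ℕ} (x : Perm (Fin n)) : Prop :=
  ∃ t : Perm (Fin n), sign t = 1 ∧ t ≠ 1 ∧ t * t = 1 ∧ RS x t

/-- Exceptional elements. -/
def Exc {n : ℕ} (x : Perm (Fin n)) : Prop :=
  ∃ p : ℕ, p.Prime ∧ p % 4 = 3 ∧ (n = p ∨ n = p + 1) ∧ ∃ e : ZMod p → Fin n,
      Function.Injective e ∧ ∀ i, x (e i) = e (i + 1)

theorem inv_or_exc {n : ℕ} (hn : 5 ≤ n) (x : Perm (Fin n)) (hx : x ≠ 1) (hs : sign x = 1) :
    Inv x ∨ Exc x := classify hn x hx hs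

theorem three_of_inv {n : ℕ} {x y : {x : alternatingGroup (Fin n) // x ≠ 1}}
    (hx : Inv (x.1 : Perm (Fin n))) (hy : Inv (y.1 : Perm (Fin n))) :
    (solubleGraph (alternatingGroup (Fin n))).edist x y ≤ 3 := by
  obtain ⟨s, hs1, hs2, hs3, hs4⟩ := hx
  obtain ⟨t, ht1, ht2, ht3, ht4⟩ := hy
  refine edist_le_three (alt_ne hs1 hs2) (alt_ne ht1 ht2) (alt_rs hs4) (alt_rs ?_) (alt_rs ht4.symm)
  exact solv_invol hs3 ht3

theorem compl_subsingleton {n p : ℕ} (hp : p.Prime) (hn : n = p ∨ n = p + 1) {e : ZMod p → Fin n}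
    (he : Function.Injective e) {a b : Fin n} (ha : a ∉ Set.range e) (hb : b ∉ Set.range e) :
    a = b := by
  classical
  have := Fact.mk hp
  by_contra hab
  have h1 : (insert a (insert b (Finset.univ.image e))).card ≤ n := by
    have := Finset.card_le_univ (insert a (insert b (Finset.univ.image e)))
    rwa [Fintype.card_fin] at this
  rw [Finset.card_insert_of_notMem, Finset.card_insert_of_notMem,
    Finset.card_image_of_injective _ he, Finset.card_univ, ZMod.card] at h1
  · omega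
  · simpa using hb
  · simp only [Finset.mem_insert, not_or]
    exact ⟨hab, by simpa using ha⟩

theorem exc_fix {n p : ℕ} (hp : p.Prime) (hn : n = p ∨ n = p + 1) {x : Perm (Fin n)}
    {e : ZMod p → Fin n} (he : Function.Injective e) (hx : ∀ i, x (e i) = e (i + 1)) (s : Fin n)
    (hs : s ∉ Set.range e) : x s = s := by
  apply compl_subsingleton hp hn he _ hs
  rintro ⟨i, hi⟩
  apply hs
  refine ⟨i - 1, x.injective ?_⟩
  rw [hx, sub_add_cancel, hi]

theorem swap_ne_one {n : ℕ} {a b c d : Fin n} (hab : a ≠ b) (hac : a ≠ c) (had : a ≠ d) :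
    swap a b * swap c d ≠ 1 := by
  intro h
  have h1 : (swap a b * swap c d) a = a := by rw [h]; rfl
  rw [Perm.mul_apply, swap_apply_of_ne_of_ne hac had, swap_apply_left] at h1
  exact hab h1.symm

theorem swap_sq {n : ℕ} {a b c d : Fin n} (hac : a ≠ c) (had : a ≠ d) (hbc : b ≠ c)
    (hbd : b ≠ d) : (swap a b * swap c d) * (swap a b * swap c d) = 1 := by
  have hcomm : swap a b * swap c d = swap c d * swap a b := by
    ext s
    simp only [Perm.mul_apply]
    by_cases h1 : s = a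
    · subst h1
      rw [swap_apply_of_ne_of_ne hac had, swap_apply_left, swap_apply_of_ne_of_ne hbc hbd]
    · by_cases h2 : s = b
      · subst h2
        rw [swap_apply_of_ne_of_ne hbc hbd, swap_apply_right, swap_apply_of_ne_of_ne hac had]
      · rw [swap_apply_of_ne_of_ne h1 h2]
        by_cases h3 : s = c
        · subst h3
          rw [swap_apply_left, swap_apply_of_ne_of_ne had.symm hbd.symm]
        · by_cases h4 : s = d
          · subst h4
            rw [swap_apply_right, swap_apply_of_ne_of_ne hac.symm hbc.symm]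
          · rw [swap_apply_of_ne_of_ne h3 h4, swap_apply_of_ne_of_ne h1 h2]
  calc (swap a b * swap c d) * (swap a b * swap c d)
      = (swap a b * swap c d) * (swap c d * swap a b) := by rw [← hcomm]
    _ = swap a b * (swap c d * swap c d) * swap a b := by group
    _ = 1 := by rw [swap_mul_self, mul_one, swap_mul_self]

theorem swap_sign {n : ℕ} {a b c d : Fin n} (hab : a ≠ b) (hcd : c ≠ d) :
    sign (swap a b * swap c d) = 1 := by
  rw [map_mul, sign_swap hab, sign_swap hcd]; norm_num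

/-- The pairs `x`, `m` at distance two, `m` a double transposition. -/
theorem exc_two {n p : ℕ} (hp : p.Prime) (hp4 : p % 4 = 3) (hp7 : 7 ≤ p)
    (hn : n = p ∨ n = p + 1) {x : Perm (Fin n)}
    {e : ZMod p → Fin n} (he : Function.Injective e) (hx : ∀ i, x (e i) = e (i + 1))
    {u v w t : ZMod p} (huv : u ≠ v) (hwt : w ≠ t)
    (huw : u ≠ w) (hut : u ≠ t) (hvw : v ≠ w) (hvt : v ≠ t)
    (hg : Good Arc u v w t ∨ Good Arc u v t w ∨ Good Arc v u w t ∨ Good Arc v u t w) :
    ∃ z : Perm (Fin n), sign z = 1 ∧ z ≠ 1 ∧ RS x z ∧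
      RS z (swap (e u) (e v) * swap (e w) (e t)) := by
  have hxf := exc_fix hp hn he hx
  rcases hg with h | h | h | h
  · exact path_of_good hp hp4 hp7 x e he hx hxf u v w t huv hwt huw hut hvw hvt h
  · rw [swap_comm (e w) (e t)]
    exact path_of_good hp hp4 hp7 x e he hx hxf u v t w huv hwt.symm hut huw hvt hvw h
  · rw [swap_comm (e u) (e v)]
    exact path_of_good hp hp4 hp7 x e he hx hxf v u w t huv.symm hwt hvw hvt huw hut h
  · rw [swap_comm (e u) (e v), swap_comm (e w) (e t)]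
    exact path_of_good hp hp4 hp7 x e he hx hxf v u t w huv.symm hwt.symm hvt hvw hut huw h

theorem four_of_inv_exc {n : ℕ} (hn : 5 ≤ n) {x y : {x : alternatingGroup (Fin n) // x ≠ 1}}
    (hx : Inv (x.1 : Perm (Fin n))) (hy : Exc (y.1 : Perm (Fin n))) :
    (solubleGraph (alternatingGroup (Fin n))).edist x y ≤ 4 := by
  obtain ⟨s, hs1, hs2, hs3, hs4⟩ := hx
  obtain ⟨p, hp, hp4, hnp, e, he, hye⟩ := hy
  have hp7 : 7 ≤ p := by
    have := hp.two_le
    omega
  obtain ⟨a, b, c, d, -, -, -, -, hab, hac, had, hbc, hbd, hcd, hg, -, -⟩ :=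
    four_points hp hp4 hp7 0
  obtain ⟨z, hz1, hz2, hz3, hz4⟩ := exc_two hp hp4 hp7 hnp he hye hab hcd hac had hbc hbd
    (Or.inl hg)
  refine edist_le_four (alt_ne hs1 hs2)
    (alt_ne (swap_sign (he.ne hab) (he.ne hcd)) (swap_ne_one (he.ne hab) (he.ne hac) (he.ne had)))
    (alt_ne hz1 hz2) (alt_rs hs4) (alt_rs ?_) (alt_rs hz4.symm) (alt_rs hz3.symm)
  exact solv_invol hs3 (swap_sq (he.ne hac) (he.ne had) (he.ne hbc) (he.ne hbd))

theorem four_of_exc {n : ℕ} (hn : 5 ≤ n) {x y : {x : alternatingGroup (Fin n) // x ≠ 1}}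
    (hx : Exc (x.1 : Perm (Fin n))) (hy : Exc (y.1 : Perm (Fin n))) :
    (solubleGraph (alternatingGroup (Fin n))).edist x y ≤ 4 := by
  classical
  obtain ⟨p, hp, hp4, hnp, e, he, hxe⟩ := hx
  obtain ⟨p', hp', hp4', hnp', f, hf, hyf⟩ := hy
  obtain rfl : p' = p := by omega
  have := Fact.mk hp
  have hp7 : 7 ≤ p' := by
    have := hp.two_le
    omega
  -- the point of the support of `x` fixed by `y`
  obtain ⟨o, ho⟩ : ∃ o : ZMod p', ∀ i, i ≠ o → e i ∈ Set.range f := by
    by_cases h : ∃ o, e o ∉ Set.range f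
    · obtain ⟨o, ho⟩ := h
      refine ⟨o, fun i hi => ?_⟩
      by_contra hc
      exact hi (he (compl_subsingleton hp hnp hf hc ho))
    · push Not at h
      exact ⟨0, fun i _ => h i⟩
  obtain ⟨a, b, c, d, hao, hbo, hco, hdo, hab, hac, had, hbc, hbd, hcd, hg1, hg2, hg3⟩ :=
    four_points hp hp4 hp7 o
  obtain ⟨α, hα⟩ := ho a hao
  obtain ⟨β, hβ⟩ := ho b hbo
  obtain ⟨γ, hγ⟩ := ho c hco
  obtain ⟨δ, hδ⟩ := ho d hdo
  have hαβ : α ≠ β := by rintro rfl; exact hab (he (hα.symm.trans hβ))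
  have hαγ : α ≠ γ := by rintro rfl; exact hac (he (hα.symm.trans hγ))
  have hαδ : α ≠ δ := by rintro rfl; exact had (he (hα.symm.trans hδ))
  have hβγ : β ≠ γ := by rintro rfl; exact hbc (he (hβ.symm.trans hγ))
  have hβδ : β ≠ δ := by rintro rfl; exact hbd (he (hβ.symm.trans hδ))
  have hγδ : γ ≠ δ := by rintro rfl; exact hcd (he (hγ.symm.trans hδ))
  -- the common end
  have key : ∀ {u v w t : ZMod p'} {u' v' w' t' : ZMod p'}, f u' = e u → f v' = e v → f w' = e w →
      f t' = e t → u ≠ v → w ≠ t → u ≠ w → u ≠ t → v ≠ w → v ≠ t →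
      u' ≠ v' → w' ≠ t' → u' ≠ w' → u' ≠ t' → v' ≠ w' → v' ≠ t' →
      (Good Arc u v w t ∨ Good Arc u v t w ∨ Good Arc v u w t ∨ Good Arc v u t w) →
      (Good Arc u' v' w' t' ∨ Good Arc u' v' t' w' ∨ Good Arc v' u' w' t' ∨
        Good Arc v' u' t' w') →
      (solubleGraph (alternatingGroup (Fin n))).edist x y ≤ 4 := by
    intro u v w t u' v' w' t' h1 h2 h3 h4 k1 k2 k3 k4 k5 k6 l1 l2 l3 l4 l5 l6 g g'
    obtain ⟨z, hz1, hz2, hz3, hz4⟩ := exc_two hp hp4 hp7 hnp he hxe k1 k2 k3 k4 k5 k6 g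
    obtain ⟨z', hz1', hz2', hz3', hz4'⟩ := exc_two hp hp4 hp7 hnp hf hyf l1 l2 l3 l4 l5 l6 g'
    rw [h1, h2, h3, h4] at hz4'
    exact edist_le_four (alt_ne hz1 hz2)
      (alt_ne (swap_sign (he.ne k1) (he.ne k2)) (swap_ne_one (he.ne k1) (he.ne k3) (he.ne k4)))
      (alt_ne hz1' hz2') (alt_rs hz3) (alt_rs hz4) (alt_rs hz4'.symm) (alt_rs hz3'.symm)
  rcases good_exists Arc (fun u v h => paley_total hp hp4 u v h) α β γ δ hαβ hαγ hαδ hβγ hβδ hγδ
    with h | h | h
  · exact key hα hβ hγ hδ hab hcd hac had hbc hbd hαβ hγδ hαγ hαδ hβγ hβδ (Or.inl hg1) h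
  · exact key hα hγ hβ hδ hac hbd hab had hbc.symm hcd hαγ hβδ hαβ hαδ hβγ.symm hγδ
      (Or.inr (Or.inl hg2)) h
  · exact key hα hδ hβ hγ had hbc hab hac hbd.symm hcd.symm hαδ hβγ hαβ hαγ hβδ.symm hγδ.symm
      (Or.inl hg3) h

/-- The diameter of the soluble graph of the alternating group is at most four. -/
theorem final (n : ℕ) (hn : 5 ≤ n) : (solubleGraph (alternatingGroup (Fin n))).ediam ≤ 4 := by
  apply SimpleGraph.ediam_le_of_edist_le
  intro x y
  have hx : (x.1 : Perm (Fin n)) ≠ 1 := fun h => x.2 (Subtype.ext h)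
  have hy : (y.1 : Perm (Fin n)) ≠ 1 := fun h => y.2 (Subtype.ext h)
  rcases inv_or_exc hn _ hx (mem_alternatingGroup.1 x.1.2) with h1 | h1 <;>
    rcases inv_or_exc hn _ hy (mem_alternatingGroup.1 y.1.2) with h2 | h2
  · exact (three_of_inv h1 h2).trans (by norm_num)
  · exact four_of_inv_exc hn h1 h2
  · rw [SimpleGraph.edist_comm]
    exact four_of_inv_exc hn h2 h1
  · exact four_of_exc hn h1 h2

/-- The diameter is at most three if there are no exceptional elements. -/
theorem final_three (n : ℕ) (hn : 5 ≤ n)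
    (h : ∀ x : Perm (Fin n), sign x = 1 → Exc x → Inv x) :
    (solubleGraph (alternatingGroup (Fin n))).ediam ≤ 3 := by
  apply SimpleGraph.ediam_le_of_edist_le
  intro x y
  have hx : (x.1 : Perm (Fin n)) ≠ 1 := fun h => x.2 (Subtype.ext h)
  have hy : (y.1 : Perm (Fin n)) ≠ 1 := fun h => y.2 (Subtype.ext h)
  have key : ∀ x : {x : alternatingGroup (Fin n) // x ≠ 1}, Inv (x.1 : Perm (Fin n)) := by
    intro x
    have hx : (x.1 : Perm (Fin n)) ≠ 1 := fun h => x.2 (Subtype.ext h)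
    rcases inv_or_exc hn _ hx (mem_alternatingGroup.1 x.1.2) with h1 | h1
    · exact h1
    · exact h _ (mem_alternatingGroup.1 x.1.2) h1
  exact three_of_inv (key x) (key y)

end Pool.Agent.ALT32
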