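import Mathlib

/-!
# Galois: solvable groups of permutations of prime degree (helper file for MP_bb27f7_al)

A solvable subgroup of the symmetric group of prime degree which contains the translation `x`
consists of affine maps. Let `A` be the last nontrivial term of the derived series: commutative and
normal, hence transitive (`x` normalises it), hence regular. Conjugation by `x` is a permutation of
the `p` elements of `A` whose `p`-th power is the identity and which fixes `1`, so it is the
identity. So `x` commutes with `A` and lies in `A`, and `A` consists of translations. For `h` in the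
group `h x h⁻¹` is a translation, so `h` is affine.
-/

set_option autoImplicit false

namespace Pool.Agent.ALT32

open Equiv Equiv.Perm

/-- A nontrivial solvable subgroup `H` contains a nontrivial commutative subgroup which is
normalised by `H`. -/
theorem exists_abelian {G : Type*} [Group G] (H : Subgroup G) (hH : Group.IsSolvable H)
    (hne : H ≠ ⊥) :
    ∃ A : Subgroup G, A ≤ H ∧ A ≠ ⊥ ∧ (∀ a ∈ A, ∀ b ∈ A, a * b = b * a) ∧
      ∀ h ∈ H, ∀ a ∈ A, h * a * h⁻¹ ∈ A := by
  classical
  have hex : ∃ n, derivedSeries H n = ⊥ := hH.solvable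
  have h0 : Nat.find hex ≠ 0 := by
    intro h
    have h1 := Nat.find_spec hex
    rw [h, derivedSeries_zero] at h1
    apply hne
    rw [eq_bot_iff]
    intro g hg
    have h2 : (⟨g, hg⟩ : H) ∈ (⊤ : Subgroup H) := Subgroup.mem_top _
    rw [h1, Subgroup.mem_bot] at h2
    exact congrArg Subtype.val h2
  obtain ⟨n, hn⟩ := Nat.exists_eq_succ_of_ne_zero h0
  have h1 : derivedSeries H (n + 1) = ⊥ := by
    have := Nat.find_spec hex
    rwa [hn] at this
  have h2 : derivedSeries H n ≠ ⊥ := Nat.find_min hex (by omega)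
  rw [derivedSeries_succ] at h1
  have hc : ∀ a ∈ derivedSeries H n, ∀ b ∈ derivedSeries H n, a * b = b * a := by
    intro a ha b hb
    have h3 := Subgroup.commutator_mem_commutator ha hb
    rw [h1, Subgroup.mem_bot, commutatorElement_eq_one_iff_mul_comm] at h3
    exact h3
  refine ⟨(derivedSeries H n).map H.subtype, ?_, ?_, ?_, ?_⟩
  · rintro _ ⟨a, -, rfl⟩
    exact a.2
  · intro h
    apply h2
    exact (Subgroup.map_eq_bot_iff_of_injective _ H.subtype_injective).1 h
  · rintro _ ⟨a, ha, rfl⟩ _ ⟨b, hb, rfl⟩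
    exact congrArg Subtype.val (hc a ha b hb)
  · rintro h hh _ ⟨a, ha, rfl⟩
    exact ⟨⟨h, hh⟩ * a * ⟨h, hh⟩⁻¹, (derivedSeries_normal H n).conj_mem a ha ⟨h, hh⟩, rfl⟩

theorem affine_of_solvable {p : ℕ} [Fact p.Prime] (H : Subgroup (Perm (ZMod p)))
    (hH : Group.IsSolvable H) (hx : Equiv.addRight (1 : ZMod p) ∈ H) {h : Perm (ZMod p)}
    (hh : h ∈ H) : ∃ a b : ZMod p, a ≠ 0 ∧ ∀ s, h s = a * s + b := by
  classical
  have hp : p.Prime := Fact.out
  set x : Perm (ZMod p) := Equiv.addRight (1 : ZMod p) with hxdef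
  have hxs : ∀ s, x s = s + 1 := fun s => rfl
  have hxk : ∀ (k : ℕ) (s : ZMod p), (x ^ k) s = s + k := by
    intro k
    induction k with
    | zero => intro s; simp
    | succ k ih =>
      intro s
      rw [pow_succ', Perm.mul_apply, ih, hxs]
      push_cast
      ring
  have hne : H ≠ ⊥ := by
    intro h0
    rw [h0, Subgroup.mem_bot] at hx
    have h1 := congrArg (fun g : Perm (ZMod p) => g 0) hx
    have h2 : (0 : ZMod p) + 1 = 0 := h1
    rw [zero_add] at h2
    exact one_ne_zero h2
  obtain ⟨A, hAH, hA, hc, hn⟩ := exists_abelian H hH hne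
  -- transitivity
  have htr : ∀ s : ZMod p, ∃ a ∈ A, a 0 = s := by
    obtain ⟨a, ha, ha1⟩ : ∃ a ∈ A, a ≠ 1 := by
      by_contra hcon
      push Not at hcon
      exact hA (eq_bot_iff.2 fun a ha => (Subgroup.mem_bot).2 (hcon a ha))
    obtain ⟨s0, hs0⟩ : ∃ s, a s ≠ s := by
      by_contra hcon
      push Not at hcon
      exact ha1 (Equiv.ext hcon)
    have hd : a s0 - s0 ≠ 0 := sub_ne_zero.2 hs0
    have step : ∀ t, ∃ b ∈ A, b t = t + (a s0 - s0) := by
      intro t
      refine ⟨_, hn _ (H.pow_mem hx (t - s0).val) a ha, ?_⟩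
      have e1 : ((x ^ (t - s0).val)⁻¹ : Perm (ZMod p)) t = s0 := by
        rw [Perm.inv_eq_iff_eq, hxk, ZMod.natCast_zmod_val]
        ring
      rw [Perm.mul_apply, Perm.mul_apply, e1, hxk, ZMod.natCast_zmod_val]
      ring
    have mult : ∀ n : ℕ, ∃ b ∈ A, b 0 = n * (a s0 - s0) := by
      intro n
      induction n with
      | zero => exact ⟨1, A.one_mem, by simp⟩
      | succ n ih =>
        obtain ⟨b, hb, hb0⟩ := ih
        obtain ⟨b', hb', hb1⟩ := step (n * (a s0 - s0))
        refine ⟨b' * b, A.mul_mem hb' hb, ?_⟩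
        rw [Perm.mul_apply, hb0, hb1]
        push_cast
        ring
    intro s
    obtain ⟨b, hb, hb0⟩ := mult ((s * (a s0 - s0)⁻¹).val)
    refine ⟨b, hb, ?_⟩
    rw [hb0, ZMod.natCast_zmod_val, mul_assoc, inv_mul_cancel₀ hd, mul_one]
  -- what commutes with `A` and fixes a point is trivial
  have hfix : ∀ g : Perm (ZMod p), (∀ a ∈ A, g * a = a * g) → g 0 = 0 → g = 1 := by
    intro g hg h0
    refine Equiv.ext fun s => ?_
    obtain ⟨a, ha, rfl⟩ := htr s
    calc g (a 0) = (g * a) 0 := rfl
      _ = (a * g) 0 := by rw [hg a ha]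
      _ = a (g 0) := rfl
      _ = a 0 := by rw [h0]
  choose f hf hf0 using htr
  have huniq : ∀ a ∈ A, f (a 0) = a := by
    intro a ha
    have h1 : (a⁻¹ * f (a 0)) = 1 := by
      apply hfix
      · intro b hb
        have e1 := hc b hb (a⁻¹ * f (a 0)) (A.mul_mem (A.inv_mem ha) (hf _))
        exact e1.symm
      · rw [Perm.mul_apply, hf0]
        exact a.symm_apply_apply 0
    exact (inv_mul_eq_one.1 h1).symm
  -- conjugation by `x`
  let σ : Function.End (ZMod p) := fun s => (x * f s * x⁻¹) 0
  have hσ : ∀ s, f (σ s) = x * f s * x⁻¹ := fun s => huniq _ (hn x hx (f s) (hf s))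
  have hσk : ∀ (k : ℕ) (s : ZMod p), f ((σ ^ k : Function.End (ZMod p)) s) =
      x ^ k * f s * (x ^ k)⁻¹ := by
    intro k
    induction k with
    | zero =>
      intro s
      rw [pow_zero, pow_zero]
      show f s = 1 * f s * 1⁻¹
      rw [one_mul, inv_one, mul_one]
    | succ k ih =>
      intro s
      have e1 : (σ ^ (k + 1) : Function.End (ZMod p)) s = σ ((σ ^ k : Function.End (ZMod p)) s) := by
        rw [pow_succ']
        rfl
      rw [e1, hσ, ih, pow_succ']
      group
  have hxp : x ^ p = 1 := by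
    refine Equiv.ext fun s => ?_
    rw [hxk, ZMod.natCast_self, add_zero]
    rfl
  have hσp : σ ^ p ^ 1 = 1 := by
    rw [pow_one]
    funext s
    have e1 := hσk p s
    rw [hxp, one_mul, inv_one, mul_one] at e1
    have e2 := congrArg (fun g : Perm (ZMod p) => g 0) e1
    simp only [hf0] at e2
    exact e2
  have hcard := card_fixedPoints_modEq hσp
  rw [ZMod.card] at hcard
  have hσ0 : σ 0 = 0 := by
    have e1 : f 0 = 1 := by
      have := huniq 1 A.one_mem
      rwa [Perm.one_apply] at this
    show (x * f 0 * x⁻¹) 0 = 0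
    rw [e1, mul_one, mul_inv_cancel, Perm.one_apply]
  have hall : ∀ s, σ s = s := by
    have hdvd : p ∣ Fintype.card (Function.fixedPoints σ) :=
      (Nat.modEq_zero_iff_dvd).1 ((hcard.symm).trans ((Nat.modEq_zero_iff_dvd).2 dvd_rfl))
    have hpos : 0 < Fintype.card (Function.fixedPoints σ) :=
      Fintype.card_pos_iff.2 ⟨⟨0, hσ0⟩⟩
    have hle := Nat.le_of_dvd hpos hdvd
    have hle2 : Fintype.card (Function.fixedPoints σ) ≤ p := by
      have := Fintype.card_subtype_le (fun s => s ∈ Function.fixedPoints σ)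
      rwa [ZMod.card] at this
    have heq : Fintype.card (Function.fixedPoints σ) = Fintype.card (ZMod p) := by
      rw [ZMod.card]
      omega
    intro s
    by_contra hs
    have hlt : Fintype.card (Function.fixedPoints σ) < Fintype.card (ZMod p) :=
      Fintype.card_subtype_lt (p := fun s => s ∈ Function.fixedPoints σ) (x := s) hs
    omega
  have hcx : ∀ a ∈ A, x * a = a * x := by
    intro a ha
    have e1 := hσ (a 0)
    rw [hall, huniq a ha] at e1
    have e2 := congrArg (fun g => g * x) e1
    simp only [inv_mul_cancel_right] at e2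
    exact e2.symm
  have hxA : x ∈ A := by
    have h1 : x⁻¹ * f 1 = 1 := by
      apply hfix
      · intro a ha
        have e1 := hcx a ha
        have e2 := hc a ha (f 1) (hf 1)
        have e3 : x⁻¹ * a = a * x⁻¹ := by
          rw [inv_mul_eq_iff_eq_mul, ← mul_assoc, e1, mul_inv_cancel_right]
        rw [mul_assoc, ← e2, ← mul_assoc, e3, mul_assoc]
      · rw [Perm.mul_apply, hf0, Perm.inv_eq_iff_eq, hxs, zero_add]
    rw [inv_mul_eq_one] at h1
    rw [h1]
    exact hf 1
  -- elements of `A` are translations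
  have htrans : ∀ a ∈ A, ∀ s, a s = s + a 0 := by
    intro a ha s
    have h1 : ∀ n : ℕ, a (n : ZMod p) = n + a 0 := by
      intro n
      induction n with
      | zero => simp
      | succ n ih =>
        have e1 := congrArg (fun g : Perm (ZMod p) => g (n : ZMod p)) (hcx a ha)
        simp only [Perm.mul_apply, hxs] at e1
        push_cast
        rw [← e1, ih]
        ring
    have h2 := h1 s.val
    rwa [ZMod.natCast_zmod_val] at h2
  -- conclusion
  set c : ZMod p := (h * x * h⁻¹) 0 with hcdef
  have h1 : ∀ s, h (s + 1) = h s + c := by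
    intro s
    have e1 := htrans _ (hn h hh x hxA) (h s)
    have e0 : h⁻¹ (h s) = s := h.symm_apply_apply s
    rw [← hcdef, Perm.mul_apply, Perm.mul_apply, e0, hxs] at e1
    exact e1
  have h2 : ∀ n : ℕ, h (n : ZMod p) = c * n + h 0 := by
    intro n
    induction n with
    | zero => simp
    | succ n ih =>
      push_cast
      rw [h1, ih]
      ring
  refine ⟨c, h 0, ?_, ?_⟩
  · intro h0
    have e1 := h1 0
    rw [h0, add_zero, zero_add] at e1
    exact one_ne_zero (h.injective e1)
  · intro s
    have e1 := h2 s.val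
    rwa [ZMod.natCast_zmod_val] at e1

end Pool.Agent.ALT32
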