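import Mathlib

/-!
# ALT32/LowerH: an element of `Alt(p + 1)` at distance at least three

`Y = g X g⁻¹` with `X` the `p`-cycle and `g = (none 0 1)`: no nontrivial `m` generates soluble groups
with both, if a soluble group of prime degree that contains the translation is affine (`hA`) and a
soluble group that contains `X` fixes `none` (`hF`).
-/

set_option autoImplicit false

namespace Pool.Agent.ALT32

open Equiv Equiv.Perm

/-- the permutations of `ZMod p` as permutations of `Option (ZMod p)` -/
def LowerP1_hom (β : Type*) : Perm β →* Perm (Option β) where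
  toFun e := optionCongr e
  map_one' := by
    ext x
    cases x <;> simp
  map_mul' e f := by
    ext x
    cases x <;> simp

theorem LowerP1_hom_inj (β : Type*) : Function.Injective (LowerP1_hom β) := by
  intro e f h
  ext x
  have h1 := DFunLike.congr_fun h (some x)
  have h2 : some (e x) = some (f x) := h1
  exact Option.some_injective _ h2

/-- conjugation keeps solubility -/
theorem LowerP1_conj {G : Type*} [Group G] (x m g : G)
    (h : Group.IsSolvable (Subgroup.closure {g * x * g⁻¹, m})) :
    Group.IsSolvable (Subgroup.closure {x, g⁻¹ * m * g}) := by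
  have e1 : (Subgroup.closure {x, g⁻¹ * m * g}).map (MulAut.conj g).toMonoidHom =
      Subgroup.closure {g * x * g⁻¹, m} := by
    rw [MonoidHom.map_closure]
    congr 1
    rw [Set.image_pair]
    congr 1
    · show ({g * (g⁻¹ * m * g) * g⁻¹} : Set G) = {m}
      congr 1
      group
  have h1 : Group.IsSolvable
      ((Subgroup.closure {x, g⁻¹ * m * g}).map (MulAut.conj g).toMonoidHom) := by
    rw [e1]
    exact h
  have f := (Subgroup.closure {x, g⁻¹ * m * g}).equivMapOfInjective
    (MulAut.conj g).toMonoidHom (MulAut.conj g).injective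
  have hinj : Function.Injective f.toMonoidHom := f.injective
  exact Group.isSolvable_of_isSolvable_injective hinj

theorem lower_p1_of {p : ℕ} [Fact p.Prime] (hp7 : 7 ≤ p)
    (hA : ∀ (H : Subgroup (Perm (ZMod p))), Group.IsSolvable H →
      Equiv.addRight (1 : ZMod p) ∈ H → ∀ {h : Perm (ZMod p)}, h ∈ H →
        ∃ a b : ZMod p, a ≠ 0 ∧ ∀ s, h s = a * s + b)
    (hF : ∀ (H : Subgroup (Perm (Option (ZMod p)))), Group.IsSolvable H →
      optionCongr (Equiv.addRight (1 : ZMod p)) ∈ H → ∀ {h : Perm (Option (ZMod p))}, h ∈ H →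
        h none = none) :
    ∃ y : Perm (Option (ZMod p)), y ≠ 1 ∧ ∀ m : Perm (Option (ZMod p)), m ≠ 1 →
      ¬ (Group.IsSolvable (Subgroup.closure {optionCongr (Equiv.addRight (1 : ZMod p)), m}) ∧
        Group.IsSolvable (Subgroup.closure {y, m})) := by
  -- a partner of `X` is affine
  have key : ∀ m : Perm (Option (ZMod p)),
      Group.IsSolvable (Subgroup.closure {optionCongr (Equiv.addRight (1 : ZMod p)), m}) →
      m none = none ∧ ∃ a b : ZMod p, a ≠ 0 ∧ ∀ s, m (some s) = some (a * s + b) := by
    intro m hm
    have hmn : m none = none := hF _ hm (Subgroup.subset_closure (Or.inl rfl))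
      (Subgroup.subset_closure (Or.inr rfl))
    refine ⟨hmn, ?_⟩
    have hm2 : optionCongr (removeNone m) = m := by
      rw [map_equiv_removeNone, hmn, swap_self]
      rfl
    have e1 : (Subgroup.closure {Equiv.addRight (1 : ZMod p), removeNone m}).map
        (LowerP1_hom (ZMod p)) =
        Subgroup.closure {optionCongr (Equiv.addRight (1 : ZMod p)), m} := by
      rw [MonoidHom.map_closure, Set.image_pair]
      congr 1
      show {optionCongr (Equiv.addRight (1 : ZMod p)), optionCongr (removeNone m)} = _
      rw [hm2]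
    have h1 : Group.IsSolvable
        ((Subgroup.closure {Equiv.addRight (1 : ZMod p), removeNone m}).map
          (LowerP1_hom (ZMod p))) := by
      rw [e1]
      exact hm
    have f := (Subgroup.closure {Equiv.addRight (1 : ZMod p), removeNone m}).equivMapOfInjective
      (LowerP1_hom (ZMod p)) (LowerP1_hom_inj _)
    have hinj : Function.Injective f.toMonoidHom := f.injective
    have h2 := Group.isSolvable_of_isSolvable_injective hinj
    obtain ⟨a, b, ha, hab⟩ := hA _ h2 (Subgroup.subset_closure (Or.inl rfl))
      (h := removeNone m) (Subgroup.subset_closure (Or.inr rfl))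
    refine ⟨a, b, ha, fun s => ?_⟩
    rw [← hab s]
    conv_lhs => rw [← hm2]
    rfl
  have h01 : (0 : ZMod p) ≠ 1 := zero_ne_one
  obtain ⟨g, hg⟩ : ∃ g : Perm (Option (ZMod p)),
      g = swap none (some 0) * swap (some 0) (some 1) := ⟨_, rfl⟩
  have i0 : swap (some (0 : ZMod p)) (some 1) none = none :=
    swap_apply_of_ne_of_ne (by simp) (by simp)
  have g0 : g none = some 0 := by
    rw [hg, Perm.mul_apply, i0, swap_apply_left]
  have i1 : swap (some (0 : ZMod p)) (some 1) (some 0) = some 1 := swap_apply_left _ _
  have g1 : g (some 0) = some 1 := by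
    rw [hg, Perm.mul_apply, i1]
    exact swap_apply_of_ne_of_ne (by simp) (by simp)
  have gs : ∀ s : ZMod p, s ≠ 0 → s ≠ 1 → g (some s) = some s := by
    intro s h0 h1
    have i2 : swap (some (0 : ZMod p)) (some 1) (some s) = some s :=
      swap_apply_of_ne_of_ne (by simpa using h0) (by simpa using h1)
    rw [hg, Perm.mul_apply, i2]
    exact swap_apply_of_ne_of_ne (by simp) (by simpa using h0)
  set X : Perm (Option (ZMod p)) := optionCongr (Equiv.addRight (1 : ZMod p)) with hX
  have hX1 : X ≠ 1 := by
    intro h
    have h2 := DFunLike.congr_fun h (some 0)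
    rw [hX] at h2
    simp at h2
  refine ⟨g * X * g⁻¹, ?_, ?_⟩
  · intro h
    apply hX1
    have h2 : X = g⁻¹ * (g * X * g⁻¹) * g := by group
    rw [h2, h]
    group
  · rintro m hm ⟨h1, h2⟩
    obtain ⟨n1, a, b, ha, hab⟩ := key m h1
    obtain ⟨n2, a', b', ha', hab'⟩ := key (g⁻¹ * m * g) (LowerP1_conj X m g h2)
    have hm0 : m (some 0) = some 0 := by
      rw [Perm.mul_apply, Perm.mul_apply, g0, Perm.inv_eq_iff_eq, g0] at n2
      exact n2
    have hb : b = 0 := by
      have h3 := hab 0
      rw [hm0, mul_zero, zero_add] at h3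
      exact (Option.some_injective _ h3).symm
    subst hb
    have hag : ∀ s : ZMod p, s ≠ 0 → s ≠ 1 → a * s ≠ 1 → a' * s + b' = a * s := by
      intro s hs0 hs1 hs2
      have h3 := hab' s
      rw [Perm.mul_apply, Perm.mul_apply, gs s hs0 hs1, hab, add_zero, Perm.inv_eq_iff_eq] at h3
      have hne : a * s ≠ 0 := mul_ne_zero ha hs0
      by_contra hcon
      -- `g (some (a' s + b')) = some (a s)`, and `g` fixes `some (a s)`
      have h4 : g (some (a' * s + b')) = g (some (a * s)) := by
        rw [gs _ hne hs2]
        exact h3.symm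
      exact hcon (Option.some_injective _ (g.injective h4))
    have hcard : ∀ S : Finset (ZMod p), S.card ≤ 4 → ∃ s, s ∉ S := by
      intro S hS
      by_contra hcon
      push Not at hcon
      have h3 : (Finset.univ : Finset (ZMod p)) ⊆ S := fun s _ => hcon s
      have h4 := Finset.card_le_card h3
      rw [Finset.card_univ, ZMod.card] at h4
      omega
    obtain ⟨s1, hs1⟩ := hcard {0, 1, a⁻¹} (le_trans Finset.card_le_three (by norm_num))
    obtain ⟨s2, hs2⟩ := hcard {0, 1, a⁻¹, s1} Finset.card_le_four
    simp only [Finset.mem_insert, Finset.mem_singleton, not_or] at hs1 hs2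
    have hinv : ∀ s : ZMod p, s ≠ a⁻¹ → a * s ≠ 1 := by
      intro s hs h3
      exact hs (eq_inv_of_mul_eq_one_right h3)
    have q1 := hag s1 hs1.1 hs1.2.1 (hinv s1 hs1.2.2)
    have q2 := hag s2 hs2.1 hs2.2.1 (hinv s2 hs2.2.2.1)
    have haa : a' = a := by
      have h3 : (a' - a) * (s2 - s1) = 0 := by linear_combination q2 - q1
      rcases mul_eq_zero.1 h3 with h4 | h4
      · exact sub_eq_zero.1 h4
      · exact absurd (sub_eq_zero.1 h4) hs2.2.2.2
    have hbb : b' = 0 := by
      rw [haa] at q1
      linear_combination q1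
    have hcomm : m (g (some 0)) = g (m (some 0)) := by
      have h3 := hab' 0
      rw [haa, hbb, mul_zero, add_zero, Perm.mul_apply, Perm.mul_apply, Perm.inv_eq_iff_eq] at h3
      rw [h3, hm0]
    rw [g1, hm0, g1, hab 1, mul_one, add_zero] at hcomm
    have ha1 : a = 1 := Option.some_injective _ hcomm
    apply hm
    ext x
    cases x with
    | none => rw [n1]; rfl
    | some x => rw [hab x, ha1, one_mul, add_zero]; rfl

end Pool.Agent.ALT32
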