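import Mathlib
import Pool.Agent.ALT32.Galois

/-!
# The soluble graph of the symmetric group of prime degree has diameter at least 3

`g = (0 1 2)`, `y = g X g⁻¹`.  If `⟨X, m⟩` and `⟨y, m⟩` are solvable then `m` and `g⁻¹ m g` are
affine.  For `p ≥ 11` they agree at two points, so they are equal, `m` commutes with `g`, and
`m = 1`.  For `p = 7` by a finite check.
-/

set_option autoImplicit false

namespace Pool.Agent.ALT32

open Equiv Equiv.Perm

/-- Solvability is invariant under conjugation. -/
theorem lowP_conj {G : Type*} [Group G] (g x m : G)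
    (h : Group.IsSolvable (Subgroup.closure {g * x * g⁻¹, m})) :
    Group.IsSolvable (Subgroup.closure {x, g⁻¹ * m * g}) := by
  have h1 : (Subgroup.closure {g * x * g⁻¹, m}).map (MulAut.conj g⁻¹).toMonoidHom =
      Subgroup.closure {x, g⁻¹ * m * g} := by
    rw [MonoidHom.map_closure, Set.image_pair]
    simp [mul_assoc]
  rw [← h1]
  have := h
  exact Group.isSolvable_of_surjective
    (MonoidHom.subgroupMap_surjective (MulAut.conj g⁻¹).toMonoidHom
      (Subgroup.closure {g * x * g⁻¹, m}))

/-- The 3-cycle `(0 1 2)`. -/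
def lowG (p : ℕ) : Perm (ZMod p) := swap 0 1 * swap 1 2

theorem lowG_apply {p : ℕ} [Fact p.Prime] (hp7 : 7 ≤ p) (s : ZMod p) :
    lowG p s = if s = 0 then 1 else if s = 1 then 2 else if s = 2 then 0 else s := by
  have h10 : (1 : ZMod p) ≠ 0 := one_ne_zero
  have hn : ∀ k : ℕ, 0 < k → k < p → ((k : ℕ) : ZMod p) ≠ 0 := by
    intro k hk0 hk h
    rw [ZMod.natCast_eq_zero_iff] at h
    have := Nat.le_of_dvd hk0 h
    omega
  have h20 : (2 : ZMod p) ≠ 0 := by exact_mod_cast hn 2 (by norm_num) (by omega)
  have h21 : (2 : ZMod p) ≠ 1 := by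
    intro h
    apply h10
    linear_combination h
  unfold lowG
  rw [Perm.mul_apply]
  split_ifs with h0 h1 h2
  · rw [h0, swap_apply_of_ne_of_ne h10.symm h20.symm, swap_apply_left]
  · rw [h1, swap_apply_left, swap_apply_of_ne_of_ne h20 h21]
  · rw [h2, swap_apply_right, swap_apply_right]
  · rw [swap_apply_of_ne_of_ne h1 h2, swap_apply_of_ne_of_ne h0 h1]

/-- The finite check for `p = 7`. -/
theorem low7 : ∀ a b a' b' : ZMod 7, a ≠ 0 →
    (∀ s : ZMod 7, a * (if s = 0 then 1 else if s = 1 then 2 else if s = 2 then 0 else s) + b =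
      (if a' * s + b' = 0 then 1 else if a' * s + b' = 1 then 2 else
        if a' * s + b' = 2 then 0 else a' * s + b')) → a = 1 ∧ b = 0 := by
  decide +kernel

theorem low11 {p : ℕ} [Fact p.Prime] (hp8 : 8 ≤ p) (a b a' b' : ZMod p) (ha : a ≠ 0)
    (ha' : a' ≠ 0) (h : ∀ s, a * lowG p s + b = lowG p (a' * s + b')) : a = 1 ∧ b = 0 := by
  classical
  have hp7 : 7 ≤ p := by omega
  have h30 : (3 : ZMod p) ≠ 0 := by
    intro h3
    have h3' : ((3 : ℕ) : ZMod p) = 0 := by exact_mod_cast h3
    rw [ZMod.natCast_eq_zero_iff] at h3'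
    have := Nat.le_of_dvd (by norm_num) h3'
    omega
  have hg := lowG_apply hp7
  let T : Finset (ZMod p) := {0, 1, 2}
  have hT : T.card ≤ 3 := Finset.card_le_three
  have hgT : ∀ s, s ∉ T → lowG p s = s := by
    intro s hs
    simp only [T, Finset.mem_insert, Finset.mem_singleton, not_or] at hs
    rw [hg, if_neg hs.1, if_neg hs.2.1, if_neg hs.2.2]
  let B : Finset (ZMod p) := T ∪ T.image fun t => (t - b') / a'
  have hB : B.card ≤ 6 := by
    have h1 := Finset.card_union_le T (T.image fun t => (t - b') / a')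
    have h2 : (T.image fun t => (t - b') / a').card ≤ T.card := Finset.card_image_le
    simp only [B]
    omega
  have hcard : 1 < (Finset.univ \ B).card := by
    have h1 := Finset.le_card_sdiff B (Finset.univ : Finset (ZMod p))
    rw [Finset.card_univ, ZMod.card] at h1
    omega
  obtain ⟨s₁, hs₁, s₂, hs₂, hne⟩ := Finset.one_lt_card.1 hcard
  have hag : ∀ s ∈ Finset.univ \ B, a * s + b = a' * s + b' := by
    intro s hs
    have hsB := (Finset.mem_sdiff.1 hs).2
    have h1 : s ∉ T := fun h1 => hsB (Finset.mem_union_left _ h1)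
    have h2 : a' * s + b' ∉ T := by
      intro h2
      refine hsB (Finset.mem_union_right _ (Finset.mem_image.2 ⟨_, h2, ?_⟩))
      field_simp
      ring
    have h3 := h s
    rwa [hgT s h1, hgT _ h2] at h3
  have e1 := hag s₁ hs₁
  have e2 := hag s₂ hs₂
  have haa : a = a' := by
    have h1 : (a - a') * (s₁ - s₂) = 0 := by linear_combination e1 - e2
    rcases mul_eq_zero.1 h1 with h2 | h2
    · exact sub_eq_zero.1 h2
    · exact absurd (sub_eq_zero.1 h2) hne
  have hbb : b = b' := by
    rw [haa] at e1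
    exact add_left_cancel e1
  rw [← haa, ← hbb] at h
  have k0 := h 0
  have k1 := h 1
  have hg0 : lowG p 0 = 1 := by rw [hg, if_pos rfl]
  have hg1 : lowG p 1 = 2 := by rw [hg, if_neg one_ne_zero, if_pos rfl]
  have h21 : (2 : ZMod p) ≠ 1 := by
    intro h2
    apply one_ne_zero (α := ZMod p)
    linear_combination h2
  have h20 : (2 : ZMod p) ≠ 0 := by
    intro h2
    have h2' : ((2 : ℕ) : ZMod p) = 0 := by exact_mod_cast h2
    rw [ZMod.natCast_eq_zero_iff] at h2'
    have := Nat.le_of_dvd (by norm_num) h2'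
    omega
  have hg2 : lowG p 2 = 0 := by rw [hg, if_neg h20, if_neg h21, if_pos rfl]
  rw [hg0, mul_zero, zero_add, mul_one] at k0
  rw [hg1, mul_one] at k1
  by_cases b0 : b = 0
  · rw [b0, hg0, add_zero] at k0
    exact ⟨k0, b0⟩
  · by_cases b1 : b = 1
    · rw [b1, hg1] at k0
      rw [b1, k0, hg2] at k1
      exact absurd (by linear_combination k1 - 2 * k0) h30
    · by_cases b2 : b = 2
      · rw [b2, hg2] at k0
        rw [b2, k0, hg0] at k1
        exact absurd (by linear_combination 2 * k0 - k1) h30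
      · rw [hg b, if_neg b0, if_neg b1, if_neg b2] at k0
        exact absurd (by linear_combination k0) ha

theorem lower_p {p : ℕ} [Fact p.Prime] (hp7 : 7 ≤ p) :
    ∃ y : Perm (ZMod p), y ≠ 1 ∧ ∀ m : Perm (ZMod p), m ≠ 1 →
      ¬ (Group.IsSolvable (Subgroup.closure {Equiv.addRight (1 : ZMod p), m}) ∧
        Group.IsSolvable (Subgroup.closure {y, m})) := by
  refine ⟨lowG p * Equiv.addRight (1 : ZMod p) * (lowG p)⁻¹, ?_, ?_⟩
  · intro h
    have h1 : (Equiv.addRight (1 : ZMod p) : Perm (ZMod p)) = 1 := by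
      rw [mul_inv_eq_one] at h
      exact mul_left_cancel (a := lowG p) (by rw [h, mul_one])
    have h2 := DFunLike.congr_fun h1 0
    simp at h2
  · rintro m hm ⟨h1, h2⟩
    obtain ⟨a, b, ha, hab⟩ := affine_of_solvable _ h1
      (Subgroup.subset_closure (Set.mem_insert _ _))
      (Subgroup.subset_closure (Set.mem_insert_of_mem _ rfl))
    obtain ⟨a', b', ha', hab'⟩ := affine_of_solvable _ (lowP_conj _ _ _ h2)
      (Subgroup.subset_closure (Set.mem_insert _ _))
      (Subgroup.subset_closure (Set.mem_insert_of_mem _ rfl))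
    have h3 : ∀ s, a * lowG p s + b = lowG p (a' * s + b') := by
      intro s
      have e1 := hab (lowG p s)
      have e2 := hab' s
      rw [Perm.mul_apply, Perm.mul_apply, Perm.inv_eq_iff_eq] at e2
      rw [← e1, e2]
    have h4 : a = 1 ∧ b = 0 := by
      rcases Nat.lt_or_ge p 8 with hp | hp
      · have hp : p = 7 := by omega
        subst hp
        refine low7 a b a' b' ha fun s => ?_
        have := h3 s
        rwa [lowG_apply hp7, lowG_apply hp7] at this
      · exact low11 hp a b a' b' ha ha' h3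
    apply hm
    ext s
    rw [hab, h4.1, h4.2]
    simp

end Pool.Agent.ALT32
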