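import Pool.Agent.ALT32.Galois

/-!
# ALT32/TwoTrans: solvable groups of degree `p + 1` containing a `p`-cycle

If `p + 1` is not a power of `2`, then a solvable group of permutations of `Option (ZMod p)` which
contains the `p`-cycle fixes `none`. Otherwise let `A` be the commutative normal subgroup of
`exists_abelian`: it is transitive, hence regular, its nontrivial elements are conjugate under the
powers of the `p`-cycle, and `p + 1` is even, so `A` is an elementary abelian `2`-group.
-/

set_option autoImplicit false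

namespace Pool.Agent.ALT32

open Equiv Equiv.Perm

theorem fixes_none {p : ℕ} [Fact p.Prime] (hp3 : 3 ≤ p) (hpow : ∀ k : ℕ, p + 1 ≠ 2 ^ k)
    (H : Subgroup (Perm (Option (ZMod p)))) (hH : Group.IsSolvable H)
    (hx : optionCongr (Equiv.addRight (1 : ZMod p)) ∈ H) {h : Perm (Option (ZMod p))}
    (hh : h ∈ H) : h none = none := by
  classical
  have hp : p.Prime := Fact.out
  set x : Perm (Option (ZMod p)) := optionCongr (Equiv.addRight (1 : ZMod p)) with hxdef
  have hxn : x none = none := rfl
  have hxs : ∀ s, x (some s) = some (s + 1) := fun s => rfl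
  have hxk : ∀ (k : ℕ) (s : ZMod p), (x ^ k) (some s) = some (s + k) := by
    intro k
    induction k with
    | zero => intro s; simp
    | succ k ih =>
      intro s
      rw [pow_succ', Perm.mul_apply, ih, hxs]
      push_cast
      rw [add_assoc]
  have hxk0 : ∀ k : ℕ, (x ^ k) none = none := by
    intro k
    induction k with
    | zero => rfl
    | succ k ih => rw [pow_succ', Perm.mul_apply, ih, hxn]
  have hxki : ∀ k : ℕ, (x ^ k)⁻¹ none = none := by
    intro k
    rw [Perm.inv_eq_iff_eq, hxk0]
  have hne : H ≠ ⊥ := by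
    intro h0
    rw [h0, Subgroup.mem_bot] at hx
    have h1 := hxs 0
    rw [hx, Perm.one_apply, zero_add] at h1
    exact zero_ne_one (Option.some_injective _ h1)
  obtain ⟨A, hAH, hA, hc, hn⟩ := exists_abelian H hH hne
  by_contra hcon
  obtain ⟨k0, hk0⟩ : ∃ k0, h none = some k0 := Option.ne_none_iff_exists'.1 hcon
  -- conjugation by the inverse
  have hn' : ∀ g ∈ H, ∀ a ∈ A, g⁻¹ * a * g ∈ A := by
    intro g hg a ha
    have := hn g⁻¹ (H.inv_mem hg) a ha
    rwa [inv_inv] at this
  -- some element of `A` moves `none`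
  obtain ⟨a, ha, i, hi⟩ : ∃ a ∈ A, ∃ i, a none = some i := by
    by_contra hall
    apply hA
    rw [eq_bot_iff]
    intro a ha
    rw [Subgroup.mem_bot]
    have hfix : ∀ b ∈ A, b none = none := by
      intro b hb
      by_contra hbn
      exact hall ⟨b, hb, Option.ne_none_iff_exists'.1 hbn⟩
    have hfix0 : ∀ b ∈ A, b (some k0) = some k0 := by
      intro b hb
      have h1 := hfix _ (hn' h hh b hb)
      rw [Perm.mul_apply, Perm.mul_apply, Perm.inv_eq_iff_eq, hk0] at h1
      exact h1.symm ▸ rfl
    ext1 s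
    rw [Perm.one_apply]
    rcases s with _ | j
    · exact hfix a ha
    · have h1 := hfix0 _ (hn' _ (H.pow_mem hx (j - k0).val) a ha)
      rw [Perm.mul_apply, Perm.mul_apply, Perm.inv_eq_iff_eq, hxk, ZMod.natCast_zmod_val,
        add_sub_cancel] at h1
      exact h1
  -- `A` is transitive
  have htr : ∀ (b : Perm (Option (ZMod p))) (i j : ZMod p), b ∈ A → b none = some i →
      (x ^ (j - i).val * b * (x ^ (j - i).val)⁻¹) none = some j := by
    intro b i j hb hbi
    rw [Perm.mul_apply, Perm.mul_apply, hxki, hbi, hxk, ZMod.natCast_zmod_val, add_sub_cancel]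
  have htr' : ∀ s, ∃ b ∈ A, b none = s := by
    rintro (_ | j)
    · exact ⟨1, A.one_mem, rfl⟩
    · exact ⟨_, hn _ (H.pow_mem hx (j - i).val) a ha, htr a i j ha hi⟩
  -- `A` is regular
  have huniq : ∀ b ∈ A, ∀ c ∈ A, b none = c none → b = c := by
    intro b hb c hcA hbc
    have h1 : ∀ s, (c⁻¹ * b) s = s := by
      intro s
      obtain ⟨d, hd, rfl⟩ := htr' s
      have h2 : (c⁻¹ * b) (d none) = ((c⁻¹ * b) * d) none := rfl
      rw [h2, hc _ (A.mul_mem (A.inv_mem hcA) hb) d hd, Perm.mul_apply, Perm.mul_apply, hbc]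
      rw [← Perm.mul_apply c⁻¹ c, inv_mul_cancel, Perm.one_apply]
    have h3 : c⁻¹ * b = 1 := Equiv.ext h1
    exact (inv_mul_eq_one.1 h3).symm
  have hcard : Nat.card A = p + 1 := by
    have hb : Function.Bijective (fun b : A => (b : Perm (Option (ZMod p))) none) := by
      constructor
      · intro b c hbc
        exact Subtype.ext (huniq b b.2 c c.2 hbc)
      · intro s
        obtain ⟨b, hb, hbs⟩ := htr' s
        exact ⟨⟨b, hb⟩, hbs⟩
    rw [Nat.card_eq_of_bijective _ hb, Nat.card_eq_fintype_card, Fintype.card_option, ZMod.card]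
  -- an involution
  have h2 : 2 ∣ Nat.card A := by
    rw [hcard]
    rcases hp.eq_two_or_odd with h' | h'
    · omega
    · omega
  have : Fact (Nat.Prime 2) := ⟨Nat.prime_two⟩
  obtain ⟨t, ht⟩ := exists_prime_orderOf_dvd_card' (G := A) 2 h2
  have ht1 : (t : Perm (Option (ZMod p))) ≠ 1 := by
    intro h0
    have : t = 1 := Subtype.ext h0
    rw [this, orderOf_one] at ht
    omega
  have htt : (t : Perm (Option (ZMod p))) * t = 1 := by
    have h3 : t ^ 2 = 1 := by rw [← ht, pow_orderOf_eq_one]
    rw [pow_two] at h3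
    exact congrArg Subtype.val h3
  obtain ⟨i', hi'⟩ : ∃ i', (t : Perm (Option (ZMod p))) none = some i' := by
    apply Option.ne_none_iff_exists'.1
    intro h0
    exact ht1 (huniq _ t.2 1 A.one_mem h0)
  have hall : ∀ b : A, b ^ 2 = 1 := by
    intro b
    by_cases hb1 : (b : Perm (Option (ZMod p))) = 1
    · have : b = 1 := Subtype.ext hb1
      rw [this, one_pow]
    obtain ⟨j, hj⟩ : ∃ j, (b : Perm (Option (ZMod p))) none = some j := by
      apply Option.ne_none_iff_exists'.1
      intro h0
      exact hb1 (huniq _ b.2 1 A.one_mem h0)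
    have h3 : (b : Perm (Option (ZMod p))) =
        x ^ (j - i').val * (t : Perm (Option (ZMod p))) * (x ^ (j - i').val)⁻¹ := by
      apply huniq _ b.2 _ (hn _ (H.pow_mem hx _) _ t.2)
      rw [hj, htr _ i' j t.2 hi']
    apply Subtype.ext
    rw [pow_two]
    change (b : Perm (Option (ZMod p))) * b = 1
    rw [h3]
    calc x ^ (j - i').val * (t : Perm (Option (ZMod p))) * (x ^ (j - i').val)⁻¹ *
          (x ^ (j - i').val * (t : Perm (Option (ZMod p))) * (x ^ (j - i').val)⁻¹)
        = x ^ (j - i').val * ((t : Perm (Option (ZMod p))) * t) * (x ^ (j - i').val)⁻¹ := by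
          group
      _ = 1 := by rw [htt]; group
  have hP : IsPGroup 2 A := by
    intro b
    exact ⟨1, by rw [pow_one]; exact hall b⟩
  obtain ⟨k, hk⟩ := (IsPGroup.iff_card).1 hP
  rw [hcard] at hk
  exact hpow k hk

end Pool.Agent.ALT32
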