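import Mathlib
import Pool.Agent.ALT32.Galois
import Pool.Agent.ALT32.TwoTrans
import Pool.Agent.ALT32.LowerH

/-!
# The soluble graph of the symmetric group of degree `p + 1` has diameter at least 3

Here `p ≥ 7` is a prime and `p + 1` is not a power of two.
-/

set_option autoImplicit false

namespace Pool.Agent.ALT32

open Equiv Equiv.Perm

theorem lower_p1 {p : ℕ} [Fact p.Prime] (hp7 : 7 ≤ p) (hpow : ∀ k : ℕ, p + 1 ≠ 2 ^ k) :
    ∃ y : Perm (Option (ZMod p)), y ≠ 1 ∧ ∀ m : Perm (Option (ZMod p)), m ≠ 1 →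
      ¬ (Group.IsSolvable (Subgroup.closure {optionCongr (Equiv.addRight (1 : ZMod p)), m}) ∧
        Group.IsSolvable (Subgroup.closure {y, m})) :=
  lower_p1_of hp7 (fun H hH hx _ hh => affine_of_solvable H hH hx hh)
    (fun H hH hx _ hh => fixes_none (by omega) hpow H hH hx hh)

end Pool.Agent.ALT32
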