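import Mathlib

/-!
# Solvability of some two-generator subgroups
-/

set_option autoImplicit false

namespace Pool.Agent.ALT32

theorem solv_of_hom {H Q : Type*} [Group H] [Group Q] (f : H →* Q) (hk : Group.IsSolvable f.ker)
    (hr : Group.IsSolvable f.range) : Group.IsSolvable H :=
  Group.isSolvable_of_ker_le_range f.ker.subtype f.rangeRestrict (by
    rw [MonoidHom.ker_rangeRestrict]; simp)

theorem solv_mono {G : Type*} [Group G] {A B : Subgroup G} (h : A ≤ B) (hB : Group.IsSolvable B) :
    Group.IsSolvable A := by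
  have := hB
  exact Group.isSolvable_of_isSolvable_injective (f := Subgroup.inclusion h)
    (Subgroup.inclusion_injective h)

theorem solv_zpowers {G : Type*} [Group G] (g : G) :
    Group.IsSolvable (Subgroup.zpowers g) :=
  Group.isSolvable_of_comm fun a b => by
    obtain ⟨_, k, rfl⟩ := a
    obtain ⟨_, l, rfl⟩ := b
    apply Subtype.ext
    show g ^ k * g ^ l = g ^ l * g ^ k
    rw [← zpow_add, ← zpow_add, add_comm]

theorem solv_closure {G : Type*} [Group G] (N : Subgroup G) (hN : Group.IsSolvable N) {x t : G}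
    (hx : x ∈ N) (ht : ∀ h ∈ N, t * h * t⁻¹ ∈ N) (ht' : ∀ h ∈ N, t⁻¹ * h * t ∈ N) :
    Group.IsSolvable (Subgroup.closure {x, t}) := by
  have := hN
  set M := Subgroup.normalizer (N : Set G) with hM
  have htM : t ∈ M := by
    rw [hM, Subgroup.mem_normalizer_iff]
    intro h
    refine ⟨ht h, fun hh => ?_⟩
    have := ht' _ hh
    simpa [mul_assoc] using this
  have hxM : x ∈ M := Subgroup.le_normalizer hx
  set H := Subgroup.closure {x, t} with hH
  have hHM : H ≤ M := by
    rw [hH, Subgroup.closure_le]
    rintro g (rfl | rfl)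
    · exact hxM
    · exact htM
  let f : H →* M ⧸ (N.subgroupOf M) := (QuotientGroup.mk' _).comp (Subgroup.inclusion hHM)
  apply solv_of_hom f
  · -- kernel
    have hker : ∀ g : f.ker, ((g : H) : G) ∈ N := by
      intro g
      have h1 := g.2
      rw [MonoidHom.mem_ker] at h1
      have h2 : Subgroup.inclusion hHM g.1 ∈ N.subgroupOf M := by
        rw [← QuotientGroup.eq_one_iff]
        exact h1
      exact h2
    let j : f.ker →* N :=
      { toFun := fun g => ⟨((g : H) : G), hker g⟩
        map_one' := rfl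
        map_mul' := fun _ _ => rfl }
    have hj : Function.Injective j := by
      intro a b hab
      have : ((j a : N) : G) = ((j b : N) : G) := by rw [hab]
      exact Subtype.ext (Subtype.ext this)
    exact Group.isSolvable_of_isSolvable_injective hj
  · -- range
    have hr : f.range ≤ Subgroup.zpowers (QuotientGroup.mk' (N.subgroupOf M) ⟨t, htM⟩) := by
      rintro _ ⟨⟨g, hg⟩, rfl⟩
      have key : ∀ g (hg : g ∈ Subgroup.closure {x, t}), QuotientGroup.mk' (N.subgroupOf M)
          ⟨g, hHM hg⟩ ∈ Subgroup.zpowers (QuotientGroup.mk' (N.subgroupOf M) ⟨t, htM⟩) := by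
        intro g hg
        induction hg using Subgroup.closure_induction with
        | mem a ha =>
          rcases ha with rfl | rfl
          · have : QuotientGroup.mk' (N.subgroupOf M) ⟨a, hxM⟩ = 1 := by
              rw [QuotientGroup.mk'_apply, QuotientGroup.eq_one_iff]
              exact hx
            rw [this]; exact one_mem _
          · exact Subgroup.mem_zpowers _
        | one => exact one_mem _
        | mul a b ha hb iha ihb =>
          have : (⟨a * b, hHM (mul_mem ha hb)⟩ : M) = ⟨a, hHM ha⟩ * ⟨b, hHM hb⟩ := rfl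
          rw [this, map_mul]; exact mul_mem iha ihb
        | inv a ha iha =>
          have : (⟨a⁻¹, hHM (inv_mem ha)⟩ : M) = ⟨a, hHM ha⟩⁻¹ := rfl
          rw [this, map_inv]; exact inv_mem iha
      exact key g hg
    exact solv_mono hr (solv_zpowers _)

theorem solv_pair_comm {G : Type*} [Group G] {x t : G}
    (h : Group.IsSolvable (Subgroup.closure {x, t})) :
    Group.IsSolvable (Subgroup.closure {t, x}) := by
  rwa [Set.pair_comm]

/-- Two involutions generate a solvable group. -/
theorem solv_invol {G : Type*} [Group G] {s t : G} (hs : s * s = 1) (ht : t * t = 1) :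
    Group.IsSolvable (Subgroup.closure {s, t}) := by
  have hs' : s⁻¹ = s := inv_eq_of_mul_eq_one_right hs
  have ht' : t⁻¹ = t := inv_eq_of_mul_eq_one_right ht
  have hconj : ∀ h ∈ Subgroup.zpowers (s * t), t * h * t⁻¹ ∈ Subgroup.zpowers (s * t) := by
    rintro _ ⟨k, rfl⟩
    have h1 : t * (s * t) * t⁻¹ = (s * t)⁻¹ := by
      rw [mul_inv_rev, hs', ht']
      rw [mul_assoc, mul_assoc, ht, mul_one]
    have h2 : t * (s * t) ^ k * t⁻¹ = (t * (s * t) * t⁻¹) ^ k := (conj_zpow).symm
    show t * (s * t) ^ k * t⁻¹ ∈ _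
    rw [h2, h1, inv_zpow]
    exact inv_mem (Subgroup.zpow_mem_zpowers _ _)
  have h := solv_closure (Subgroup.zpowers (s * t)) (solv_zpowers _)
    (Subgroup.mem_zpowers (s * t)) hconj (by
      intro h hh
      have := hconj h hh
      rwa [ht'] at this ⊢)
  refine solv_mono ?_ h
  rw [Subgroup.closure_le]
  rintro g (rfl | rfl)
  · have h1 : (g * t) * t ∈ Subgroup.closure {g * t, t} :=
      mul_mem (Subgroup.subset_closure (Set.mem_insert _ _))
        (Subgroup.subset_closure (Set.mem_insert_of_mem _ rfl))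
    rwa [mul_assoc, ht, mul_one] at h1
  · exact Subgroup.subset_closure (Set.mem_insert_of_mem _ rfl)

/-- If `t` conjugates `x` to a power of `x` and so does `t⁻¹`. -/
theorem solv_normalize {G : Type*} [Group G] {x t : G} {k l : ℤ} (h : t * x * t⁻¹ = x ^ k)
    (h' : t⁻¹ * x * t = x ^ l) : Group.IsSolvable (Subgroup.closure {x, t}) := by
  refine solv_closure (Subgroup.zpowers x) (solv_zpowers _) (Subgroup.mem_zpowers x) ?_ ?_
  · rintro _ ⟨m, rfl⟩
    show t * x ^ m * t⁻¹ ∈ _
    rw [← conj_zpow, h, ← zpow_mul]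
    exact Subgroup.zpow_mem_zpowers _ _
  · rintro _ ⟨m, rfl⟩
    show t⁻¹ * x ^ m * t ∈ _
    have : t⁻¹ * x ^ m * t = (t⁻¹ * x * t) ^ m := by
      have := conj_zpow (a := t⁻¹) (b := x) (i := m)
      rw [inv_inv] at this
      exact this.symm
    rw [this, h', ← zpow_mul]
    exact Subgroup.zpow_mem_zpowers _ _

end Pool.Agent.ALT32
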