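import Mathlib
import Pool.Agent.ALT32.Solv

set_option autoImplicit false

/-!
# Degree `p + 1 = 2 ^ k`: the affine group of the field with `2 ^ k` elements (MP_bb27f7_al)
-/

namespace Pool.Agent.ALT32

open Equiv Equiv.Perm

theorem mers_field (k : ℕ) (hk : 3 ≤ k) {p : ℕ} [Fact p.Prime] (hp : p + 1 = 2 ^ k) :
    ∃ (F : Type) (_ : Field F) (e : Option (ZMod p) ≃ F) (w : F), w ≠ 0 ∧ w ≠ 1 ∧
      (∀ c : F, c + c = 0) ∧ e none = 0 ∧ ∀ s : ZMod p, e (some (s + 1)) = w * e (some s) := by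
  classical
  have : Fact (Nat.Prime 2) := ⟨Nat.prime_two⟩
  have hk0 : k ≠ 0 := by omega
  have hcard : Nat.card (GaloisField 2 k) = 2 ^ k := GaloisField.card 2 k hk0
  have : Finite (GaloisField 2 k) := Nat.finite_of_card_ne_zero (by rw [hcard]; positivity)
  let : Fintype (GaloisField 2 k) := Fintype.ofFinite _
  obtain ⟨ω, hω⟩ := IsCyclic.exists_generator (α := (GaloisField 2 k)ˣ)
  have hord : orderOf ω = p := by
    have h1 : orderOf ω = Nat.card (GaloisField 2 k)ˣ := by
      rw [Nat.card_eq_fintype_card, orderOf_eq_card_of_forall_mem_zpowers hω,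
        Nat.card_eq_fintype_card]
    rw [h1, Nat.card_units, hcard]
    omega
  have hp7 : 7 ≤ p := by
    have h1 : 2 ^ 3 ≤ 2 ^ k := Nat.pow_le_pow_right (by norm_num) hk
    omega
  have hp0 : 0 < p := by omega
  let f : Option (ZMod p) → GaloisField 2 k := fun o => o.elim 0 fun s => ((ω ^ s.val : (GaloisField 2 k)ˣ) : GaloisField 2 k)
  have hf0 : f none = 0 := rfl
  have hfs : ∀ s, f (some s) = ((ω ^ s.val : (GaloisField 2 k)ˣ) : GaloisField 2 k) := fun s => rfl
  have hinj : Function.Injective f := by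
    rintro (_ | s) (_ | t) h
    · rfl
    · rw [hf0, hfs] at h
      exact absurd h.symm (Units.ne_zero _)
    · rw [hf0, hfs] at h
      exact absurd h (Units.ne_zero _)
    · rw [hfs, hfs] at h
      have h1 : ω ^ s.val = ω ^ t.val := Units.ext h
      have h2 : s.val = t.val := by
        apply pow_injOn_Iio_orderOf _ _ h1
        · rw [Set.mem_Iio, hord]
          exact s.val_lt
        · rw [Set.mem_Iio, hord]
          exact t.val_lt
      rw [ZMod.val_injective p h2]
  have hbij : Function.Bijective f := by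
    rw [Fintype.bijective_iff_injective_and_card]
    refine ⟨hinj, ?_⟩
    rw [Fintype.card_option, ZMod.card, hp, ← hcard, Nat.card_eq_fintype_card]
  refine ⟨GaloisField 2 k, inferInstance, Equiv.ofBijective f hbij, (ω : GaloisField 2 k),
    Units.ne_zero _, ?_, ?_, ?_, ?_⟩
  · intro h
    have h1 : ω = 1 := Units.ext h
    rw [h1, orderOf_one] at hord
    omega
  · intro c
    exact CharTwo.add_self_eq_zero c
  · exact hf0
  · intro s
    rw [Equiv.ofBijective_apply, Equiv.ofBijective_apply, hfs, hfs, ← Units.val_mul, ← pow_succ']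
    congr 1
    rw [pow_eq_pow_iff_modEq, hord]
    have h1 : (s + 1).val = (s.val + 1) % p := by
      rw [ZMod.val_add]
      have : Fact (1 < p) := ⟨by omega⟩
      rw [ZMod.val_one]
    rw [h1]
    exact Nat.mod_modEq _ _

theorem mersenne_invol {p k : ℕ} [Fact p.Prime] (hk : 3 ≤ k) (hp : p + 1 = 2 ^ k) :
    ∃ t : Perm (Option (ZMod p)), sign t = 1 ∧ t ≠ 1 ∧ t * t = 1 ∧
      Group.IsSolvable (Subgroup.closure {optionCongr (Equiv.addRight (1 : ZMod p)), t}) := by
  obtain ⟨F, _, e, w, hw0, hw1, hchar, he0, hes⟩ := mers_field k hk hp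
  set x : Perm (Option (ZMod p)) := optionCongr (Equiv.addRight (1 : ZMod p)) with hx
  have hex : ∀ o, e (x o) = w * e o := by
    rintro (_ | s)
    · show e none = w * e none
      rw [he0, mul_zero]
    · exact hes s
  have hex' : ∀ o, e (x⁻¹ o) = w⁻¹ * e o := by
    intro o
    have h1 := hex (x⁻¹ o)
    rw [show x (x⁻¹ o) = o from x.apply_symm_apply o] at h1
    rw [h1, inv_mul_cancel_left₀ hw0]
  let τ : F → Perm (Option (ZMod p)) := fun c => (e.trans (Equiv.addRight c)).trans e.symm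
  have hτ : ∀ c o, e (τ c o) = e o + c := fun c o => e.apply_symm_apply _
  have hτadd : ∀ c d, τ c * τ d = τ (d + c) := by
    intro c d
    ext1 o
    apply e.injective
    rw [Perm.mul_apply, hτ, hτ, hτ, add_assoc]
  have hτ0 : τ 0 = 1 := by
    ext1 o
    apply e.injective
    rw [hτ, add_zero]
    rfl
  have hτinv : ∀ c, (τ c)⁻¹ = τ (-c) := by
    intro c
    rw [inv_eq_iff_mul_eq_one, hτadd, neg_add_cancel, hτ0]
  have hconj : ∀ c, x * τ c * x⁻¹ = τ (w * c) := by
    intro c
    ext1 o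
    apply e.injective
    rw [Perm.mul_apply, Perm.mul_apply, hex, hτ, hex', hτ, mul_add, mul_inv_cancel_left₀ hw0]
  have hconj' : ∀ c, x⁻¹ * τ c * x = τ (w⁻¹ * c) := by
    intro c
    ext1 o
    apply e.injective
    rw [Perm.mul_apply, Perm.mul_apply, hex', hτ, hex, hτ, mul_add, inv_mul_cancel_left₀ hw0]
  let N : Subgroup (Perm (Option (ZMod p))) :=
    { carrier := Set.range τ
      mul_mem' := by
        rintro _ _ ⟨c, rfl⟩ ⟨d, rfl⟩
        exact ⟨d + c, (hτadd c d).symm⟩
      one_mem' := ⟨0, hτ0⟩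
      inv_mem' := by
        rintro _ ⟨c, rfl⟩
        exact ⟨-c, (hτinv c).symm⟩ }
  have hN : Group.IsSolvable N := Group.isSolvable_of_comm fun a b => by
    obtain ⟨_, c, rfl⟩ := a
    obtain ⟨_, d, rfl⟩ := b
    apply Subtype.ext
    show τ c * τ d = τ d * τ c
    rw [hτadd, hτadd, add_comm]
  refine ⟨τ 1, ?_, ?_, ?_, ?_⟩
  · -- the translation is a commutator
    have hd : (w - 1) * (w - 1)⁻¹ = 1 := mul_inv_cancel₀ (sub_ne_zero.2 hw1)
    have h1 : τ 1 = x * τ (w - 1)⁻¹ * x⁻¹ * (τ (w - 1)⁻¹)⁻¹ := by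
      rw [hconj, hτinv, hτadd]
      congr 1
      linear_combination -hd
    rw [h1, Perm.sign_mul, Perm.sign_mul, Perm.sign_mul, Perm.sign_inv, Perm.sign_inv,
      mul_comm (Perm.sign x),
      mul_assoc (Perm.sign _) (Perm.sign x), Int.units_mul_self, mul_one, Int.units_mul_self]
  · intro h
    have h1 := hτ 1 none
    rw [h, he0, zero_add] at h1
    have h2 : e ((1 : Perm (Option (ZMod p))) none) = 0 := he0
    rw [h2] at h1
    exact zero_ne_one h1
  · rw [hτadd, hchar, hτ0]
  · apply solv_pair_comm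
    refine solv_closure N hN ⟨1, rfl⟩ ?_ ?_
    · rintro _ ⟨c, rfl⟩
      exact ⟨w * c, (hconj c).symm⟩
    · rintro _ ⟨c, rfl⟩
      exact ⟨w⁻¹ * c, (hconj' c).symm⟩

end Pool.Agent.ALT32
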