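import Pool.Agent.ALT32.Sym
import Pool.Agent.ALT32.LowerP
import Pool.Agent.ALT32.LowerP1
import Pool.Agent.ALT32.Mersenne

/-!
# The soluble graphs of the symmetric and of the alternating group
-/

set_option autoImplicit false

namespace Pool.Agent.ALT32

open Equiv Equiv.Perm

/-- If `n` is a power of two there are no elements of `A_n` without an even involution next to
them. -/
theorem mers_inv {n k : ℕ} (hk : 3 ≤ k) (hn : n = 2 ^ k) {x : Perm (Fin n)} (hx : Exc x) :
    Inv x := by
  classical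
  obtain ⟨p, hp, hp4, hnp, e, he, hxe⟩ := hx
  have := Fact.mk hp
  have hn2 : n % 2 = 0 := by
    obtain ⟨k, rfl⟩ : ∃ j, k = j + 1 := ⟨k - 1, by omega⟩
    rw [hn, pow_succ]; omega
  have hnp' : n = p + 1 := by omega
  subst hnp'
  obtain ⟨t, ht1, ht2, ht3, ht4⟩ := mersenne_invol hk hn
  obtain ⟨o, ho⟩ : ∃ o : Fin (p + 1), o ∉ Set.range e := by
    by_contra hc
    push Not at hc
    have hs : Function.Surjective e := fun s => hc s
    have h1 := Fintype.card_le_of_surjective e hs
    rw [Fintype.card_fin, ZMod.card] at h1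
    omega
  let F : Option (ZMod p) → Fin (p + 1) := fun s => s.elim o e
  have hF : Function.Bijective F := by
    rw [Fintype.bijective_iff_injective_and_card]
    refine ⟨?_, by rw [Fintype.card_option, ZMod.card, Fintype.card_fin]⟩
    rintro (_ | a) (_ | b) hab
    · rfl
    · exact absurd ⟨b, hab.symm⟩ ho
    · exact absurd ⟨a, hab⟩ ho
    · exact congrArg some (he hab)
  let E : Option (ZMod p) ≃ Fin (p + 1) := Equiv.ofBijective F hF
  have hX : E.permCongrHom (optionCongr (Equiv.addRight (1 : ZMod p))) = x := by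
    ext s
    obtain ⟨r, rfl⟩ := E.surjective s
    have h1 : (E.permCongrHom (optionCongr (Equiv.addRight (1 : ZMod p)))) (E r) =
        E (optionCongr (Equiv.addRight (1 : ZMod p)) r) := by
      show E (optionCongr (Equiv.addRight (1 : ZMod p)) (E.symm (E r))) = _
      rw [Equiv.symm_apply_apply]
    rw [h1]
    rcases r with _ | i
    · show ((o : Fin (p + 1)) : ℕ) = (x o : ℕ)
      rw [exc_fix hp (Or.inr rfl) he hxe o ho]
    · show ((e (i + 1) : Fin (p + 1)) : ℕ) = (x (e i) : ℕ)
      rw [hxe]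
  refine ⟨E.permCongrHom t, ?_, ?_, ?_, ?_⟩
  · have : sign (E.permCongr t) = sign t := sign_permCongr E t
    exact this.trans ht1
  · intro h
    exact ht2 (E.permCongrHom.injective (h.trans (map_one _).symm))
  · rw [← map_mul, ht3, map_one]
  · have := solv_map E.permCongrHom.toMonoidHom ht4
    have e1 : E.permCongrHom.toMonoidHom (optionCongr (Equiv.addRight (1 : ZMod p))) = x := hX
    rwa [e1] at this

/-- The lower bound for the symmetric group, or the better upper bound for the alternating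
group. -/
theorem sym_ge_or_alt_le (n : ℕ) (hn : 5 ≤ n) :
    3 ≤ (solubleGraph (Perm (Fin n))).ediam ∨
      (solubleGraph (alternatingGroup (Fin n))).ediam ≤ 3 := by
  classical
  by_cases h1 : ∃ k, n = 2 ^ k
  · right
    obtain ⟨k, hk⟩ := h1
    have hk3 : 3 ≤ k := by
      by_contra hc
      have : k = 0 ∨ k = 1 ∨ k = 2 := by omega
      rcases this with rfl | rfl | rfl <;> norm_num at hk <;> omega
    exact final_three n hn fun x _ hx => mers_inv hk3 hk hx
  · by_cases h2 : ∃ p, p.Prime ∧ p % 4 = 3 ∧ (n = p ∨ n = p + 1)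
    · left
      obtain ⟨p, hp, hp4, hnp⟩ := h2
      have := Fact.mk hp
      have hp7 : 7 ≤ p := by
        have := hp.two_le
        omega
      rcases hnp with rfl | rfl
      · obtain ⟨y, hy1, hy2⟩ := lower_p (p := n) hp7
        let E : ZMod n ≃ Fin n := Fintype.equivFinOfCardEq (ZMod.card n)
        refine three_le_transport E.permCongrHom ?_ hy1 hy2
        intro h
        have h3 : (Equiv.addRight (1 : ZMod n)) 0 = 0 := by rw [h]; rfl
        simp at h3
      · have hpow : ∀ k : ℕ, p + 1 ≠ 2 ^ k := fun k hk => h1 ⟨k, hk⟩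
        obtain ⟨y, hy1, hy2⟩ := lower_p1 hp7 hpow
        let E : Option (ZMod p) ≃ Fin (p + 1) := Fintype.equivFinOfCardEq
          (by rw [Fintype.card_option, ZMod.card])
        refine three_le_transport E.permCongrHom ?_ hy1 hy2
        intro h
        have h3 : (optionCongr (Equiv.addRight (1 : ZMod p))) (some 0) = some 0 := by rw [h]; rfl
        simp at h3
    · right
      refine final_three n hn fun x _ hx => ?_
      obtain ⟨p, hp, hp4, hnp, -⟩ := hx
      exact absurd ⟨p, hp, hp4, hnp⟩ h2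

theorem main (n : ℕ) (hn : 5 ≤ n) :
    (solubleGraph (Perm (Fin n))).Connected ∧
    (solubleGraph (alternatingGroup (Fin n))).Connected ∧
    (solubleGraph (Perm (Fin n))).diam ≤ 3 ∧
    (solubleGraph (alternatingGroup (Fin n))).diam ≤ 4 ∧
    ((∀ p : ℕ, p.Prime → p % 4 = 3 → n ≠ p ∧ n ≠ p + 1) →
      (solubleGraph (alternatingGroup (Fin n))).diam ≤ 3) ∧
    |((solubleGraph (Perm (Fin n))).diam : ℤ) -
      (solubleGraph (alternatingGroup (Fin n))).diam| ≤ 1 := by
  obtain ⟨x, y, hx, hy, hx1, hy1, hxy⟩ := exists_not_rs hn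
  have hS2 : 2 ≤ (solubleGraph (Perm (Fin n))).ediam := two_le hx1 hy1 hxy
  have hA2 : 2 ≤ (solubleGraph (alternatingGroup (Fin n))).ediam := by
    refine two_le (alt_ne hx hx1) (alt_ne hy hy1) fun h => hxy ?_
    have h' := solv_map (alternatingGroup (Fin n)).subtype h
    rw [Subgroup.subtype_apply, Subgroup.subtype_apply] at h'
    exact h'
  have hS3 := sym_three n
  have hA4 := final n hn
  have hor := sym_ge_or_alt_le n hn
  have hA3 : (∀ p : ℕ, p.Prime → p % 4 = 3 → n ≠ p ∧ n ≠ p + 1) →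
      (solubleGraph (alternatingGroup (Fin n))).ediam ≤ 3 := by
    intro h
    refine final_three n hn fun x _ hx => ?_
    obtain ⟨p, hp, hp4, hnp, -⟩ := hx
    obtain ⟨h1, h2⟩ := h p hp hp4
    rcases hnp with h3 | h3
    · exact absurd h3 h1
    · exact absurd h3 h2
  have hneS : Nonempty {x : Perm (Fin n) // x ≠ 1} := ⟨⟨x, hx1⟩⟩
  have hneA : Nonempty {x : alternatingGroup (Fin n) // x ≠ 1} := ⟨⟨_, alt_ne hx hx1⟩⟩
  have hSt : (solubleGraph (Perm (Fin n))).ediam ≠ ⊤ := ne_top_of_le_ne_top (by simp) hS3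
  have hAt : (solubleGraph (alternatingGroup (Fin n))).ediam ≠ ⊤ :=
    ne_top_of_le_ne_top (by simp) hA4
  refine ⟨SimpleGraph.connected_of_ediam_ne_top hSt, SimpleGraph.connected_of_ediam_ne_top hAt, ?_⟩
  unfold SimpleGraph.diam
  obtain ⟨s, hs⟩ := ENat.ne_top_iff_exists.1 hSt
  obtain ⟨a, ha⟩ := ENat.ne_top_iff_exists.1 hAt
  rw [← hs] at hS2 hS3 hor ⊢
  rw [← ha] at hA2 hA3 hA4 hor ⊢
  have k1 : 2 ≤ s := by exact_mod_cast hS2
  have k2 : s ≤ 3 := by exact_mod_cast hS3
  have k3 : 2 ≤ a := by exact_mod_cast hA2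
  have k4 : a ≤ 4 := by exact_mod_cast hA4
  have k5 : 3 ≤ s ∨ a ≤ 3 := by
    rcases hor with h | h
    · left; exact_mod_cast h
    · right; exact_mod_cast h
  rw [ENat.toNat_natCast, ENat.toNat_natCast]
  refine ⟨k2, k4, fun h => by exact_mod_cast hA3 h, ?_⟩
  rw [abs_le]
  omega

end Pool.Agent.ALT32
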