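import Pool.Agent.ALT32.Socle

/-!
# The soluble graph of a group and of a normal subgroup
-/

set_option autoImplicit false

namespace Pool.Agent.ALT32

open scoped Pointwise

/-- Commuting elements generate a solvable group. -/
theorem solv_commute {G : Type*} [Group G] {x y : G} (h : x * y = y * x) :
    Group.IsSolvable (Subgroup.closure {x, y}) := by
  rw [Set.pair_comm]
  refine solv_closure (Subgroup.zpowers y) (solv_zpowers y) (Subgroup.mem_zpowers y) ?_ ?_
  · rintro _ ⟨k, rfl⟩
    have hc : Commute x (y ^ k) := (show Commute x y from h).zpow_right k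
    refine ⟨k, ?_⟩
    show y ^ k = x * y ^ k * x⁻¹
    rw [hc.eq, mul_inv_cancel_right]
  · rintro _ ⟨k, rfl⟩
    have hc : Commute x (y ^ k) := (show Commute x y from h).zpow_right k
    refine ⟨k, ?_⟩
    show y ^ k = x⁻¹ * y ^ k * x
    rw [mul_assoc, ← hc.eq, inv_mul_cancel_left]

/-- Every element of a finite group generates with a suitable nontrivial element of a given
nontrivial normal subgroup a solvable group. -/
theorem adj_normal {G : Type*} [Group G] [Finite G] (N : Subgroup G) [hN : N.Normal] (h1 : N ≠ ⊥)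
    (x : G) : ∃ y ∈ N, y ≠ 1 ∧ RS x y := by
  classical
  by_cases hc : ∃ y ∈ N, y ≠ 1 ∧ x * y = y * x
  · obtain ⟨y, hy, hy1, hxy⟩ := hc
    exact ⟨y, hy, hy1, solv_commute hxy⟩
  push Not at hc
  -- the map `g ↦ g⁻¹ x g x⁻¹` is a bijection of `N`
  let φ : N → N := fun g => ⟨(g : G)⁻¹ * (x * g * x⁻¹), N.mul_mem (N.inv_mem g.2) (hN.conj_mem _ g.2 x)⟩
  have hinj : Function.Injective φ := by
    intro g h hgh
    have e : (g : G)⁻¹ * (x * g * x⁻¹) = (h : G)⁻¹ * (x * h * x⁻¹) := congrArg Subtype.val hgh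
    by_contra hne
    refine hc ((h : G) * (g : G)⁻¹) (N.mul_mem h.2 (N.inv_mem g.2)) ?_ ?_
    · intro h2
      exact hne (Subtype.ext (mul_inv_eq_one.1 h2).symm)
    · have e2 : (h : G) * (g : G)⁻¹ * x = x * h * (g : G)⁻¹ := by
        calc (h : G) * (g : G)⁻¹ * x
            = h * ((g : G)⁻¹ * (x * g * x⁻¹)) * (x * (g : G)⁻¹) := by group
          _ = h * ((h : G)⁻¹ * (x * h * x⁻¹)) * (x * (g : G)⁻¹) := by rw [e]
          _ = x * h * (g : G)⁻¹ := by group
      rw [← mul_assoc, e2]
  have hsurj : Function.Surjective φ := Finite.injective_iff_surjective.1 hinj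
  -- a Sylow subgroup of `N`
  have hcard : Nat.card N ≠ 1 := by
    rw [Ne, Subgroup.card_eq_one]
    exact h1
  obtain ⟨r, hr, hrd⟩ := Nat.exists_prime_and_dvd hcard
  have := Fact.mk hr
  obtain ⟨P⟩ : Nonempty (Sylow r N) := inferInstance
  have hPne : (P : Subgroup N) ≠ ⊥ := P.ne_bot_of_dvd_card hrd
  -- the conjugate of `P` by `x`
  let cx : N ≃* N := MulAut.conjNormal x
  have hcx : ∀ g : N, ((cx g : N) : G) = x * g * x⁻¹ := fun g => MulAut.conjNormal_apply x g
  obtain ⟨n, hn⟩ := MulAction.exists_smul_eq N P (P.comapOfInjective cx.symm.toMonoidHom cx.symm.injective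
    (by rw [MonoidHom.range_eq_top.2 cx.symm.surjective]; exact le_top))
  have hn' : ∀ g : N, n⁻¹ * g * n ∈ P ↔ cx.symm g ∈ P := by
    intro g
    have e : g ∈ (n • P : Sylow r N) ↔ g ∈ (P.comapOfInjective cx.symm.toMonoidHom
        cx.symm.injective (by rw [MonoidHom.range_eq_top.2 cx.symm.surjective]; exact le_top) :
          Sylow r N) := by rw [hn]
    have e1 : g ∈ (n • P : Sylow r N) ↔ n⁻¹ * g * n ∈ P := by
      show g ∈ (MulAut.conj n • (P : Subgroup N)) ↔ _
      rw [Subgroup.mem_pointwise_smul_iff_inv_smul_mem]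
      show (MulAut.conj n)⁻¹ g ∈ (P : Subgroup N) ↔ _
      rw [← map_inv, MulAut.conj_apply, inv_inv]
      rfl
    rw [← e1, e]
    rfl
  obtain ⟨g0, hg0⟩ := hsurj n⁻¹
  have hg1 : cx g0 * n = g0 := by
    have h2 : (g0 : G)⁻¹ * (x * g0 * x⁻¹) = ((n⁻¹ : N) : G) := congrArg Subtype.val hg0
    apply Subtype.ext
    rw [Subgroup.coe_mul, hcx]
    rw [Subgroup.coe_inv, eq_inv_iff_mul_eq_one, mul_assoc, inv_mul_eq_one] at h2
    exact h2.symm
  let f : N →* G := N.subtype.comp (MulAut.conj g0).toMonoidHom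
  have hf : ∀ g : N, f g = ((g0 * g * g0⁻¹ : N) : G) := fun g => rfl
  have hPs : Group.IsSolvable (P : Subgroup N) := by
    have := P.isPGroup'.isNilpotent
    infer_instance
  have hR : Group.IsSolvable ((P : Subgroup N).map f) := by
    have := hPs
    exact Group.isSolvable_of_surjective (MonoidHom.subgroupMap_surjective f (P : Subgroup N))
  obtain ⟨p, hp1⟩ := Subgroup.ne_bot_iff_exists_ne_one.1 hPne
  have hp1' : (p : N) ≠ 1 := fun h => hp1 (Subtype.ext h)
  have hfinj : Function.Injective f := by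
    intro a b hab
    rw [hf, hf] at hab
    have h2 := Subtype.ext hab
    exact mul_left_cancel (mul_right_cancel h2)
  refine ⟨f p, (g0 * p * g0⁻¹ : N).2, ?_, ?_⟩
  · intro h
    exact hp1' (hfinj (h.trans (map_one f).symm))
  · apply solv_pair_comm
    refine solv_closure ((P : Subgroup N).map f) hR (Subgroup.mem_map_of_mem f p.2) ?_ ?_
    · rintro _ ⟨a, ha, rfl⟩
      refine ⟨n⁻¹ * cx a * n, ?_, ?_⟩
      · have := (hn' (cx a)).2 (by rw [MulEquiv.symm_apply_apply]; exact ha)
        exact this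
      · rw [hf, hf, ← hcx]
        congr 1
        rw [map_mul, map_mul, map_inv]
        conv_lhs => rw [← hg1]
        group
    · rintro _ ⟨a, ha, rfl⟩
      refine ⟨cx.symm (n * a * n⁻¹), ?_, ?_⟩
      · refine (hn' (n * a * n⁻¹)).1 ?_
        have e : n⁻¹ * (n * a * n⁻¹) * n = a := by group
        rw [e]; exact ha
      · have key : cx (g0 * cx.symm (n * a * n⁻¹) * g0⁻¹) = g0 * a * g0⁻¹ := by
          rw [map_mul, map_mul, map_inv, MulEquiv.apply_symm_apply]
          conv_rhs => rw [← hg1]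
          group
        have key2 := congrArg Subtype.val key
        rw [hcx] at key2
        rw [hf, hf, ← key2]
        group

/-! ### Distances -/

theorem edist_sub_le {G : Type*} [Group G] (N : Subgroup G) (a b : {x : N // x ≠ 1})
    (x y : {x : G // x ≠ 1}) (hx : x.1 = a.1) (hy : y.1 = b.1) :
    (solubleGraph G).edist x y ≤ (solubleGraph N).ediam := by
  refine le_trans ?_ (SimpleGraph.edist_le_ediam (u := a) (v := b))
  have hx' : graphHom N.subtype (Subgroup.subtype_injective N) a = x := Subtype.ext hx.symm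
  have hy' : graphHom N.subtype (Subgroup.subtype_injective N) b = y := Subtype.ext hy.symm
  by_cases htop : (solubleGraph N).edist a b = ⊤
  · rw [htop]; exact le_top
  · obtain ⟨p, hp⟩ := SimpleGraph.exists_walk_of_edist_ne_top htop
    rw [← hp]
    have h1 := SimpleGraph.edist_le (p.map (graphHom N.subtype (Subgroup.subtype_injective N)))
    rw [SimpleGraph.Walk.length_map, hx', hy'] at h1
    exact h1

theorem edist_norm {G : Type*} [Group G] [Finite G] (N : Subgroup G) [N.Normal] (h1 : N ≠ ⊥)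
    (x y : {x : G // x ≠ 1}) (hy : y.1 ∈ N) :
    (solubleGraph G).edist x y ≤ 1 + (solubleGraph N).ediam := by
  obtain ⟨z, hz, hz1, hxz⟩ := adj_normal N h1 x.1
  refine le_trans (SimpleGraph.edist_triangle (v := ⟨z, hz1⟩)) ?_
  exact add_le_add (edist_le_one hxz)
    (edist_sub_le N ⟨⟨z, hz⟩, fun h => hz1 (congrArg Subtype.val h)⟩
      ⟨⟨y.1, hy⟩, fun h => y.2 (congrArg Subtype.val h)⟩ _ _ rfl rfl)

theorem even_of_not_mem {G : Type*} [Group G] [Finite G] (N : Subgroup G) [N.Normal] {k : ℕ}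
    (hk : N.index = 2 ^ k) {x : G} (hx : x ∉ N) : ∃ m, orderOf x = 2 * m := by
  by_contra hodd
  apply hx
  have h1 : Nat.Coprime (orderOf x) (N.index) := by
    rw [hk]
    apply Nat.Coprime.pow_right
    rw [Nat.coprime_two_right]
    rcases Nat.even_or_odd' (orderOf x) with ⟨m, hm | hm⟩
    · exact absurd ⟨m, hm⟩ hodd
    · exact ⟨m, hm⟩
  have h2 : orderOf (QuotientGroup.mk' N x) ∣ orderOf x := orderOf_map_dvd _ _
  have h3 : orderOf (QuotientGroup.mk' N x) ∣ N.index := by
    rw [Subgroup.index]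
    exact orderOf_dvd_natCard _
  have h4 : orderOf (QuotientGroup.mk' N x) = 1 := Nat.eq_one_of_dvd_coprimes h1 h2 h3
  rw [orderOf_eq_one_iff] at h4
  exact (QuotientGroup.eq_one_iff x).1 h4

theorem two_power {G : Type*} [Group G] [Finite G] (N : Subgroup G) [N.Normal] (h1 : N ≠ ⊥)
    {k : ℕ} (hk : N.index = 2 ^ k) :
    (solubleGraph G).ediam ≤ max 3 ((solubleGraph N).ediam + 1) := by
  apply SimpleGraph.ediam_le_of_edist_le
  intro x y
  by_cases hy : y.1 ∈ N
  · refine (edist_norm N h1 x y hy).trans ?_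
    rw [add_comm]; exact le_max_right _ _
  by_cases hx : x.1 ∈ N
  · rw [SimpleGraph.edist_comm]
    refine (edist_norm N h1 y x hx).trans ?_
    rw [add_comm]; exact le_max_right _ _
  · obtain ⟨m, hm⟩ := even_of_not_mem N hk hx
    obtain ⟨l, hl⟩ := even_of_not_mem N hk hy
    obtain ⟨s, hs1, hs2, hs3⟩ := invol_of_even hm
    obtain ⟨t, ht1, ht2, ht3⟩ := invol_of_even hl
    exact (edist_le_three hs1 ht1 hs3 (solv_invol hs2 ht2) ht3.symm).trans (le_max_left _ _)

theorem two_power_diam {G : Type*} [Group G] [Finite G] (N : Subgroup G) [N.Normal] (k : ℕ)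
    (hk : N.index = 2 ^ k) (hc : (solubleGraph N).Connected) (h2 : 2 ≤ (solubleGraph N).diam) :
    (solubleGraph G).Connected ∧ (solubleGraph G).diam ≤ (solubleGraph N).diam + 1 := by
  obtain ⟨y⟩ := hc.nonempty
  have h1 : N ≠ ⊥ := by
    rintro rfl
    exact y.2 (Subsingleton.elim _ _)
  have hNt : (solubleGraph N).ediam ≠ ⊤ := by
    have := hc.nonempty
    exact SimpleGraph.connected_iff_ediam_ne_top.1 hc
  have hne : Nonempty {x : G // x ≠ 1} := ⟨⟨y.1, fun h => y.2 (Subtype.ext h)⟩⟩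
  obtain ⟨a, ha⟩ := ENat.ne_top_iff_exists.1 hNt
  have hle : (solubleGraph G).ediam ≤ ((max 3 (a + 1) : ℕ) : ℕ∞) := by
    refine (two_power N h1 hk).trans ?_
    rw [← ha]
    rcases le_total 3 (a + 1) with h | h
    · rw [max_eq_right h, max_eq_right (by exact_mod_cast h)]
      exact_mod_cast le_rfl
    · rw [max_eq_left h, max_eq_left (by exact_mod_cast h)]
      exact_mod_cast le_rfl
  have hGt : (solubleGraph G).ediam ≠ ⊤ := ne_top_of_le_ne_top (ENat.natCast_ne_top _) hle
  refine ⟨SimpleGraph.connected_of_ediam_ne_top hGt, ?_⟩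
  unfold SimpleGraph.diam at h2 ⊢
  obtain ⟨s, hs⟩ := ENat.ne_top_iff_exists.1 hGt
  rw [← hs] at hle
  rw [← hs, ← ha]
  rw [← ha] at h2
  rw [ENat.toNat_natCast] at h2 ⊢
  rw [ENat.toNat_natCast]
  have hle' : s ≤ max 3 (a + 1) := by exact_mod_cast hle
  omega

/-- A subgroup with a graph of diameter at least 2. -/
theorem two_le_of_sub {G : Type*} [Group G] [Finite G] (N : Subgroup G)
    (hc : (solubleGraph N).Connected) (h2 : 2 ≤ (solubleGraph N).diam)
    (hG : (solubleGraph G).Connected) : 2 ≤ (solubleGraph G).diam := by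
  have hNt : (solubleGraph N).ediam ≠ ⊤ := by
    have := hc.nonempty
    exact SimpleGraph.connected_iff_ediam_ne_top.1 hc
  have hGt : (solubleGraph G).ediam ≠ ⊤ := by
    have := hG.nonempty
    exact SimpleGraph.connected_iff_ediam_ne_top.1 hG
  -- a pair that is not adjacent
  have hex : ∃ x y : {x : N // x ≠ 1}, ¬ RS x.1 y.1 := by
    by_contra h
    push Not at h
    have h3 : (solubleGraph N).ediam ≤ 1 :=
      SimpleGraph.ediam_le_of_edist_le fun x y => edist_le_one (h x y)
    obtain ⟨a, ha⟩ := ENat.ne_top_iff_exists.1 hNt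
    unfold SimpleGraph.diam at h2
    rw [← ha] at h2 h3
    rw [ENat.toNat_natCast] at h2
    have h4 : a ≤ 1 := by exact_mod_cast h3
    omega
  obtain ⟨x, y, hxy⟩ := hex
  have h5 : ¬ RS (x.1 : G) (y.1 : G) := by
    intro h
    apply hxy
    have e : (Subgroup.closure {x.1, y.1}).map N.subtype =
        Subgroup.closure {(x.1 : G), (y.1 : G)} := by
      rw [MonoidHom.map_closure, Set.image_pair]; rfl
    have h' : Group.IsSolvable ((Subgroup.closure {x.1, y.1}).map N.subtype) := by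
      rw [e]; exact h
    exact Group.isSolvable_of_isSolvable_injective
      (f := ((Subgroup.closure {x.1, y.1}).equivMapOfInjective N.subtype
        (Subgroup.subtype_injective _)).toMonoidHom) (MulEquiv.injective _)
  have h6 : 2 ≤ (solubleGraph G).ediam :=
    two_le (fun h => x.2 (Subtype.ext h)) (fun h => y.2 (Subtype.ext h)) h5
  obtain ⟨s, hs⟩ := ENat.ne_top_iff_exists.1 hGt
  unfold SimpleGraph.diam
  rw [← hs] at h6 ⊢
  rw [ENat.toNat_natCast]
  exact_mod_cast h6

theorem two_more {G : Type*} [Group G] [Finite G] (N : Subgroup G) [N.Normal]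
    (hc : (solubleGraph N).Connected) :
    (solubleGraph G).Connected ∧ (solubleGraph G).diam ≤ (solubleGraph N).diam + 2 := by
  obtain ⟨y⟩ := hc.nonempty
  have h1 : N ≠ ⊥ := by
    rintro rfl
    exact y.2 (Subsingleton.elim _ _)
  have hNt : (solubleGraph N).ediam ≠ ⊤ := by
    have := hc.nonempty
    exact SimpleGraph.connected_iff_ediam_ne_top.1 hc
  have hne : Nonempty {x : G // x ≠ 1} := ⟨⟨y.1, fun h => y.2 (Subtype.ext h)⟩⟩
  obtain ⟨a, ha⟩ := ENat.ne_top_iff_exists.1 hNt
  have hle : (solubleGraph G).ediam ≤ ((a + 2 : ℕ) : ℕ∞) := by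
    apply SimpleGraph.ediam_le_of_edist_le
    intro x z
    obtain ⟨w, hw, hw1, hzw⟩ := adj_normal N h1 z.1
    refine le_trans (SimpleGraph.edist_triangle (v := ⟨w, hw1⟩)) ?_
    have e1 := edist_norm N h1 x ⟨w, hw1⟩ hw
    have e2 : (solubleGraph G).edist ⟨w, hw1⟩ z ≤ 1 := edist_le_one hzw.symm
    rw [← ha] at e1
    refine (add_le_add e1 e2).trans ?_
    have e3 : (1 : ℕ∞) + (a : ℕ∞) + 1 = ((a + 2 : ℕ) : ℕ∞) := by
      push_cast
      ring
    rw [e3]
  have hGt : (solubleGraph G).ediam ≠ ⊤ := ne_top_of_le_ne_top (ENat.natCast_ne_top _) hle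
  refine ⟨SimpleGraph.connected_of_ediam_ne_top hGt, ?_⟩
  unfold SimpleGraph.diam
  obtain ⟨s, hs⟩ := ENat.ne_top_iff_exists.1 hGt
  rw [← hs] at hle
  rw [← hs, ← ha]
  rw [ENat.toNat_natCast, ENat.toNat_natCast]
  exact_mod_cast hle

end Pool.Agent.ALT32
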