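import Pool.Agent.ALT32.Embed

/-!
# Elements of odd order over `A_6` (helper file for MP_bb27f7_al)

Let `N` be normal in `G`, `N` isomorphic to `A_6`, with trivial centralizer. Every element `g` of odd
order lies in `N`: `g` is a power of `g ^ 2`, and the square of an automorphism of `A_6` preserves the
3-cycles (`h6`), so the conjugation by `g` preserves the 3-cycles and is the conjugation by a
permutation `σ` (`hgeom`). An odd power of `σ` centralizes `A_6`, so it is `1` and `σ` is even.
-/

set_option autoImplicit false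

namespace Pool.Agent.ALT32

open Equiv Equiv.Perm

/-- the powers of an automorphism which preserves the 3-cycles -/
theorem pow_three {n : ℕ} (α : MulAut (alternatingGroup (Fin n)))
    (h : ∀ c : alternatingGroup (Fin n), (c : Perm (Fin n)).IsThreeCycle →
      ((α c : alternatingGroup (Fin n)) : Perm (Fin n)).IsThreeCycle) (k : ℕ) :
    ∀ c : alternatingGroup (Fin n), (c : Perm (Fin n)).IsThreeCycle →
      (((α ^ k) c : alternatingGroup (Fin n)) : Perm (Fin n)).IsThreeCycle := by
  induction k with
  | zero => intro c hc; simpa using hc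
  | succ k ih =>
    intro c hc
    rw [pow_succ, MulAut.mul_apply]
    exact ih _ (h c hc)

/-- the powers of the conjugation by a permutation -/
theorem pow_conj {n : ℕ} (α : MulAut (alternatingGroup (Fin n))) (σ : Perm (Fin n))
    (h : ∀ a : alternatingGroup (Fin n),
      ((α a : alternatingGroup (Fin n)) : Perm (Fin n)) = σ * a * σ⁻¹) (k : ℕ) :
    ∀ a : alternatingGroup (Fin n),
      (((α ^ k) a : alternatingGroup (Fin n)) : Perm (Fin n)) = σ ^ k * a * (σ ^ k)⁻¹ := by
  induction k with
  | zero => intro a; simp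
  | succ k ih =>
    intro a
    rw [pow_succ, MulAut.mul_apply, ih, h]
    group

/-- an odd power of an odd permutation is not `1` -/
theorem even_of_pow {n : ℕ} (σ : Perm (Fin n)) {m : ℕ} (h : σ ^ (2 * m + 1) = 1) :
    σ ∈ alternatingGroup (Fin n) := by
  rw [mem_alternatingGroup]
  have h1 : sign σ ^ (2 * m + 1) = 1 := by rw [← map_pow, h, map_one]
  rcases Int.units_eq_one_or (sign σ) with h2 | h2
  · exact h2
  · exfalso
    rw [h2, pow_succ, pow_mul] at h1
    simp at h1

theorem odd_six_of
    (h6 : ∀ (φ : alternatingGroup (Fin 6) ≃* alternatingGroup (Fin 6))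
      (c : alternatingGroup (Fin 6)), (c : Perm (Fin 6)).IsThreeCycle →
      ((φ (φ c) : alternatingGroup (Fin 6)) : Perm (Fin 6)).IsThreeCycle)
    (hgeom : ∀ φ : alternatingGroup (Fin 6) ≃* alternatingGroup (Fin 6),
      (∀ c : alternatingGroup (Fin 6), (c : Perm (Fin 6)).IsThreeCycle →
        ((φ c : alternatingGroup (Fin 6)) : Perm (Fin 6)).IsThreeCycle) →
      ∃ σ : Perm (Fin 6), ∀ a : alternatingGroup (Fin 6),
        ((φ a : alternatingGroup (Fin 6)) : Perm (Fin 6)) = σ * a * σ⁻¹)
    {G : Type*} [Group G] (N : Subgroup G) [N.Normal]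
    (f : N ≃* alternatingGroup (Fin 6)) (hC : Subgroup.centralizer (N : Set G) = ⊥)
    (g : G) {m : ℕ} (hg : g ^ (2 * m + 1) = 1) : g ∈ N := by
  classical
  set Φ : G →* MulAut (alternatingGroup (Fin 6)) :=
    (MulAut.congr f).toMonoidHom.comp MulAut.conjNormal with hΦ
  have hΦa : ∀ (x : G) (a : N), Φ x (f a) = f (MulAut.conjNormal x a) := by
    intro x a
    simp [hΦ, MulAut.congr]
  have hgg : Φ g = (Φ g ^ 2) ^ (m + 1) := by
    rw [← map_pow, ← map_pow, ← pow_mul]
    congr 1
    rw [show 2 * (m + 1) = (2 * m + 1) + 1 by ring, pow_succ, hg, one_mul]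
  have h3 : ∀ c : alternatingGroup (Fin 6), (c : Perm (Fin 6)).IsThreeCycle →
      ((Φ g c : alternatingGroup (Fin 6)) : Perm (Fin 6)).IsThreeCycle := by
    rw [hgg]
    apply pow_three
    intro c hc
    rw [pow_two, MulAut.mul_apply]
    exact h6 (Φ g) c hc
  obtain ⟨σ, hσ⟩ := hgeom (Φ g) h3
  have h1 : σ ^ (2 * m + 1) = 1 := by
    apply alt_centralizer (by norm_num)
    intro a
    have h := pow_conj (Φ g) σ hσ (2 * m + 1) a
    rw [← map_pow, hg, map_one, MulAut.one_apply] at h
    rw [eq_mul_inv_iff_mul_eq] at h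
    exact h.symm
  have hs : σ ∈ alternatingGroup (Fin 6) := even_of_pow σ h1
  set x : N := f.symm ⟨σ, hs⟩ with hx
  have hfx : f x = ⟨σ, hs⟩ := by rw [hx, f.apply_symm_apply]
  have key : (x : G)⁻¹ * g ∈ Subgroup.centralizer (N : Set G) := by
    rw [Subgroup.mem_centralizer_iff]
    intro y hy
    have h2 : f (MulAut.conjNormal g ⟨y, hy⟩) = f (x * ⟨y, hy⟩ * x⁻¹) := by
      apply Subtype.ext
      rw [← hΦa, hσ, map_mul, map_mul, map_inv, hfx]
      rfl
    have h4 := f.injective h2
    have h5 : g * y * g⁻¹ = x * y * (x : G)⁻¹ := by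
      have := congrArg Subtype.val h4
      simpa [MulAut.conjNormal_apply] using this
    have h6' : g * y = x * y * (x : G)⁻¹ * g := by
      rw [← h5]; group
    calc y * ((x : G)⁻¹ * g) = (x : G)⁻¹ * (x * y * (x : G)⁻¹ * g) := by group
      _ = (x : G)⁻¹ * (g * y) := by rw [h6']
      _ = (x : G)⁻¹ * g * y := by group
  rw [hC, Subgroup.mem_bot] at key
  have h7 : g = x := by
    rw [inv_mul_eq_one] at key
    exact key.symm
  rw [h7]
  exact x.2

end Pool.Agent.ALT32
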