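import Pool.Agent.ALT32.Main
import Pool.Agent.ALT32.AutThree
import Pool.Agent.ALT32.AutGeom
import Pool.Agent.ALT32.Embed
import Pool.Agent.ALT32.AutSix
import Pool.Agent.ALT32.OddSix

/-!
# Almost simple groups with alternating socle
-/

set_option autoImplicit false

namespace Pool.Agent.ALT32

open Equiv Equiv.Perm

/-! ### Isomorphic groups -/

/-- The map of the soluble graphs given by an injective homomorphism. -/
def graphHom {G H : Type*} [Group G] [Group H] (f : G →* H) (hf : Function.Injective f) :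
    solubleGraph G →g solubleGraph H where
  toFun x := ⟨f x.1, fun h => x.2 (hf (h.trans (map_one f).symm))⟩
  map_rel' := by
    intro x y h
    refine ⟨fun hxy => h.1 (Subtype.ext (hf (congrArg Subtype.val hxy))), ?_⟩
    exact solv_map f h.2

theorem ediam_le_of_equiv {G H : Type*} [Group G] [Group H] (f : G ≃* H) :
    (solubleGraph G).ediam ≤ (solubleGraph H).ediam := by
  apply SimpleGraph.ediam_le_of_edist_le
  intro x y
  obtain ⟨X, hX⟩ : ∃ X, X = graphHom f.toMonoidHom f.injective x := ⟨_, rfl⟩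
  obtain ⟨Y, hY⟩ : ∃ Y, Y = graphHom f.toMonoidHom f.injective y := ⟨_, rfl⟩
  have hX' : graphHom f.symm.toMonoidHom f.symm.injective X = x := by
    rw [hX]; exact Subtype.ext (f.symm_apply_apply x.1)
  have hY' : graphHom f.symm.toMonoidHom f.symm.injective Y = y := by
    rw [hY]; exact Subtype.ext (f.symm_apply_apply y.1)
  refine le_trans ?_ (SimpleGraph.edist_le_ediam (u := X) (v := Y))
  by_cases htop : (solubleGraph H).edist X Y = ⊤
  · rw [htop]; exact le_top
  · obtain ⟨p, hp⟩ := SimpleGraph.exists_walk_of_edist_ne_top htop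
    rw [← hp]
    have h1 := SimpleGraph.edist_le (p.map (graphHom f.symm.toMonoidHom f.symm.injective))
    rw [SimpleGraph.Walk.length_map] at h1
    rw [← hX', ← hY']
    exact h1

theorem ediam_eq_of_equiv {G H : Type*} [Group G] [Group H] (f : G ≃* H) :
    (solubleGraph G).ediam = (solubleGraph H).ediam :=
  le_antisymm (ediam_le_of_equiv f) (ediam_le_of_equiv f.symm)

theorem diam_eq_of_equiv {G H : Type*} [Group G] [Group H] (f : G ≃* H) :
    (solubleGraph G).diam = (solubleGraph H).diam := by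
  unfold SimpleGraph.diam
  rw [ediam_eq_of_equiv f]

/-! ### Bounds in general groups -/

/-- If every nontrivial element is next to an involution the diameter is at most three. -/
theorem three_of_invol {G : Type*} [Group G] (h : ∀ x : G, x ≠ 1 → ∃ t : G, t ≠ 1 ∧ t * t = 1 ∧
    RS x t) : (solubleGraph G).ediam ≤ 3 := by
  apply SimpleGraph.ediam_le_of_edist_le
  intro x y
  obtain ⟨s, hs1, hs2, hs3⟩ := h x.1 x.2
  obtain ⟨t, ht1, ht2, ht3⟩ := h y.1 y.2
  exact edist_le_three hs1 ht1 hs3 (solv_invol hs2 ht2) ht3.symm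

/-- Elements of even order. -/
theorem invol_of_even {G : Type*} [Group G] [Finite G] {x : G} {m : ℕ}
    (hm : orderOf x = 2 * m) : ∃ t : G, t ≠ 1 ∧ t * t = 1 ∧ RS x t := by
  refine ⟨x ^ m, ?_, ?_, ?_⟩
  · intro h
    have h1 := orderOf_dvd_of_pow_eq_one h
    have h2 : 0 < orderOf x := orderOf_pos x
    have h3 : 0 < m := by omega
    have := Nat.le_of_dvd h3 h1
    omega
  · rw [← pow_add, ← two_mul, ← hm, pow_orderOf_eq_one]
  · refine solv_mono ?_ (solv_zpowers x)
    rw [Subgroup.closure_le]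
    rintro g (rfl | rfl)
    · exact Subgroup.mem_zpowers _
    · exact Subgroup.npow_mem_zpowers _ _

/-- The connectedness and the difference of the diameters from the bounds for `ediam`. -/
theorem diff_of_bounds {G H : Type*} [Group G] [Group H] [Nontrivial G] [Nontrivial H]
    (h1 : 2 ≤ (solubleGraph G).ediam) (h2 : (solubleGraph G).ediam ≤ 3)
    (h3 : 2 ≤ (solubleGraph H).ediam) (h4 : (solubleGraph H).ediam ≤ 3) :
    (solubleGraph G).Connected ∧ (solubleGraph H).Connected ∧
      |((solubleGraph G).diam : ℤ) - (solubleGraph H).diam| ≤ 1 := by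
  obtain ⟨x, hx⟩ := exists_ne (1 : G)
  obtain ⟨y, hy⟩ := exists_ne (1 : H)
  have hneG : Nonempty {x : G // x ≠ 1} := ⟨⟨x, hx⟩⟩
  have hneH : Nonempty {x : H // x ≠ 1} := ⟨⟨y, hy⟩⟩
  have hGt : (solubleGraph G).ediam ≠ ⊤ := ne_top_of_le_ne_top (by simp) h2
  have hHt : (solubleGraph H).ediam ≠ ⊤ := ne_top_of_le_ne_top (by simp) h4
  refine ⟨SimpleGraph.connected_of_ediam_ne_top hGt, SimpleGraph.connected_of_ediam_ne_top hHt, ?_⟩
  unfold SimpleGraph.diam
  obtain ⟨s, hs⟩ := ENat.ne_top_iff_exists.1 hGt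
  obtain ⟨a, ha⟩ := ENat.ne_top_iff_exists.1 hHt
  rw [← hs] at h1 h2 ⊢
  rw [← ha] at h3 h4 ⊢
  have k1 : 2 ≤ s := by exact_mod_cast h1
  have k2 : s ≤ 3 := by exact_mod_cast h2
  have k3 : 2 ≤ a := by exact_mod_cast h3
  have k4 : a ≤ 3 := by exact_mod_cast h4
  rw [ENat.toNat_natCast, ENat.toNat_natCast, abs_le]
  omega

/-! ### The socle `A_6` -/

theorem odd_six {G : Type*} [Group G] (N : Subgroup G) [N.Normal]
    (f : N ≃* alternatingGroup (Fin 6)) (hC : Subgroup.centralizer (N : Set G) = ⊥)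
    (g : G) {m : ℕ} (hg : g ^ (2 * m + 1) = 1) : g ∈ N :=
  odd_six_of (fun φ c hc => aut_six φ c hc) (fun φ h => aut_geom (by norm_num) φ h) N f hC g hg

theorem six_no_exc (x : Perm (Fin 6)) : ¬ Exc x := by
  rintro ⟨p, hp, hp4, hnp, -⟩
  omega

theorem six {G : Type*} [Group G] [Finite G] (N : Subgroup G) [N.Normal]
    (f : N ≃* alternatingGroup (Fin 6)) (hC : Subgroup.centralizer (N : Set G) = ⊥) :
    (solubleGraph G).Connected ∧ (solubleGraph N).Connected ∧
      |((solubleGraph G).diam : ℤ) - (solubleGraph N).diam| ≤ 1 := by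
  obtain ⟨x, y, hx, hy, hx1, hy1, hxy⟩ := exists_not_rs (n := 6) (by norm_num)
  have hA2 : ¬ RS (⟨x, mem_alternatingGroup.2 hx⟩ : alternatingGroup (Fin 6))
      ⟨y, mem_alternatingGroup.2 hy⟩ := by
    intro h
    apply hxy
    have h' := solv_map (alternatingGroup (Fin 6)).subtype h
    rw [Subgroup.subtype_apply, Subgroup.subtype_apply] at h'
    exact h'
  obtain ⟨X, hX⟩ : ∃ X : N, f X = ⟨x, mem_alternatingGroup.2 hx⟩ := f.surjective _
  obtain ⟨Y, hY⟩ : ∃ Y : N, f Y = ⟨y, mem_alternatingGroup.2 hy⟩ := f.surjective _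
  have hN2 : ¬ RS X Y := by
    intro h
    apply hA2
    have h' := solv_map f.toMonoidHom h
    have e1 : f.toMonoidHom X = ⟨x, mem_alternatingGroup.2 hx⟩ := hX
    have e2 : f.toMonoidHom Y = ⟨y, mem_alternatingGroup.2 hy⟩ := hY
    rwa [e1, e2] at h'
  have hX1 : X ≠ 1 := by
    rintro rfl
    rw [map_one] at hX
    exact hx1 (congrArg Subtype.val hX).symm
  have hY1 : Y ≠ 1 := by
    rintro rfl
    rw [map_one] at hY
    exact hy1 (congrArg Subtype.val hY).symm
  have hXY : ∀ a b : N, RS (a : G) (b : G) → RS a b := by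
    intro a b h
    have e : (Subgroup.closure {a, b}).map N.subtype = Subgroup.closure {(a : G), (b : G)} := by
      rw [MonoidHom.map_closure, Set.image_pair]; rfl
    have h' : Group.IsSolvable ((Subgroup.closure {a, b}).map N.subtype) := by
      rw [e]; exact h
    exact Group.isSolvable_of_isSolvable_injective
      (f := ((Subgroup.closure {a, b}).equivMapOfInjective N.subtype
        (Subgroup.subtype_injective _)).toMonoidHom) (MulEquiv.injective _)
  have : Nontrivial N := ⟨X, 1, hX1⟩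
  have : Nontrivial G := ⟨(X : G), 1, fun h => hX1 (Subtype.ext h)⟩
  -- all elements of `A_6` are next to an even involution
  have hinv : ∀ a : N, a ≠ 1 → ∃ t : N, t ≠ 1 ∧ t * t = 1 ∧ RS a t := by
    intro a ha
    have h1 : ((f a : alternatingGroup (Fin 6)) : Perm (Fin 6)) ≠ 1 := by
      intro h
      apply ha
      apply f.injective
      rw [map_one]
      exact Subtype.ext h
    rcases inv_or_exc (by norm_num) _ h1 (mem_alternatingGroup.1 (f a).2) with h2 | h2
    · obtain ⟨t, ht1, ht2, ht3, ht4⟩ := h2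
      obtain ⟨T, hT⟩ : ∃ T : N, f T = ⟨t, mem_alternatingGroup.2 ht1⟩ := f.surjective _
      refine ⟨T, ?_, ?_, ?_⟩
      · rintro rfl
        rw [map_one] at hT
        exact ht2 (congrArg Subtype.val hT).symm
      · apply f.injective
        rw [map_mul, hT, map_one]
        exact Subtype.ext ht3
      · apply rs_of_equiv f
        rw [hT]
        exact alt_rs ht4
    · exact absurd h2 (six_no_exc _)
  refine diff_of_bounds ?_ ?_ ?_ ?_
  · exact two_le (x := (X : G)) (y := (Y : G)) (fun h => hX1 (Subtype.ext h))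
      (fun h => hY1 (Subtype.ext h)) fun h => hN2 (hXY X Y h)
  · apply three_of_invol
    intro g hg
    rcases Nat.even_or_odd' (orderOf g) with ⟨m, hm | hm⟩
    · exact invol_of_even hm
    · have hgN : g ∈ N := odd_six N f hC g (m := m) (by rw [← hm]; exact pow_orderOf_eq_one g)
      obtain ⟨t, ht1, ht2, ht3⟩ := hinv ⟨g, hgN⟩ (fun h => hg (congrArg Subtype.val h))
      refine ⟨t, fun h => ht1 (Subtype.ext h), congrArg Subtype.val ht2, ?_⟩
      have h' := solv_map N.subtype ht3
      rw [Subgroup.subtype_apply, Subgroup.subtype_apply] at h'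
      exact h'
  · exact two_le hX1 hY1 hN2
  · exact three_of_invol hinv

/-! ### The theorem -/

theorem socle_aux {G : Type*} [Group G] [Finite G] (N : Subgroup G) [N.Normal] (n : ℕ) (hn : 5 ≤ n)
    (f : N ≃* alternatingGroup (Fin n)) (hC : Subgroup.centralizer (N : Set G) = ⊥) :
    (solubleGraph G).Connected ∧ (solubleGraph N).Connected ∧
      |((solubleGraph G).diam : ℤ) - (solubleGraph N).diam| ≤ 1 := by
  by_cases hn6 : n = 6
  · subst hn6
    exact six N f hC
  obtain ⟨hS, hA, hS3, hA4, -, hdiff⟩ := main n hn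
  have hNd : (solubleGraph N).diam = (solubleGraph (alternatingGroup (Fin n))).diam :=
    diam_eq_of_equiv f
  have hNe := ediam_eq_of_equiv f
  have hex := exists_not_rs hn
  obtain ⟨x, y, hx, hy, hx1, hy1, hxy⟩ := hex
  obtain ⟨X, hX⟩ : ∃ X : N, f X = ⟨x, mem_alternatingGroup.2 hx⟩ := f.surjective _
  have hX1 : X ≠ 1 := by
    rintro rfl
    rw [map_one] at hX
    exact hx1 (congrArg Subtype.val hX).symm
  have hneN : Nonempty {x : N // x ≠ 1} := ⟨⟨X, hX1⟩⟩
  have hneG : Nonempty {x : G // x ≠ 1} := ⟨⟨(X : G), fun h => hX1 (Subtype.ext h)⟩⟩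
  have hNt : (solubleGraph N).ediam ≠ ⊤ := by
    rw [hNe]
    exact ne_top_of_le_ne_top (by simp) (final n hn)
  have hNc : (solubleGraph N).Connected := SimpleGraph.connected_of_ediam_ne_top hNt
  rcases embed hn (fun φ => aut_geom hn φ fun c hc => aut_three hn hn6 φ c hc) N f hC with h | ⟨⟨e⟩⟩
  · -- `G = N`
    let e : N ≃* G := (MulEquiv.subgroupCongr h).trans Subgroup.topEquiv
    have hGd : (solubleGraph N).diam = (solubleGraph G).diam := diam_eq_of_equiv e
    have hGe := ediam_eq_of_equiv e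
    have hGt : (solubleGraph G).ediam ≠ ⊤ := by rw [← hGe]; exact hNt
    refine ⟨SimpleGraph.connected_of_ediam_ne_top hGt, hNc, ?_⟩
    rw [hGd, sub_self, abs_zero]; norm_num
  · -- `G = S_n`
    have hGd : (solubleGraph G).diam = (solubleGraph (Perm (Fin n))).diam := diam_eq_of_equiv e
    have hGe := ediam_eq_of_equiv e
    have hGt : (solubleGraph G).ediam ≠ ⊤ := by
      rw [hGe]
      exact ne_top_of_le_ne_top (by simp) (sym_three n)
    refine ⟨SimpleGraph.connected_of_ediam_ne_top hGt, hNc, ?_⟩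
    rw [hGd, hNd]
    exact hdiff

theorem socle {G : Type*} [Group G] [Finite G] (N : Subgroup G) [N.Normal] (n : ℕ) (hn : 5 ≤ n)
    (f : N ≃* alternatingGroup (Fin n)) (hC : Subgroup.centralizer (N : Set G) = ⊥) :
    (solubleGraph G).Connected ∧ (solubleGraph N).Connected ∧
      |((solubleGraph G).diam : ℤ) - (solubleGraph N).diam| ≤ 1 :=
  socle_aux N n hn f hC

/-- The diameter is at most 4. -/
theorem socle_four {G : Type*} [Group G] [Finite G] (N : Subgroup G) [N.Normal] (n : ℕ)
    (hn : 5 ≤ n) (f : N ≃* alternatingGroup (Fin n))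
    (hC : Subgroup.centralizer (N : Set G) = ⊥) :
    (solubleGraph G).Connected ∧ (solubleGraph G).diam ≤ 4 := by
  obtain ⟨h1, -, h3⟩ := socle_aux N n hn f hC
  refine ⟨h1, ?_⟩
  by_cases hn6 : n = 6
  · subst hn6
    have h4 : (solubleGraph N).diam ≤ 3 := by
      rw [diam_eq_of_equiv f]
      refine (main 6 hn).2.2.2.2.1 fun p _ hp4 => ?_
      omega
    rw [abs_le] at h3
    omega
  · rcases embed hn (fun φ => aut_geom hn φ fun c hc => aut_three hn hn6 φ c hc) N f hC with
      h | ⟨⟨e⟩⟩
    · let e : N ≃* G := (MulEquiv.subgroupCongr h).trans Subgroup.topEquiv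
      rw [← diam_eq_of_equiv e, diam_eq_of_equiv f]
      exact (main n hn).2.2.2.1
    · rw [diam_eq_of_equiv e]
      exact (main n hn).2.2.1.trans (by norm_num)

end Pool.Agent.ALT32
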