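import Pool.Agent.ALT32.Final

/-!
# The symmetric group, and lower bounds for the diameters
-/

set_option autoImplicit false

namespace Pool.Agent.ALT32

open Equiv Equiv.Perm
open scoped commutatorElement

theorem rs_self {G : Type*} [Group G] (x : G) : RS x x := by
  unfold RS
  rw [Set.pair_eq_singleton, ← Subgroup.zpowers_eq_closure]
  exact solv_zpowers x

/-- In the symmetric group every nontrivial element is next to an involution. -/
theorem sym_invol {n : ℕ} (x : Perm (Fin n)) (hx : x ≠ 1) :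
    ∃ t : Perm (Fin n), t ≠ 1 ∧ t * t = 1 ∧ RS x t := by
  classical
  rcases Nat.even_or_odd' (orderOf x) with ⟨m, hm | hm⟩
  · refine ⟨x ^ m, ?_, ?_, ?_⟩
    · intro h
      have h1 := orderOf_dvd_of_pow_eq_one h
      have h2 : 0 < orderOf x := orderOf_pos x
      have h3 : 0 < m := by omega
      have := Nat.le_of_dvd h3 h1
      omega
    · rw [← pow_add, ← two_mul, ← hm, pow_orderOf_eq_one]
    · refine solv_mono ?_ (solv_zpowers x)
      rw [Subgroup.closure_le]
      rintro g (rfl | rfl)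
      · exact Subgroup.mem_zpowers _
      · exact Subgroup.npow_mem_zpowers _ _
  · obtain ⟨a, ha⟩ : ∃ a, x a ≠ a := by
      by_contra hc
      push Not at hc
      exact hx (Equiv.ext hc)
    have h2 : x (x a) ≠ a := odd_no_two (m := m) (by rw [← hm]; exact pow_orderOf_eq_one x) ha
    obtain ⟨t, ht1, ht2, ht3, -, -⟩ := refl_exists x a h2
    exact ⟨t, ht2, ht1, solv_dih (Commute.refl x) ht3⟩

theorem sym_three (n : ℕ) : (solubleGraph (Perm (Fin n))).ediam ≤ 3 := by
  apply SimpleGraph.ediam_le_of_edist_le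
  intro x y
  obtain ⟨s, hs1, hs2, hs3⟩ := sym_invol x.1 x.2
  obtain ⟨t, ht1, ht2, ht3⟩ := sym_invol y.1 y.2
  exact edist_le_three hs1 ht1 hs3 (solv_invol hs2 ht2) ht3.symm

/-! ### Two elements generating an insoluble group -/

theorem not_rs_words {G : Type*} [Group G] {x y : G} (hx : x ≠ 1)
    (h : x = (y⁻¹ * x⁻¹) * ⁅x, (y * y) * x * (y * y)⁻¹⁆ * (y⁻¹ * x⁻¹)⁻¹) : ¬ RS x y := by
  have hxm : x ∈ Subgroup.closure {x, y} := Subgroup.subset_closure (Set.mem_insert _ _)
  have hym : y ∈ Subgroup.closure {x, y} :=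
    Subgroup.subset_closure (Set.mem_insert_of_mem _ rfl)
  obtain ⟨X, hX⟩ : ∃ X : Subgroup.closure {x, y}, X = ⟨x, hxm⟩ := ⟨_, rfl⟩
  obtain ⟨Y, hY⟩ : ∃ Y : Subgroup.closure {x, y}, Y = ⟨y, hym⟩ := ⟨_, rfl⟩
  have key : X = (Y⁻¹ * X⁻¹) * ⁅X, (Y * Y) * X * (Y * Y)⁻¹⁆ * (Y⁻¹ * X⁻¹)⁻¹ := by
    apply Subtype.ext
    rw [hX, hY]
    simpa [commutatorElement_def] using h
  refine not_isSolvable_of_mem_derivedSeries (g := X) ?_ fun n => ?_
  · intro h1
    apply hx
    rw [hX] at h1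
    exact congrArg Subtype.val h1
  · induction n with
    | zero => exact Subgroup.mem_top X
    | succ n ih =>
      rw [key]
      refine (derivedSeries_normal _ _).conj_mem _ ?_ _
      exact Subgroup.commutator_mem_commutator ih ((derivedSeries_normal _ _).conj_mem _ ih _)

theorem exists_not_rs {n : ℕ} (hn : 5 ≤ n) :
    ∃ x y : Perm (Fin n), sign x = 1 ∧ sign y = 1 ∧ x ≠ 1 ∧ y ≠ 1 ∧ ¬ RS x y := by
  let X : Perm (Fin 5) := ⟨![1, 2, 0, 3, 4], ![2, 0, 1, 3, 4], by decide, by decide⟩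
  let Y : Perm (Fin 5) := ⟨![1, 2, 3, 4, 0], ![4, 0, 1, 2, 3], by decide, by decide⟩
  have hX1 : X ≠ 1 := by decide
  have hY1 : Y ≠ 1 := by decide
  have key : X = (Y⁻¹ * X⁻¹) * ⁅X, (Y * Y) * X * (Y * Y)⁻¹⁆ * (Y⁻¹ * X⁻¹)⁻¹ := by
    unfold X Y; decide
  have hX2 : X = (X * X) * (X * X) := by unfold X; decide
  have hY2 : Y = (Y * Y * Y) * (Y * Y * Y) := by unfold Y; decide
  let Φ : Perm (Fin 5) →* Perm (Fin n) := viaEmbeddingHom (Fin.castLEEmb hn)
  have hΦ : Function.Injective Φ := viaEmbeddingHom_injective _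
  have hne : ∀ {a : Perm (Fin 5)}, a ≠ 1 → Φ a ≠ 1 := by
    intro a ha h
    exact ha (hΦ (h.trans (map_one Φ).symm))
  refine ⟨Φ X, Φ Y, ?_, ?_, hne hX1, hne hY1, not_rs_words (hne hX1) ?_⟩
  · rw [hX2, map_mul Φ, map_mul sign]
    exact Int.units_mul_self _
  · rw [hY2, map_mul Φ, map_mul sign]
    exact Int.units_mul_self _
  · have := congrArg Φ key
    simpa only [map_mul, map_inv, map_commutatorElement] using this

/-! ### Lower bounds -/

theorem two_le {G : Type*} [Group G] {x y : G} (hx : x ≠ 1) (hy : y ≠ 1) (h : ¬ RS x y) :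
    2 ≤ (solubleGraph G).ediam := by
  refine le_trans ?_ (SimpleGraph.edist_le_ediam (u := ⟨x, hx⟩) (v := ⟨y, hy⟩))
  by_contra hc
  have h1 : (solubleGraph G).edist ⟨x, hx⟩ ⟨y, hy⟩ ≤ 1 := by
    rw [not_le] at hc
    exact Order.le_of_lt_add_one (by
      have e : (1 : ℕ∞) + 1 = 2 := by norm_num
      rw [e]; exact hc)
  rw [SimpleGraph.edist_le_one_iff_adj_or_eq] at h1
  rcases h1 with h1 | h1
  · exact h h1.2
  · apply h
    have : x = y := congrArg Subtype.val h1
    rw [this]; exact rs_self y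

theorem exists_mid {G : Type*} [Group G] {x y : {x : G // x ≠ 1}}
    (h : (solubleGraph G).edist x y ≤ 2) : ∃ m : {x : G // x ≠ 1}, RS x.1 m.1 ∧ RS m.1 y.1 := by
  obtain ⟨p, hp⟩ := SimpleGraph.exists_walk_of_edist_ne_top
    (ne_top_of_le_ne_top (by simp) h)
  rw [← hp] at h
  have hl : p.length ≤ 2 := by exact_mod_cast h
  cases p with
  | nil => exact ⟨x, rs_self _, rs_self _⟩
  | cons h1 q =>
    cases q with
    | nil => exact ⟨y, h1.2, rs_self _⟩
    | cons h2 q' =>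
      rw [SimpleGraph.Walk.length_cons, SimpleGraph.Walk.length_cons] at hl
      have h0 : q'.length = 0 := by omega
      have := SimpleGraph.Walk.eq_of_length_eq_zero h0
      subst this
      exact ⟨_, h1.2, h2.2⟩

theorem three_le {G : Type*} [Group G] {x y : G} (hx : x ≠ 1) (hy : y ≠ 1)
    (h : ∀ m : G, m ≠ 1 → ¬ (RS x m ∧ RS y m)) : 3 ≤ (solubleGraph G).ediam := by
  refine le_trans ?_ (SimpleGraph.edist_le_ediam (u := ⟨x, hx⟩) (v := ⟨y, hy⟩))
  by_contra hc
  have h1 : (solubleGraph G).edist ⟨x, hx⟩ ⟨y, hy⟩ ≤ 2 := by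
    rw [not_le] at hc
    exact Order.le_of_lt_add_one (by
      have e : (2 : ℕ∞) + 1 = 3 := by norm_num
      rw [e]; exact hc)
  obtain ⟨m, hm1, hm2⟩ := exists_mid h1
  exact h m.1 m.2 ⟨hm1, hm2.symm⟩

theorem rs_of_equiv {G H : Type*} [Group G] [Group H] (f : G ≃* H) {a b : G} (h : RS (f a) (f b)) :
    RS a b := by
  have := solv_map f.symm.toMonoidHom h
  have e : ∀ a, f.symm.toMonoidHom (f a) = a := fun a => f.symm_apply_apply a
  rwa [e, e] at this

theorem three_le_transport {G H : Type*} [Group G] [Group H] (f : G ≃* H) {x y : G} (hx : x ≠ 1)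
    (hy : y ≠ 1) (h : ∀ m : G, m ≠ 1 → ¬ (RS x m ∧ RS y m)) : 3 ≤ (solubleGraph H).ediam := by
  refine three_le (x := f x) (y := f y) (fun h1 => hx ?_) (fun h1 => hy ?_) ?_
  · exact f.injective (h1.trans (map_one f).symm)
  · exact f.injective (h1.trans (map_one f).symm)
  · rintro m hm ⟨h1, h2⟩
    refine h (f.symm m) (fun h3 => hm ?_) ⟨?_, ?_⟩
    · have := congrArg f h3
      simpa using this
    · apply rs_of_equiv f
      simpa using h1
    · apply rs_of_equiv f
      simpa using h2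

end Pool.Agent.ALT32
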